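import Pool.Agent.P.MP_a5be26_lc.Sm

/-!
The forcing notions: countable partial injections of the reals into the first uncountable ordinal,
and the product of the Levy collapse with the forcing adding a countably closed Kurepa family.
-/

open Set Function Cardinal Ordinal

namespace Pool.Agent.P.MP_a5be26_lc

/-- countable partial injections -/
@[ext] structure Cc : Type 1 where
  a : Set (Set ℕ × Ordinal.{0})
  cnt : a.Countable
  lt : ∀ z ∈ a, z.2 < ω₁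
  inj : ∀ z ∈ a, ∀ z' ∈ a, z.1 = z'.1 ↔ z.2 = z'.2

instance : Preorder Cc where
  le p q := q.a ⊆ p.a
  le_refl _ := Subset.rfl
  le_trans _ _ _ h h' := h'.trans h

theorem Cc.le_def {p q : Cc} : p ≤ q ↔ q.a ⊆ p.a := Iff.rfl

instance : Inhabited Cc := ⟨⟨∅, countable_empty, by simp, by simp⟩⟩

theorem Cc.lb (g : ℕ → Cc) (h : Antitone g) : ∃ r, ∀ n, r ≤ g n := by
  refine ⟨⟨⋃ n, (g n).a, countable_iUnion fun n => (g n).cnt, fun z hz => ?_,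
    fun z hz z' hz' => ?_⟩, fun n => subset_iUnion (fun n => (g n).a) n⟩
  · obtain ⟨n, hn⟩ := mem_iUnion.1 hz
    exact (g n).lt z hn
  · obtain ⟨n, hn⟩ := mem_iUnion.1 hz
    obtain ⟨m, hm⟩ := mem_iUnion.1 hz'
    exact (g (max n m)).inj z (h (le_max_left _ _) hn) z' (h (le_max_right _ _) hm)

theorem Cc.dense (p : Cc) (x : Set ℕ) : ∃ q ≤ p, ∃ γ, (x, γ) ∈ q.a := by
  by_cases h : ∃ γ, (x, γ) ∈ p.a
  · exact ⟨p, le_rfl, h⟩
  obtain ⟨b, hb, hb'⟩ := countable_bound (p.cnt.image Prod.snd)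
    (by rintro _ ⟨z, hz, rfl⟩; exact p.lt z hz)
  have key : ∀ z ∈ p.a, x ≠ z.1 ∧ b ≠ z.2 := fun z hz =>
    ⟨fun e => h ⟨z.2, e ▸ hz⟩, (hb' _ ⟨z, hz, rfl⟩).ne'⟩
  refine ⟨⟨insert (x, b) p.a, p.cnt.insert _, ?_, ?_⟩, subset_insert _ _, b, mem_insert _ _⟩
  · rintro z (rfl | hz)
    exacts [hb, p.lt z hz]
  · rintro z (rfl | hz) z' (rfl | hz')
    · simp
    · simp [key z' hz']
    · simp [(key z hz).1.symm, (key z hz).2.symm]
    · exact p.inj z hz z' hz'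

theorem sm_Cc : Sm (univ : Set Cc) := by
  have h1 : Sm ((univ : Set (Set ℕ)) ×ˢ Iio (ω₁ : Ordinal.{0})) := sm_X.prod (sm_Iio omega1_lt_kk)
  refine ((h1.seqs.image range).insert ∅).of_injOn Cc.a (fun p _ => ?_)
    fun p _ q _ e => Cc.ext e
  rcases p.a.eq_empty_or_nonempty with h | h
  · exact Or.inl h
  · obtain ⟨f, hf⟩ := p.cnt.exists_eq_range h
    exact Or.inr ⟨f, fun n => ⟨trivial, p.lt _ (hf ▸ mem_range_self n)⟩, hf.symm⟩

/-- conditions of the collapse and of the Kurepa forcing -/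
@[ext] structure Qc : Type 1 where
  l : Set (Ordinal.{0} × Ordinal.{0} × Ordinal.{0})
  α : Ordinal.{0}
  t : Set (Set Ordinal.{0})
  D : Set Ordinal.{0}
  f : Ordinal.{0} → Set Ordinal.{0}
  l_sm : Sm l
  l_lt : ∀ z ∈ l, z.2.1 < z.1 ∧ z.2.2 < kk
  l_inj : ∀ z ∈ l, ∀ z' ∈ l, z.1 = z'.1 → (z.2.1 = z'.2.1 ↔ z.2.2 = z'.2.2)
  α_lt : α < kk
  t_sm : Sm t
  t_sub : ∀ s ∈ t, s ⊆ Iio α
  t_emp : ∅ ∈ t
  t_cut : ∀ s ∈ t, ∀ β, s ∩ Iio β ∈ t
  t_cl : ∀ (s : Set Ordinal.{0}) (β : ℕ → Ordinal.{0}), (∀ x ∈ s, ∃ n, x < β n) →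
    (∀ n, s ∩ Iio (β n) ∈ t) → s ∈ t
  D_sm : Sm D
  f_D : ∀ η ∉ D, f η = ∅
  f_t : ∀ η, f η ∈ t

/-- the order -/
structure Qc.Le (p q : Qc) : Prop where
  l : q.l ⊆ p.l
  α : q.α ≤ p.α
  t : ∀ s, s ∈ q.t ↔ s ∈ p.t ∧ s ⊆ Iio q.α
  D : q.D ⊆ p.D
  f : ∀ η ∈ q.D, q.f η = p.f η ∩ Iio q.α

instance : Preorder Qc where
  le := Qc.Le
  le_refl p := ⟨Subset.rfl, le_rfl, fun s => ⟨fun h => ⟨h, p.t_sub s h⟩, fun h => h.1⟩, Subset.rfl,
    fun η _ => (inter_eq_left.2 (p.t_sub _ (p.f_t η))).symm⟩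
  le_trans p q r h h' := ⟨h'.l.trans h.l, h'.α.trans h.α, fun s => by
      rw [h'.t, h.t]
      exact ⟨fun a => ⟨a.1.1, a.2⟩, fun a => ⟨⟨a.1, a.2.trans (Iio_subset_Iio h'.α)⟩, a.2⟩⟩,
    h'.D.trans h.D, fun η hη => by
      rw [h'.f η hη, h.f η (h'.D hη), inter_assoc, inter_eq_right.2 (Iio_subset_Iio h'.α)]⟩

theorem Qc.le_def {p q : Qc} : p ≤ q ↔ p.Le q := Iff.rfl

theorem Qc.Le.t_sub {p q : Qc} (h : p.Le q) : q.t ⊆ p.t := fun s hs => ((h.t s).1 hs).1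

theorem Qc.Le.cut {p q : Qc} (h : p.Le q) {s : Set Ordinal.{0}} (hs : s ∈ p.t) :
    s ∩ Iio q.α ∈ q.t := (h.t _).2 ⟨p.t_cut s hs _, inter_subset_right⟩

/-- the weakest condition -/
noncomputable def Qc.top : Qc where
  l := ∅
  α := 0
  t := {∅}
  D := ∅
  f _ := ∅
  l_sm := .of_countable countable_empty
  l_lt := by simp
  l_inj := by simp
  α_lt := kk_pos
  t_sm := .of_countable (countable_singleton _)
  t_sub := by simp
  t_emp := rfl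
  t_cut := by simp
  t_cl s β h1 h2 := eq_empty_of_forall_notMem fun x hx => by
    obtain ⟨n, hn⟩ := h1 x hx
    exact (h2 n).subset ⟨hx, hn⟩
  D_sm := .of_countable countable_empty
  f_D _ _ := rfl
  f_t _ := rfl

theorem Qc.le_top (p : Qc) : p ≤ Qc.top :=
  ⟨empty_subset _, zero_le, fun s => ⟨fun h => by
      rw [show s = ∅ from h]; exact ⟨p.t_emp, empty_subset _⟩,
    fun h => eq_empty_of_forall_notMem fun x hx => absurd (show x < 0 from h.2 hx) not_lt_zero⟩,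
    empty_subset _, fun _ h => h.elim⟩

/-- restriction to the coordinates below `ξ` -/
def Qc.res (p : Qc) (ξ : Ordinal.{0}) : Qc :=
  { p with
    l := {z ∈ p.l | z.1 < ξ}
    D := p.D ∩ Iio ξ
    f := fun η => {x | η < ξ ∧ x ∈ p.f η}
    l_sm := p.l_sm.mono (sep_subset _ _)
    l_lt := fun z hz => p.l_lt z hz.1
    l_inj := fun z hz z' hz' => p.l_inj z hz.1 z' hz'.1
    D_sm := p.D_sm.mono inter_subset_left
    f_D := fun η hη => eq_empty_of_forall_notMem fun x hx => by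
      have := p.f_D η fun h => hη ⟨h, hx.1⟩
      exact (this.subset hx.2).elim
    f_t := fun η => by
      by_cases h : η < ξ
      · simpa [h] using p.f_t η
      · simpa [h] using p.t_emp }

/-- the support lies below `ξ` -/
def Qc.InX (p : Qc) (ξ : Ordinal.{0}) : Prop := (∀ z ∈ p.l, z.1 < ξ) ∧ ∀ η ∈ p.D, η < ξ

theorem Qc.res_f (p : Qc) {ξ η : Ordinal.{0}} (h : η < ξ) : (p.res ξ).f η = p.f η := by
  simp [Qc.res, h]

theorem Qc.inX_res (p : Qc) (ξ : Ordinal.{0}) : (p.res ξ).InX ξ :=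
  ⟨fun _ h => h.2, fun _ h => h.2⟩

theorem Qc.InX.mono {p : Qc} {ξ ζ : Ordinal.{0}} (h : p.InX ξ) (h' : ξ ≤ ζ) : p.InX ζ :=
  ⟨fun z hz => (h.1 z hz).trans_le h', fun z hz => (h.2 z hz).trans_le h'⟩

theorem Qc.inX_top (ξ : Ordinal.{0}) : Qc.top.InX ξ := ⟨fun _ h => h.elim, fun _ h => h.elim⟩

theorem Qc.le_res (p : Qc) (ξ : Ordinal.{0}) : p ≤ p.res ξ :=
  ⟨sep_subset _ _, le_rfl, (le_refl p).t, inter_subset_left, fun η hη => by
    rw [p.res_f hη.2]; exact (le_refl p).f η hη.1⟩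

theorem Qc.res_le {p q : Qc} {ξ : Ordinal.{0}} (h : p ≤ q) (hq : q.InX ξ) : p.res ξ ≤ q :=
  ⟨fun z hz => ⟨h.l hz, hq.1 z hz⟩, h.α, h.t, fun η hη => ⟨h.D hη, hq.2 η hη⟩, fun η hη => by
    rw [p.res_f (hq.2 η hη)]; exact h.f η hη⟩

theorem Qc.res_mono {p q : Qc} (h : p ≤ q) (ξ : Ordinal.{0}) : p.res ξ ≤ q.res ξ :=
  Qc.res_le (h.trans (q.le_res ξ)) (q.inX_res ξ)

theorem Qc.sm_supp (p : Qc) : Sm (Prod.fst '' p.l ∪ p.D) := (p.l_sm.image _).union p.D_sm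

theorem Qc.inX_iff {p : Qc} {ξ : Ordinal.{0}} : p.InX ξ ↔ ∀ x ∈ Prod.fst '' p.l ∪ p.D, x < ξ := by
  refine ⟨fun h => ?_, fun h => ⟨fun z hz => h _ (Or.inl ⟨z, hz, rfl⟩), fun η hη => h _ (Or.inr hη)⟩⟩
  rintro x (⟨z, hz, rfl⟩ | hx)
  exacts [h.1 z hz, h.2 x hx]

theorem Qc.exists_inX (p : Qc) : ∃ ξ, p.InX ξ := by
  have := p.sm_supp.small
  obtain ⟨b, hb⟩ := small_bound (Prod.fst '' p.l ∪ p.D)
  exact ⟨b, Qc.inX_iff.2 hb⟩

instance small_inX (ξ : Ordinal.{0}) : Small.{0} {p : Qc | p.InX ξ} := by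
  let F : {p : Qc | p.InX ξ} → 𝒫 (Iio ξ ×ˢ Iio ξ ×ˢ Iio kk) × Iio kk × 𝒫 𝒫 (Iio kk) ×
      𝒫 (Iio ξ) × 𝒫 (Iio ξ ×ˢ Iio kk) := fun p =>
    (⟨p.1.l, fun z hz => ⟨p.2.1 z hz, (p.1.l_lt z hz).1.trans (p.2.1 z hz), (p.1.l_lt z hz).2⟩⟩,
      ⟨p.1.α, p.1.α_lt⟩,
      ⟨p.1.t, fun s hs => (p.1.t_sub s hs).trans (Iio_subset_Iio p.1.α_lt.le)⟩,
      ⟨p.1.D, p.2.2⟩,
      ⟨{z | z.2 ∈ p.1.f z.1}, fun z hz => ⟨p.2.2 _ (by
        by_contra h
        exact ((p.1.f_D _ h).subset hz).elim), (p.1.t_sub _ (p.1.f_t _) hz).trans p.1.α_lt⟩⟩)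
  refine small_of_injective (f := F) fun p q e => Subtype.ext ?_
  simp only [F, Prod.mk.injEq] at e
  refine Qc.ext (congrArg Subtype.val e.1) (congrArg Subtype.val e.2.1)
    (congrArg Subtype.val e.2.2.1) (congrArg Subtype.val e.2.2.2.1)
    (funext fun η => Set.ext fun x => ?_)
  exact Set.ext_iff.1 (congrArg Subtype.val e.2.2.2.2) (η, x)

section limit
variable {ι : Type*} {g : ι → Qc}

theorem union_f (hd : ∀ i j, ∃ m, g m ≤ g i ∧ g m ≤ g j) {η : Ordinal.{0}} {j : ι}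
    (hj : η ∈ (g j).D) : (⋃ i, (g i).f η) ∩ Iio (g j).α = (g j).f η := by
  refine Subset.antisymm ?_ (subset_inter (subset_iUnion (fun i => (g i).f η) j)
    ((g j).t_sub _ ((g j).f_t η)))
  rintro x ⟨hx, hx'⟩
  obtain ⟨i, hi⟩ := mem_iUnion.1 hx
  obtain ⟨m, h1, h2⟩ := hd i j
  have hD : η ∈ (g i).D := by
    by_contra h
    exact (((g i).f_D η h).subset hi).elim
  rw [h1.f η hD] at hi
  rw [h2.f η hj]
  exact ⟨hi.1, hx'⟩

theorem union_f_cut (hd : ∀ i j, ∃ m, g m ≤ g i ∧ g m ≤ g j) (η : Ordinal.{0}) (j : ι) :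
    (⋃ i, (g i).f η) ∩ Iio (g j).α ∈ (g j).t := by
  by_cases h : ∃ i, η ∈ (g i).D
  · obtain ⟨i, hi⟩ := h
    obtain ⟨m, h1, h2⟩ := hd i j
    have := h2.cut ((g m).f_t η)
    rwa [← union_f hd (h1.D hi), inter_assoc, inter_eq_right.2 (Iio_subset_Iio h2.α)] at this
  · have : (⋃ i, (g i).f η) = ∅ := iUnion_eq_empty.2 fun i => (g i).f_D η fun h' => h ⟨i, h'⟩
    rw [this, empty_inter]
    exact (g j).t_emp

theorem union_f_sub (η : Ordinal.{0}) : ∀ x ∈ ⋃ i, (g i).f η, ∃ i, x < (g i).α := fun x hx => by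
  obtain ⟨i, hi⟩ := mem_iUnion.1 hx
  exact ⟨i, (g i).t_sub _ ((g i).f_t η) hi⟩

theorem union_l_inj (hd : ∀ i j, ∃ m, g m ≤ g i ∧ g m ≤ g j) :
    ∀ z ∈ ⋃ i, (g i).l, ∀ z' ∈ ⋃ i, (g i).l, z.1 = z'.1 → (z.2.1 = z'.2.1 ↔ z.2.2 = z'.2.2) := by
  intro z hz z' hz'
  obtain ⟨i, hi⟩ := mem_iUnion.1 hz
  obtain ⟨j, hj⟩ := mem_iUnion.1 hz'
  obtain ⟨m, h1, h2⟩ := hd i j
  exact (g m).l_inj z (h1.l hi) z' (h2.l hj)

/-- lower bounds of directed families of size at most continuum -/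
theorem Qc.lb [Nonempty ι] (hι : Sm (univ : Set ι)) (hd : ∀ i j, ∃ m, g m ≤ g i ∧ g m ≤ g j) :
    ∃ r, ∀ i, r ≤ g i := by
  obtain ⟨α, hα, hα'⟩ := (hι.image fun i => (g i).α).bound
    (by rintro _ ⟨i, -, rfl⟩; exact (g i).α_lt)
  have hα'' : ∀ i, (g i).α ≤ α := fun i => (hα' _ ⟨i, trivial, rfl⟩).le
  have hU : ∀ {β : Type 1} (s : ι → Set β), (∀ i, Sm (s i)) → Sm (⋃ i, s i) := fun s hs => by
    simpa using hι.biUnion fun i _ => hs i
  let T : Set (Set Ordinal.{0}) := {s | (∀ i, s ∩ Iio (g i).α ∈ (g i).t) ∧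
    ((∃ u : ℕ → ι, ∀ x ∈ s, ∃ n, x < (g (u n)).α) ∨ ∃ η ∈ ⋃ i, (g i).D, s = ⋃ i, (g i).f η)}
  have hsub : ∀ s ∈ T, ∀ x ∈ s, ∃ i, x < (g i).α := by
    rintro s ⟨-, ⟨u, hu⟩ | ⟨η, -, rfl⟩⟩ x hx
    · obtain ⟨n, hn⟩ := hu x hx
      exact ⟨_, hn⟩
    · exact union_f_sub η x hx
  have hT : ∀ i, (g i).t ⊆ T := fun i s hs =>
    ⟨fun j => by
      obtain ⟨m, h1, h2⟩ := hd i j
      exact h2.cut (h1.t_sub hs), Or.inl ⟨fun _ => i, fun x hx => ⟨0, (g i).t_sub s hs hx⟩⟩⟩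
  obtain ⟨i0⟩ := ‹Nonempty ι›
  refine ⟨⟨⋃ i, (g i).l, α, T, ⋃ i, (g i).D, fun η => ⋃ i, (g i).f η, hU _ fun i => (g i).l_sm,
    fun z hz => ?_, union_l_inj hd, hα, ?_, fun s hs x hx => ?_, hT i0 (g i0).t_emp, ?_, ?_,
    hU _ fun i => (g i).D_sm, fun η hη => iUnion_eq_empty.2 fun i => (g i).f_D η fun h =>
      hη (mem_iUnion.2 ⟨i, h⟩), fun η => ?_⟩, fun i => ⟨subset_iUnion (fun i => (g i).l) i, hα'' i,
    fun s => ⟨fun h => ⟨hT i h, (g i).t_sub s h⟩, fun h => ?_⟩, subset_iUnion (fun i => (g i).D) i,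
    fun η hη => (union_f hd hη).symm⟩⟩
  · obtain ⟨i, hi⟩ := mem_iUnion.1 hz
    exact (g i).l_lt z hi
  · refine (((hU _ fun i => (g i).t_sm).seqs.image fun u => ⋃ n, u n).union
      ((hU _ fun i => (g i).D_sm).image fun η => ⋃ i, (g i).f η)).mono ?_
    rintro s ⟨h1, ⟨u, hu⟩ | ⟨η, h2, rfl⟩⟩
    · refine Or.inl ⟨fun n => s ∩ Iio (g (u n)).α, fun n => mem_iUnion.2 ⟨u n, h1 _⟩, ?_⟩
      refine Subset.antisymm (iUnion_subset fun n => inter_subset_left) fun x hx => ?_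
      obtain ⟨n, hn⟩ := hu x hx
      exact mem_iUnion.2 ⟨n, hx, hn⟩
    · exact Or.inr ⟨η, h2, rfl⟩
  · obtain ⟨i, hi⟩ := hsub s hs x hx
    exact hi.trans_le (hα'' i)
  · intro s hs β
    by_cases h : ∃ i, β ≤ (g i).α
    · obtain ⟨i, hi⟩ := h
      refine ⟨fun j => ?_, Or.inl ⟨fun _ => i, fun x hx => ⟨0, hx.2.trans_le hi⟩⟩⟩
      rw [inter_right_comm]
      exact (g j).t_cut _ (hs.1 j) β
    · have : s ∩ Iio β = s := inter_eq_left.2 fun x hx => by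
        obtain ⟨i, hi⟩ := hsub s hs x hx
        exact hi.trans (not_le.1 fun h' => h ⟨i, h'⟩)
      rwa [this]
  · intro s β h1 h2
    by_cases h : ∀ n, ∃ i, β n ≤ (g i).α
    · choose u hu using h
      refine ⟨fun j => (g j).t_cl _ β (fun x hx => h1 x hx.1) fun n => ?_,
        Or.inl ⟨u, fun x hx => (h1 x hx).imp fun n hn => hn.trans_le (hu n)⟩⟩
      rw [inter_right_comm]
      exact (h2 n).1 j
    · push Not at h
      obtain ⟨n, hn⟩ := h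
      have : s ∩ Iio (β n) = s := inter_eq_left.2 fun x hx => by
        obtain ⟨m, hm⟩ := h1 x hx
        obtain ⟨i, hi⟩ := hsub _ (h2 m) x ⟨hx, hm⟩
        exact hi.trans (hn i)
      exact this ▸ h2 n
  · by_cases h : η ∈ ⋃ i, (g i).D
    · exact ⟨union_f_cut hd η, Or.inr ⟨η, h, rfl⟩⟩
    · have : (⋃ i, (g i).f η) = ∅ := iUnion_eq_empty.2 fun i => (g i).f_D η fun h' =>
        h (mem_iUnion.2 ⟨i, h'⟩)
      simp only [this]
      exact hT i0 (g i0).t_emp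
  · have := h.1.1 i
    rwa [inter_eq_left.2 h.2] at this

end limit

/-- the tail forcing is countably closed -/
theorem Qc.amalg {r : Qc} {ξ : Ordinal.{0}} (hr : r.InX ξ) {g : ℕ → Qc}
    (hd : ∀ i j, ∃ m, g m ≤ g i ∧ g m ≤ g j) (h : ∀ n, r ≤ (g n).res ξ) :
    ∃ s, s ≤ r ∧ (∀ n, s ≤ g n) ∧ r ≤ s.res ξ := by
  have hl : ∀ z ∈ ⋃ i, (g i).l, z.1 < ξ → z ∈ r.l := fun z hz h' => by
    obtain ⟨i, hi⟩ := mem_iUnion.1 hz
    exact (h i).l ⟨hi, h'⟩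
  let f : Ordinal.{0} → Set Ordinal.{0} := fun η =>
    {x | (η < ξ ∧ x ∈ r.f η) ∨ (¬ η < ξ ∧ x ∈ ⋃ i, (g i).f η)}
  have f1 : ∀ η < ξ, f η = r.f η := fun η h => by
    ext x
    simp only [f, h, mem_ofPred_eq, false_and, or_false, not_true_eq_false, true_and]
  have f2 : ∀ η, ¬ η < ξ → f η = ⋃ i, (g i).f η := fun η h => by
    ext x
    simp only [f, h, mem_ofPred_eq, false_and, false_or, not_false_eq_true, true_and]
  refine ⟨{ r with
    l := r.l ∪ ⋃ i, (g i).l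
    D := r.D ∪ ⋃ i, (g i).D
    f := f
    l_sm := r.l_sm.union (.iUnion fun i => (g i).l_sm)
    l_lt := ?_
    l_inj := ?_
    D_sm := r.D_sm.union (.iUnion fun i => (g i).D_sm)
    f_D := ?_
    f_t := ?_ }, ⟨subset_union_left, le_rfl, (le_refl r).t, subset_union_left, fun η hη => ?_⟩,
    fun n => ⟨subset_union_of_subset_right (subset_iUnion (fun i => (g i).l) n) _, (h n).α, (h n).t,
      subset_union_of_subset_right (subset_iUnion (fun i => (g i).D) n) _, fun η hη => ?_⟩,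
    ⟨?_, le_rfl, (le_refl r).t, ?_, fun η hη => ?_⟩⟩
  · rintro z (hz | hz)
    · exact r.l_lt z hz
    · obtain ⟨i, hi⟩ := mem_iUnion.1 hz
      exact (g i).l_lt z hi
  · rintro z (hz | hz) z' (hz' | hz') e
    · exact r.l_inj z hz z' hz' e
    · exact r.l_inj z hz z' (hl z' hz' (e ▸ hr.1 z hz)) e
    · exact r.l_inj z (hl z hz (e ▸ hr.1 z' hz')) z' hz' e
    · exact union_l_inj hd z hz z' hz' e
  · intro η hη
    by_cases h' : η < ξ
    · rw [f1 η h']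
      exact r.f_D η fun h => hη (Or.inl h)
    · rw [f2 η h']
      exact iUnion_eq_empty.2 fun i => (g i).f_D η fun h => hη (Or.inr (mem_iUnion.2 ⟨i, h⟩))
  · intro η
    by_cases h' : η < ξ
    · rw [f1 η h']
      exact r.f_t η
    · rw [f2 η h']
      exact r.t_cl _ (fun n => (g n).α) (union_f_sub η) fun n => (h n).t_sub (union_f_cut hd η n)
  · change r.f η = f η ∩ _
    rw [f1 η (hr.2 η hη)]
    exact (le_refl r).f η hη
  · change (g n).f η = f η ∩ _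
    by_cases h' : η < ξ
    · rw [f1 η h', ← (g n).res_f h']
      exact (h n).f η ⟨hη, h'⟩
    · rw [f2 η h', union_f hd hη]
  · rintro z ⟨hz | hz, h'⟩
    exacts [hz, hl z hz h']
  · rintro η ⟨hη | hη, h'⟩
    · exact hη
    · obtain ⟨i, hi⟩ := mem_iUnion.1 hη
      exact (h i).D ⟨hi, h'⟩
  · rw [Qc.res_f _ hη.2]
    change f η = _
    rw [f1 η hη.2]
    exact (inter_eq_left.2 (r.t_sub _ (r.f_t η))).symm

theorem Qc.amalg1 {r q : Qc} {ξ : Ordinal.{0}} (hr : r.InX ξ) (h : r ≤ q.res ξ) :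
    ∃ s, s ≤ r ∧ s ≤ q ∧ r ≤ s.res ξ :=
  let ⟨s, h1, h2, h3⟩ := Qc.amalg hr (g := fun _ => q) (fun _ _ => ⟨0, le_rfl, le_rfl⟩) fun _ => h
  ⟨s, h1, h2 0, h3⟩

theorem Qc.cl : Cl Qc := fun I g hI ⟨i, hi⟩ hm => by
  have : Nonempty I := ⟨⟨i, hi⟩⟩
  obtain ⟨r, hr⟩ := Qc.lb (g := fun i : I => g i.1)
    (hI.of_injOn Subtype.val (fun i _ => i.2) Subtype.val_injective.injOn) fun i j => by
      rcases le_total i.1 j.1 with h | h
      exacts [⟨j, hm _ i.2 _ j.2 h, le_rfl⟩, ⟨i, le_rfl, hm _ j.2 _ i.2 h⟩]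
  exact ⟨r, fun i hi => hr ⟨i, hi⟩⟩

theorem Qc.dense_l (p : Qc) {β η : Ordinal.{0}} (hη : η < β) : ∃ q ≤ p, ∃ γ, (β, η, γ) ∈ q.l := by
  by_cases h : ∃ γ, (β, η, γ) ∈ p.l
  · exact ⟨p, le_rfl, h⟩
  obtain ⟨b, hb, hb'⟩ := (p.l_sm.image fun z => z.2.2).bound
    (by rintro _ ⟨z, hz, rfl⟩; exact (p.l_lt z hz).2)
  have key : ∀ z ∈ p.l, β = z.1 → η ≠ z.2.1 ∧ b ≠ z.2.2 := fun z hz e =>
    ⟨fun e' => h ⟨z.2.2, by rw [e, e']; exact hz⟩, (hb' _ ⟨z, hz, rfl⟩).ne'⟩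
  refine ⟨{ p with l := insert (β, η, b) p.l, l_sm := p.l_sm.insert _, l_lt := ?_, l_inj := ?_ },
    ⟨subset_insert _ _, le_rfl, (le_refl p).t, Subset.rfl, (le_refl p).f⟩, b, mem_insert _ _⟩
  · rintro z (rfl | hz)
    exacts [⟨hη, hb⟩, p.l_lt z hz]
  · rintro z (rfl | hz) z' (rfl | hz') e
    · simp
    · simp [key z' hz' e]
    · simp [(key z hz e.symm).1.symm, (key z hz e.symm).2.symm]
    · exact p.l_inj z hz z' hz' e

theorem Qc.dense_D (p : Qc) (η : Ordinal.{0}) {β : Ordinal.{0}} (hβ : β < kk) :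
    ∃ q ≤ p, η ∈ q.D ∧ β ≤ q.α :=
  ⟨{ p with
      α := max p.α β
      D := insert η p.D
      α_lt := max_lt p.α_lt hβ
      t_sub := fun s hs => (p.t_sub s hs).trans (Iio_subset_Iio (le_max_left _ _))
      D_sm := p.D_sm.insert _
      f_D := fun x hx => p.f_D x fun h => hx (Or.inr h) },
    ⟨Subset.rfl, le_max_left _ _, (le_refl p).t, subset_insert _ _, (le_refl p).f⟩,
    mem_insert _ _, le_max_right _ _⟩

theorem Qc.dense_ne (p : Qc) {η η' : Ordinal.{0}} (hne : η ≠ η') :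
    ∃ q ≤ p, η ∈ q.D ∧ η' ∈ q.D ∧ q.f η ≠ q.f η' := by
  classical
  obtain ⟨p1, h1, h2, -⟩ := p.dense_D η kk_pos
  obtain ⟨q, h3, h4, -⟩ := p1.dense_D η' kk_pos
  have h5 : η ∈ q.D := h3.D h2
  have hn : ∀ s ∈ q.t, q.α ∉ s := fun s hs h => lt_irrefl q.α (q.t_sub s hs h)
  have hc : ∀ β ≤ q.α, insert q.α (q.f η) ∩ Iio β = q.f η ∩ Iio β := fun β hβ =>
    insert_inter_of_notMem (not_lt.2 hβ)
  refine ⟨{ q with
      α := q.α + 1
      t := insert (insert q.α (q.f η)) q.t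
      f := update q.f η (insert q.α (q.f η))
      α_lt := kk_succ q.α_lt
      t_sm := q.t_sm.insert _
      t_sub := ?_
      t_emp := Or.inr q.t_emp
      t_cut := ?_
      t_cl := ?_
      f_D := ?_
      f_t := ?_ }, le_trans (b := q) ⟨Subset.rfl, le_self_add,
        fun s => ⟨fun h => ⟨Or.inr h, q.t_sub s h⟩, ?_⟩, Subset.rfl, fun x hx => ?_⟩ (h3.trans h1),
      h5, h4, ?_⟩
  · rintro s (rfl | hs)
    · exact insert_subset (mem_Iio.2 (Order.lt_add_one_iff.2 le_rfl))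
        ((q.t_sub _ (q.f_t η)).trans (Iio_subset_Iio le_self_add))
    · exact (q.t_sub _ hs).trans (Iio_subset_Iio le_self_add)
  · rintro s (rfl | hs) β
    · rcases le_or_gt β q.α with h | h
      · exact Or.inr (hc β h ▸ q.t_cut _ (q.f_t η) β)
      · exact Or.inl (inter_eq_left.2 (insert_subset h
          ((q.t_sub _ (q.f_t η)).trans (Iio_subset_Iio h.le))))
    · exact Or.inr (q.t_cut s hs β)
  · intro s β a1 a2
    by_cases h : q.α ∈ s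
    · obtain ⟨n, hn'⟩ := a1 _ h
      have : s ∩ Iio (β n) = s := inter_eq_left.2 fun x hx => by
        obtain ⟨m, hm⟩ := a1 x hx
        refine lt_of_le_of_lt ?_ hn'
        rcases a2 m with e | e
        · rcases e.subset ⟨hx, hm⟩ with e' | e'
          exacts [e'.le, (q.t_sub _ (q.f_t η) e').le]
        · exact (q.t_sub _ e ⟨hx, hm⟩).le
      exact this ▸ a2 n
    · exact Or.inr (q.t_cl s β a1 fun n => (a2 n).resolve_left fun e =>
        h (e.symm.subset (mem_insert _ _)).1)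
  · intro x hx
    rw [update_of_ne (fun e : x = η => hx (e ▸ h5))]
    exact q.f_D x hx
  · intro x
    by_cases e : x = η
    · subst e
      rw [update_self]
      exact Or.inl rfl
    · rw [update_of_ne e]
      exact Or.inr (q.f_t x)
  · rintro ⟨rfl | h, h'⟩
    · exact absurd (h' (mem_insert _ _)) (lt_irrefl q.α)
    · exact h
  · change q.f x = update q.f η (insert q.α (q.f η)) x ∩ Iio q.α
    by_cases e : x = η
    · subst e
      rw [update_self, hc _ le_rfl]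
      exact (le_refl q).f x hx
    · rw [update_of_ne e]
      exact (le_refl q).f x hx
  · change update q.f η (insert q.α (q.f η)) η ≠ update q.f η (insert q.α (q.f η)) η'
    rw [update_self, update_of_ne hne.symm]
    exact fun e => hn _ (q.f_t η') (e ▸ mem_insert _ _)

end Pool.Agent.P.MP_a5be26_lc
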