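import Pool.Agent.P.MP_a5be26_lc.Ord
import Pool.Agent.P.MP_a5be26_lc.Pos

/-!
Reflection, the Easton lemma, and the cardinals of the extension by `Cc × Q`.
-/

open Filter Set Function Cardinal Ordinal

namespace Pool.Agent.P.MP_a5be26_lc

open Pool.Agent.Lib.Helper87

/-- what is used about the second factor -/
class Frame (Q : Type 1) [Preorder Q] where
  top : Q
  le_top : ∀ q, q ≤ top
  supp : Q → Set O
  supp_top : supp top = ∅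
  sm_supp : ∀ q, Sm (supp q)
  res : Q → O → Q
  supp_res : ∀ q ξ, ∀ x ∈ supp (res q ξ), x < ξ
  le_res : ∀ q ξ, q ≤ res q ξ
  res_le : ∀ p q ξ, p ≤ q → (∀ x ∈ supp q, x < ξ) → res p ξ ≤ q
  small : ∀ ξ, Small.{0} {q | ∀ x ∈ supp q, x < ξ}
  amalg : ∀ r q ξ, (∀ x ∈ supp r, x < ξ) → r ≤ res q ξ → ∃ s, s ≤ r ∧ s ≤ q
  lb : ∀ g : ℕ → Q, Antitone g → ∃ r, ∀ n, r ≤ g n
  meet : ∀ (x0 : Q) (α : Type 1) (S : Set α), Sm S → ∀ D : α → Q → Prop,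
    (∀ j ∈ S, ∀ x ≤ x0, ∃ y ≤ x, D j y) → (∀ j x y, y ≤ x → D j x → D j y) →
      ∃ y ≤ x0, ∀ j ∈ S, D j y
  l : Q → Set (O × O × O)
  l_mono : ∀ p q, p ≤ q → l q ⊆ l p
  l_lt : ∀ q, ∀ z ∈ l q, z.2.2 < kk
  l_inj : ∀ q, ∀ z ∈ l q, ∀ z' ∈ l q, z.1 = z'.1 → z.2.2 = z'.2.2 → z.2.1 = z'.2.1
  dense_l : ∀ (q : Q) (β η : O), η < β → ∃ r ≤ q, ∃ γ, (β, η, γ) ∈ l r

noncomputable instance : Frame Qc where
  top := Qc.top
  le_top := Qc.le_top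
  supp p := Prod.fst '' p.l ∪ p.D
  supp_top := by simp [Qc.top]
  sm_supp := Qc.sm_supp
  res := Qc.res
  supp_res q ξ := Qc.inX_iff.1 (q.inX_res ξ)
  le_res := Qc.le_res
  res_le _ _ _ h h' := Qc.res_le h (Qc.inX_iff.2 h')
  small ξ := by simpa only [← Qc.inX_iff] using small_inX ξ
  amalg _ _ _ h h' := let ⟨s, a, b, _⟩ := Qc.amalg1 (Qc.inX_iff.2 h) h'; ⟨s, a, b⟩
  lb g h := Qc.lb (.of_countable countable_univ) fun i j =>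
    ⟨max i j, h (le_max_left _ _), h (le_max_right _ _)⟩
  meet x0 _ _ hS D := Qc.cl.meet x0 hS D
  l := Qc.l
  l_mono _ _ h := h.l
  l_lt q z hz := (q.l_lt z hz).2
  l_inj q z hz z' hz' e := (q.l_inj z hz z' hz' e).2
  dense_l q _ _ h := q.dense_l h

variable {Q : Type 1} [Preorder Q] [Frame Q]

/-- the support lies below `ξ` -/
def PIn (p : Cc × Q) (ξ : O) : Prop := ∀ x ∈ Frame.supp p.2, x < ξ

/-- restriction -/
def pres (p : Cc × Q) (ξ : O) : Cc × Q := (p.1, Frame.res p.2 ξ)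

theorem PIn.mono {p : Cc × Q} {ξ ζ : O} (h : PIn p ξ) (h' : ξ ≤ ζ) : PIn p ζ :=
  fun x hx => (h x hx).trans_le h'

theorem pin_pres (p : Cc × Q) (ξ : O) : PIn (pres p ξ) ξ := Frame.supp_res _ _

theorem le_pres (p : Cc × Q) (ξ : O) : p ≤ pres p ξ := ⟨le_rfl, Frame.le_res _ _⟩

theorem pres_le {p q : Cc × Q} {ξ : O} (h : p ≤ q) (hq : PIn q ξ) : pres p ξ ≤ q :=
  ⟨h.1, Frame.res_le _ _ _ h.2 hq⟩

theorem pres_mono {p q : Cc × Q} (h : p ≤ q) (ξ : O) : pres p ξ ≤ pres q ξ :=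
  pres_le (h.trans (le_pres q ξ)) (pin_pres q ξ)

theorem pamalg {r q : Cc × Q} {ξ : O} (hr : PIn r ξ) (h : r ≤ pres q ξ) : ∃ s, s ≤ r ∧ s ≤ q :=
  let ⟨s, h1, h2⟩ := Frame.amalg r.2 q.2 ξ hr h.2
  ⟨(r.1, s), ⟨le_rfl, h1⟩, ⟨h.1, h2⟩⟩

theorem exists_pin (p : Cc × Q) : ∃ ξ, PIn p ξ :=
  have := (Frame.sm_supp p.2).small
  small_bound _

instance small_pin (ξ : O) : Small.{0} {p : Cc × Q | PIn p ξ} :=
  have := sm_Cc.small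
  have := Frame.small (Q := Q) ξ
  small_subset (s := (univ : Set Cc) ×ˢ {q : Q | ∀ x ∈ Frame.supp q, x < ξ})
    fun _ h => ⟨trivial, h⟩

theorem p_lb (g : ℕ → Cc × Q) (h : Antitone g) : ∃ r, ∀ n, r ≤ g n :=
  let ⟨a, ha⟩ := Cc.lb (fun n => (g n).1) fun _ _ h' => (h h').1
  let ⟨q, hq⟩ := Frame.lb (fun n => (g n).2) fun _ _ h' => (h h').2
  ⟨(a, q), fun n => ⟨ha n, hq n⟩⟩

theorem reflect {J : Type 1} (S : Set J) [Small.{0} S] (R : J → Cc × Q → O → Prop) (ξ0 : O) :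
    ∃ ξ, ξ0 ≤ ξ ∧ ∀ j ∈ S, ∀ p, (∃ r ≤ pres p ξ, ∃ η, R j r η) →
      ∃ r ≤ pres p ξ, PIn r ξ ∧ ∃ η < ξ, R j r η := by
  have h1 : ∀ z : J × (Cc × Q), ∃ b, (∃ r ≤ z.2, ∃ η, R z.1 r η) →
      ∃ r ≤ z.2, PIn r b ∧ ∃ η < b, R z.1 r η := fun z => by
    by_cases h : ∃ r ≤ z.2, ∃ η, R z.1 r η
    · obtain ⟨r, h1, η, h2⟩ := h
      obtain ⟨b, hb⟩ := exists_pin r
      exact ⟨max b (η + 1), fun _ => ⟨r, h1, hb.mono (le_max_left _ _), η,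
        lt_max_of_lt_right (Order.lt_add_one_iff.2 le_rfl), h2⟩⟩
    · exact ⟨0, fun h' => absurd h' h⟩
  choose b hb using h1
  choose g hg using fun ζ : O => small_bound (b '' S ×ˢ {p : Cc × Q | PIn p ζ})
  obtain ⟨ξ, h0, hξ⟩ := exists_closure g ξ0
  refine ⟨ξ, h0, fun j hj p h => ?_⟩
  obtain ⟨ζ, h1, h2⟩ := hξ _ (Frame.sm_supp (pres p ξ).2) (pin_pres p ξ)
  obtain ⟨r, a1, a2, η, a3, a4⟩ := hb (j, pres p ξ) h
  have := (hg ζ _ ⟨(j, pres p ξ), ⟨hj, h1⟩, rfl⟩).le.trans h2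
  exact ⟨r, a1, a2.mono this, η, a3.trans_le this, a4⟩

theorem sem_reflect {J : Type 1} (S : Set J) [Small.{0} S] {Φ : J → World (Cc × Q) → Prop}
    (hΦ : ∀ j, Measurable (Φ j)) (ξ0 : O) :
    ∃ ξ, ξ0 ≤ ξ ∧ ∀ j ∈ S, ∀ p, Sem p (Φ j) → Sem (pres p ξ) (Φ j) := by
  obtain ⟨ξ, h0, h⟩ := reflect S (fun j r _ => Sem r fun w => ¬ Φ j w) ξ0
  refine ⟨ξ, h0, fun j hj p hp => ?_⟩
  by_contra hc
  obtain ⟨r, a1, a2⟩ := exists_sem (hΦ j).not (p := pres p ξ) (by simpa using hc)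
  obtain ⟨r', b1, b2, -, -, b3⟩ := h j hj p ⟨r, a1, 0, a2⟩
  obtain ⟨s, c1, c2⟩ := pamalg b2 b1
  exact (hp.mono c2).not_not (b3.mono c1)

theorem easton {J : Type 1} {S : Set J} (hS : Sm S) (R : J → Cc × Q → Prop)
    (hR : ∀ j p q, q ≤ p → R j p → R j q) (q : Q) :
    ∃ q' ≤ q, ∀ j ∈ S, ∀ r : Cc × Q, r.2 ≤ q' → R j r → ∀ a, r.1 ≤ a → ∃ a' ≤ a, R j (a', q') := by
  obtain ⟨q', h1, h2⟩ := Frame.meet q _ _ (hS.prod sm_Cc)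
    (fun z y => (∃ r : Cc × Q, r.2 ≤ y ∧ R z.1 r ∧ r.1 ≤ z.2) → ∃ a' ≤ z.2, R z.1 (a', y))
    (fun z _ x _ => by
      by_cases h : ∃ r : Cc × Q, r.2 ≤ x ∧ R z.1 r ∧ r.1 ≤ z.2
      · obtain ⟨r, a1, a2, a3⟩ := h
        exact ⟨r.2, a1, fun _ => ⟨r.1, a3, a2⟩⟩
      · exact ⟨x, le_rfl, fun h' => absurd h' h⟩)
    fun z x y h H ⟨r, a1, a2⟩ =>
      let ⟨a', b1, b2⟩ := H ⟨r, a1.trans h, a2⟩
      ⟨a', b1, hR _ (a', x) (a', y) ⟨le_rfl, h⟩ b2⟩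
  exact ⟨q', h1, fun j hj r a1 a2 a a3 => h2 (j, a) ⟨hj, trivial⟩ ⟨r, a1, a2, a3⟩⟩

section le
variable {I : Type 1} {a : I → World (Cc × Q) → ZFSet.{0}} {Ψ : I → World (Cc × Q) → Prop}
  {S : Set I}

omit [Frame Q] in
theorem ev_le0 (ha : ∀ i, Named (a i)) (hΨ : ∀ i, Measurable (Ψ i)) (hS : S.Countable) :
    ∀ᶠ w in gen (Cc × Q), ∀ A : ZFSet.{0}, (∀ z, z ∈ A ↔ ∃ i, w.In i ∧ (i ∈ S ∧ Ψ i w) ∧ a i w = z) →
      CardLE w.M A (w.ord ω) := by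
  obtain ⟨h, hh⟩ := countable_iff_exists_injOn.1 hS
  filter_upwards [ev_cover ha (Ψ := fun i w => i ∈ S ∧ Ψ i w) (fun i => measurable_const.and (hΨ i))
    (R := fun i γ _ => (h i : O) = γ) (fun _ _ => measurable_const) ω,
    ev_fun fun i => (h i : O)] with w h1 h2 A hA
  exact h1 A hA (fun i b1 _ => ⟨_, h2 i b1, Ordinal.natCast_lt_omega0 _, rfl⟩)
    fun i j γ _ _ b1 b2 b3 b4 => hh b1.1 b2.1 (Nat.cast_injective (b3.trans b4.symm))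

omit [Frame Q] in
theorem ev_le1 (ha : ∀ i, Named (a i)) (hΨ : ∀ i, Measurable (Ψ i)) (hS : Sm S) :
    ∀ᶠ w in gen (Cc × Q), ∀ A : ZFSet.{0}, (∀ z, z ∈ A ↔ ∃ i, w.In i ∧ (i ∈ S ∧ Ψ i w) ∧ a i w = z) →
      CardLE w.M A (w.ord ω₁) := by
  obtain ⟨h, hh⟩ := hS
  filter_upwards [ev_cover ha (Ψ := fun i w => i ∈ S ∧ Ψ i w) (fun i => measurable_const.and (hΨ i))
    (R := fun i γ w => w.Frc fun p => (h i, γ) ∈ p.1.a)
    (fun _ _ => measurable_frc fun p q h h' => h.1 h') ω₁, ev_generic, ev_nonempty,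
    ev_all fun i => ev_dense_ex fun (p : Cc × Q) (γ : O) => (h i, γ) ∈ p.1.a]
    with w h1 h2 ⟨p0, h0⟩ h3 A hA
  refine h1 A hA (fun i b1 _ => ?_) fun i j γ _ _ b1 b2 ⟨p, b3, b4⟩ ⟨q, b5, b6⟩ => ?_
  · obtain ⟨r, c1, -, γ, c2, c3⟩ := h3 i b1 p0 h0 fun q _ =>
      let ⟨a', d1, d2⟩ := q.1.dense (h i); ⟨(a', q.2), ⟨d1, le_rfl⟩, d2⟩
    exact ⟨γ, c2, r.1.lt _ c3, r, c1, c3⟩
  · obtain ⟨r, -, c1, c2⟩ := h2.dir p b3 q b5
    exact hh b1.1 b2.1 ((r.1.inj _ (c1.1 b4) _ (c2.1 b6)).2 rfl)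

theorem ev_le2 (ha : ∀ i, Named (a i)) (hΨ : ∀ i, Measurable (Ψ i)) (S : Set I) [Small.{0} S] :
    ∀ᶠ w in gen (Cc × Q), ∀ A : ZFSet.{0}, (∀ z, z ∈ A ↔ ∃ i, w.In i ∧ (i ∈ S ∧ Ψ i w) ∧ a i w = z) →
      CardLE w.M A (w.ord kk) := by
  obtain ⟨h, b, hh, hb⟩ := small_inj S
  filter_upwards [ev_cover ha (Ψ := fun i w => i ∈ S ∧ Ψ i w) (fun i => measurable_const.and (hΨ i))
    (R := fun i γ w => w.Frc fun p => (b, h i, γ) ∈ Frame.l p.2)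
    (fun _ _ => measurable_frc fun p q h h' => Frame.l_mono _ _ h.2 h') kk, ev_generic, ev_nonempty,
    ev_all fun i => ev_dense_ex fun (p : Cc × Q) (γ : O) => (b, h i, γ) ∈ Frame.l p.2]
    with w h1 h2 ⟨p0, h0⟩ h3 A hA
  refine h1 A hA (fun i b1 b2 => ?_) fun i j γ _ _ b1 b2 ⟨p, b3, b4⟩ ⟨q, b5, b6⟩ => ?_
  · obtain ⟨r, c1, -, γ, c2, c3⟩ := h3 i b1 p0 h0 fun q _ =>
      let ⟨a', d1, d2⟩ := Frame.dense_l q.2 b (h i) (hb i b2.1); ⟨(q.1, a'), ⟨le_rfl, d1⟩, d2⟩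
    exact ⟨γ, c2, Frame.l_lt _ _ c3, r, c1, c3⟩
  · obtain ⟨r, -, c1, c2⟩ := h2.dir p b3 q b5
    exact hh b1.1 b2.1
      (Frame.l_inj r.2 _ (Frame.l_mono _ _ c1.2 b4) _ (Frame.l_mono _ _ c2.2 b6) rfl rfl)

end le

theorem mem_ord' {P : Type 1} (w : World P) (c : O) (z : ZFSet.{0}) :
    z ∈ w.ord c ↔ ∃ i, w.In i ∧ (i ∈ Iio c ∧ True) ∧ w.ord i = z := by
  simp [w.mem_ord]

theorem ev_succ1 : ∀ᶠ w in gen (Cc × Q), SuccCard w.M ZFSet.omega (w.ord ω₁) := by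
  have h1 : ∀ᶠ w in gen (Cc × Q), ¬ CardLE w.M (w.ord ω₁) (w.ord ω) := by
    refine ev_not_le (named_ord _) (· < ω₁) (fun w η h h' => w.ord_mem h h') ω
      fun p V hV ht hi => ?_
    obtain ⟨q, hq, h⟩ := meet_countable p_lb p (countable_Iio omega0_lt_omega_one)
      (fun γ q => (∃ r ≤ q, ∃ η < ω₁, V r η γ) → ∃ η < ω₁, V q η γ)
      (fun γ _ x _ => by
        by_cases h : ∃ r ≤ x, ∃ η < ω₁, V r η γ
        · obtain ⟨r, a1, a2⟩ := h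
          exact ⟨r, a1, fun _ => a2⟩
        · exact ⟨x, le_rfl, fun h' => absurd h' h⟩)
      fun γ x y h H ⟨r, a1, a2⟩ =>
        let ⟨η, b1, b2⟩ := H ⟨r, a1.trans h, a2⟩; ⟨η, b1, hV _ _ _ _ h b2⟩
    obtain ⟨b, hb, hb'⟩ := countable_bound
      (s := ⋃ γ ∈ Iio (ω : O), {η | η < ω₁ ∧ V q η γ})
      ((countable_Iio omega0_lt_omega_one).biUnion fun γ _ => Subsingleton.countable
        fun η h η' h' => hi q hq _ _ _ h.2 h'.2)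
      fun η h => let ⟨_, _, h⟩ := mem_iUnion₂.1 h; h.1
    obtain ⟨r, a1, γ, a2, a3⟩ := ht b hb q hq
    obtain ⟨η, b1, b2⟩ := h γ a2 ⟨r, a1, b, hb, a3⟩
    exact (hb' η (mem_iUnion₂.2 ⟨γ, a2, b1, b2⟩)).ne
      (hi r (a1.trans hq) _ _ _ (hV _ _ _ _ a1 b2) a3)
  filter_upwards [h1, ev_ord_omega, (named_ord ω₁).ev_mem, ev_const (ω : O),
    ev_all fun c : O => ev_dimp fun h : c < ω₁ => ev_le0 (Q := Q) named_ord
      (Ψ := fun _ _ => True) (fun _ => measurable_const) (countable_Iio h)] with w a1 a2 a3 a4 a5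
  rw [← a2]
  refine ⟨a3, w.isOrdinal_ord _, w.ord_mem a4 omega0_lt_omega_one, a1, fun c hc => ?_⟩
  obtain ⟨c, b1, b2, rfl⟩ := w.mem_ord.1 hc
  exact a5 c b1 b2 _ (mem_ord' w c)

theorem ev_succ2 : ∀ᶠ w in gen (Cc × Q), SuccCard w.M (w.ord ω₁) (w.ord kk) := by
  have h1 : ∀ᶠ w in gen (Cc × Q), ¬ CardLE w.M (w.ord kk) (w.ord ω₁) := by
    refine ev_not_le (named_ord _) (· < kk) (fun w η h h' => w.ord_mem h h') ω₁
      fun p V hV ht hi => ?_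
    obtain ⟨q, hq, h⟩ := easton (sm_Iio omega1_lt_kk) (fun γ r => ∃ η < kk, V r η γ)
      (fun γ x y h ⟨η, a1, a2⟩ => ⟨η, a1, hV _ _ _ _ h a2⟩) p.2
    obtain ⟨b, hb, hb'⟩ := Sm.bound
      (s := ⋃ z ∈ Iio (ω₁ : O) ×ˢ Iic p.1, {η | η < kk ∧ V (z.2, q) η z.1})
      (((sm_Iio omega1_lt_kk).prod (sm_Cc.mono (subset_univ _))).biUnion fun z hz =>
        .of_countable (Subsingleton.countable fun η h η' h' => hi (z.2, q) ⟨hz.2, hq⟩ _ _ _ h.2 h'.2))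
      fun η h => let ⟨_, _, h⟩ := mem_iUnion₂.1 h; h.1
    obtain ⟨r, a1, γ, a2, a3⟩ := ht b hb (p.1, q) ⟨le_rfl, hq⟩
    obtain ⟨a', b0, η, b1, b2⟩ := h γ a2 r a1.2 ⟨b, hb, a3⟩ r.1 le_rfl
    exact (hb' η (mem_iUnion₂.2 ⟨(γ, a'), ⟨a2, b0.trans a1.1⟩, b1, b2⟩)).ne
      (hi (a', r.2) ⟨b0.trans a1.1, a1.2.trans hq⟩ _ _ _ (hV (a', q) _ _ _ ⟨le_rfl, a1.2⟩ b2)
        (hV r _ _ _ ⟨b0, le_rfl⟩ a3))
  filter_upwards [h1, (named_ord kk).ev_mem, ev_const (ω₁ : O),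
    ev_all fun c : O => ev_dimp fun h : c < kk => ev_le1 (Q := Q) named_ord
      (Ψ := fun _ _ => True) (fun _ => measurable_const) (sm_Iio h)] with w a1 a3 a4 a5
  refine ⟨a3, w.isOrdinal_ord _, w.ord_mem a4 omega1_lt_kk, a1, fun c hc => ?_⟩
  obtain ⟨c, b1, b2, rfl⟩ := w.mem_ord.1 hc
  exact a5 c b1 b2 _ (mem_ord' w c)

theorem ev_succ3 : ∀ᶠ w in gen (Cc × Q), SuccCard w.M (w.ord kk) w.ordTop := by
  have h1 : ∀ᶠ w in gen (Cc × Q), ¬ CardLE w.M w.ordTop (w.ord kk) := by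
    refine ev_not_le named_ordTop (fun _ => True) (fun w η h _ => w.mem_ordTop.2 ⟨η, h, rfl⟩) kk
      fun p V hV ht hi => ?_
    obtain ⟨ξ0, h0⟩ := exists_pin p
    obtain ⟨ξ, a1, h⟩ := reflect (Iio kk) (fun γ r η => V r η γ) ξ0
    obtain ⟨r, a2, γ, a3, a4⟩ := ht ξ trivial p le_rfl
    obtain ⟨r', b1, b2, η, b3, b4⟩ := h γ a3 r ⟨r, le_pres r ξ, ξ, a4⟩
    obtain ⟨s, c1, c2⟩ := pamalg b2 b1
    exact b3.ne (hi s (c2.trans a2) _ _ _ (hV _ _ _ _ c1 b4) (hV _ _ _ _ c2 a4))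
  filter_upwards [h1, named_ordTop.ev_mem, ev_const kk,
    ev_all fun c : O => ev_le2 (Q := Q) named_ord
      (Ψ := fun _ _ => True) (fun _ => measurable_const) (Iio c)] with w a1 a3 a4 a5
  refine ⟨a3, w.isOrdinal_ordTop, w.mem_ordTop.2 ⟨_, a4, rfl⟩, a1, fun c hc => ?_⟩
  obtain ⟨c, b1, rfl⟩ := w.mem_ordTop.1 hc
  exact a5 c b1 _ (mem_ord' w c)

/-- a ground model set of ordinals -/
noncomputable def World.chk {P : Type 1} (w : World P) (x : Set O) : ZFSet.{0} :=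
  w.coll (· ∈ x) w.ord

theorem named_chk {P : Type 1} [Preorder P] (x : Set O) : Named fun w : World P => w.chk x :=
  named_coll (Φ := fun i _ => i ∈ x) named_ord fun _ => measurable_const

theorem sm_reals : Sm (𝒫 Iio (ω : O)) := by
  refine ⟨fun x => {n | (n : O) ∈ x}, fun x hx y hy e => Set.ext fun η => ⟨fun h => ?_, fun h => ?_⟩⟩
  · obtain ⟨n, rfl⟩ := Ordinal.lt_omega0.1 (hx h)
    exact (Set.ext_iff.1 e n).1 h
  · obtain ⟨n, rfl⟩ := Ordinal.lt_omega0.1 (hy h)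
    exact (Set.ext_iff.1 e n).2 h

theorem ev_CH : ∀ᶠ w in gen (Cc × Q), CardLE w.M (power w.M ZFSet.omega) (w.ord ω₁) := by
  have key : ∀ᶠ w in gen (Cc × Q), ∀ y ∈ w.M, ∃ x : Set O, w.In x ∧ x ⊆ Iio ω ∧
      ∀ η, w.In η → η < ω → (η ∈ x ↔ w.ord η ∈ y) := by
    refine ev_all_named fun y hy => ev_of_dense fun p => ?_
    obtain ⟨q, hq, h⟩ := meet_countable p_lb p (countable_Iio omega0_lt_omega_one)
      (fun η q => (Sem q fun w => w.ord η ∈ y w) ∨ Sem q fun w => w.ord η ∉ y w)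
      (fun η _ x _ => ((named_ord η).measurable_mem hy).decidesK x)
      fun η x y h H => H.imp (fun a => a.mono h) fun a => a.mono h
    refine ⟨q, hq, (sem_all (Φ := fun (η : O) w => η < ω →
      ((η < ω ∧ Sem q fun w => w.ord η ∈ y w) ↔ w.ord η ∈ y w)) fun η => ?_).imp ?_⟩
    · by_cases hη : η < ω
      · rcases h η hη with h | h
        · exact h.imp' fun w a _ => ⟨fun _ => a, fun _ => ⟨hη, h⟩⟩
        · exact h.imp' fun w a _ => ⟨fun b => (b.2.not_not h).elim, fun b => (a b).elim⟩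
      · exact sem_of_ev (Eventually.of_forall fun w a => absurd a hη) q
    · filter_upwards [ev_const {η : O | η < ω ∧ Sem q fun w => w.ord η ∈ y w}] with w a1 a2
      exact ⟨_, a1, fun η h => h.1, a2⟩
  filter_upwards [key, ev_ord_omega, ev_all fun x => (named_chk (P := Cc × Q) x).ev_mem,
    ev_le1 (Q := Q) named_chk (Ψ := fun _ _ => True) (fun _ => measurable_const) sm_reals]
    with w a1 a2 a3 a4
  refine a4 _ fun z => ?_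
  rw [power, ZFSet.mem_sep, ZFSet.mem_powerset, ← a2]
  constructor
  · rintro ⟨b1, b2⟩
    obtain ⟨x, c1, c2, c3⟩ := a1 z b2
    refine ⟨x, c1, ⟨c2, trivial⟩, ZFSet.ext fun u => ?_⟩
    rw [World.chk, w.mem_coll]
    constructor
    · rintro ⟨η, d1, d2, rfl⟩
      exact (c3 η d1 (c2 d2)).1 d2
    · intro hu
      obtain ⟨η, d1, d2, rfl⟩ := w.mem_ord.1 (b1 hu)
      exact ⟨η, d1, (c3 η d1 d2).2 hu, rfl⟩
  · rintro ⟨x, c1, ⟨c2, -⟩, rfl⟩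
    refine ⟨fun u hu => ?_, a3 x c1⟩
    obtain ⟨η, d1, d2, rfl⟩ := w.mem_coll.1 hu
    exact w.ord_mem d1 (c2 d2)

/-- the relation coded by a set of triples -/
def World.Mem {P : Type 1} [Preorder P] (w : World P) (E : Set (P × O × O)) (η γ : O) : Prop :=
  w.Frc fun r => ∃ p, (p, η, γ) ∈ E ∧ r ≤ p

theorem measurable_Mem {P : Type 1} [Preorder P] (E : Set (P × O × O)) (η γ : O) :
    Measurable fun w : World P => w.Mem E η γ :=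
  measurable_frc fun _ _ h ⟨p, h1, h2⟩ => ⟨p, h1, h.trans h2⟩

variable (Q) in
/-- codes with support below `ξ` -/
def Codes (ξ : O) : Set (Set ((Cc × Q) × O × O)) := 𝒫 ({p | PIn p ξ} ×ˢ Iio kk ×ˢ Iio kk)

instance (ξ : O) : Small.{0} (Codes Q ξ) := by unfold Codes; infer_instance

theorem World.Mem.lt {w : World (Cc × Q)} {E : Set ((Cc × Q) × O × O)} {ξ η γ : O}
    (hE : E ∈ Codes Q ξ) (h : w.Mem E η γ) : η < kk ∧ γ < kk :=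
  let ⟨_, _, _, h, _⟩ := h; (hE h).2

/-- initial segments of functions have codes with empty support -/
theorem ev_short {x : World (Cc × Q) → ZFSet.{0}} (hx : Named x) {β : O} (hβ : β < kk) :
    ∀ᶠ w in gen (Cc × Q), (∀ η, w.In η → η < β → ∃ γ, w.In γ ∧ γ < kk ∧ w.pr η γ ∈ x w) →
      ∃ E, w.In E ∧ E ∈ Codes Q 0 ∧ (∀ η γ, w.In η → w.In γ → w.Mem E η γ → w.pr η γ ∈ x w) ∧
        ∀ η, w.In η → η < β → ∃ γ, w.In γ ∧ w.Mem E η γ := by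
  have hm : ∀ η, Measurable fun w : World (Cc × Q) => ∃ γ, w.In γ ∧ γ < kk ∧ w.pr η γ ∈ x w :=
    fun η => measurable_ex_in fun γ => measurable_const.and ((named_pr η γ).measurable_mem hx)
  refine ev_of_dense fun p => ?_
  obtain ⟨q, hq, h⟩ := easton (sm_Iio hβ) (fun η r => ∃ γ < kk, Sem r fun w => w.pr η γ ∈ x w)
    (fun η p q h ⟨γ, a1, a2⟩ => ⟨γ, a1, a2.mono h⟩) p.2
  let E : Set ((Cc × Q) × O × O) := {z | z.1.2 = Frame.top ∧ z.2.1 < kk ∧ z.2.2 < kk ∧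
    Sem (z.1.1, q) fun w => w.pr z.2.1 z.2.2 ∈ x w}
  refine ⟨(p.1, q), ⟨le_rfl, hq⟩, ?_⟩
  filter_upwards [ev_generic, ev_const E,
    ev_all fun η : O => ev_all fun γ : O => ev_sem fun w => w.pr η γ ∈ x w,
    ev_all fun η : O => ev_forced (hm η),
    ev_all fun η : O => ev_dense_ex fun (r : Cc × Q) (γ : O) => ((r.1, Frame.top), η, γ) ∈ E]
    with w a1 a2 a3 a4 a5 a6 a7
  refine ⟨E, a2, fun z hz => ⟨fun u hu => ?_, hz.2.1, hz.2.2.1⟩,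
    fun η γ b1 b2 ⟨r, b3, s, b4, b5⟩ => ?_, fun η b1 b2 => ?_⟩
  · rw [hz.1, Frame.supp_top] at hu
    exact hu.elim
  · obtain ⟨u, c1, c2, c3⟩ := a1.has_and a6 (w.has_of_mem b3)
    exact a3 η b1 γ b2 (s.1, q) ⟨u, c1, (c3.trans b5).1, c2.2⟩ b4.2.2.2
  · obtain ⟨r, c1, c2⟩ := a4 η b1 (a7 η b1 b2)
    obtain ⟨u, c3, c4, c5⟩ := a1.has_and a6 (w.has_of_mem c1)
    obtain ⟨v, d1, -, γ, d2, d3⟩ := a5 η b1 u c3 fun v hv => by
      obtain ⟨v', e1, γ, e2⟩ := Sem.ex_in (Φ := fun (γ : O) w => γ < kk ∧ w.pr η γ ∈ x w)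
        (fun γ => measurable_const.and ((named_pr η γ).measurable_mem hx)) (c2.mono (hv.trans c5))
      obtain ⟨w', -, e3, -⟩ := e2.exists (ev_const η)
      obtain ⟨a', e4, γ', e5, e6⟩ := h η b2 v' (e1.trans (hv.trans c4)).2
        ⟨γ, e3.1, e2.imp' fun _ h => h.2⟩ v.1 e1.1
      exact ⟨(a', v.2), ⟨e4, le_rfl⟩, γ', rfl, b2.trans hβ, e5, e6⟩
    exact ⟨γ, d2, v, d1, _, d3, le_rfl, Frame.le_top _⟩

end Pool.Agent.P.MP_a5be26_lc
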