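import Pool.Agent.Lib.Helper87.CodeDefs

namespace Pool.Agent.P.MP_a5be26_lc

open Pool.Agent.Lib.Helper87 ZFSet

/-- in `M`, the ordinal `b` is the least cardinal above `a` -/
def SuccCard (M : Set ZFSet.{0}) (a b : ZFSet.{0}) : Prop :=
  b ∈ M ∧ b.IsOrdinal ∧ a ∈ b ∧ ¬ CardLE M b a ∧ ∀ c ∈ b, CardLE M c a

/-- the subsets of `a` that lie in `M` -/
noncomputable def power (M : Set ZFSet.{0}) (a : ZFSet.{0}) : ZFSet.{0} :=
  ZFSet.sep (fun x => x ∈ M) (powerset a)

/-- the functions `k → k` that lie in `M` -/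
noncomputable def baire (M : Set ZFSet.{0}) (k : ZFSet.{0}) : ZFSet.{0} :=
  ZFSet.sep (fun x => x ∈ M) (funs k k)

/-- `T` is a set of functions `α → k`, `α ∈ k`, closed under initial segments -/
def Subtree (k T : ZFSet.{0}) : Prop :=
  (∀ t ∈ T, ∃ α ∈ k, IsFunc α k t) ∧ ∀ t ∈ T, ∀ α ∈ k, ∀ s, IsFunc α k s → s ⊆ t → s ∈ T

/-- level `α` of `T` -/
noncomputable def level (k T α : ZFSet.{0}) : ZFSet.{0} := ZFSet.sep (fun t => IsFunc α k t) T

/-- the functions `k → k` in `M` all of whose proper initial segments lie in `T` -/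
noncomputable def branches (M : Set ZFSet.{0}) (k T : ZFSet.{0}) : ZFSet.{0} :=
  ZFSet.sep (fun x => ∀ α ∈ k, ∀ s, IsFunc α k s → s ⊆ x → s ∈ T) (baire M k)

/-- the functions `x` and `y` agree on `α` -/
def Agree (α x y : ZFSet.{0}) : Prop := ∀ a ∈ α, ∀ b, pair a b ∈ x ↔ pair a b ∈ y

/-- `f` is continuous for the bounded topologies -/
def Cont (k f : ZFSet.{0}) : Prop :=
  ∀ x y, pair x y ∈ f → ∀ α ∈ k, ∃ β ∈ k, ∀ x' y', pair x' y' ∈ f → Agree β x x' → Agree α y y'

/-- `T ∈ M` is a subtree all of whose levels have size at most `j` in `M` -/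
def Thin (M : Set ZFSet.{0}) (j k T : ZFSet.{0}) : Prop :=
  T ∈ M ∧ Subtree k T ∧ ∀ α ∈ k, CardLE M (level k T α) j

/-- a thin subtree with at least `l` branches in `M` -/
def Kurepa (M : Set ZFSet.{0}) (j k l T : ZFSet.{0}) : Prop :=
  Thin M j k T ∧ CardLE M l (branches M k T)

/-- the range of a function `f` with values in `B` -/
noncomputable def rng (B f : ZFSet.{0}) : ZFSet.{0} := ZFSet.sep (fun y => ∃ x, pair x y ∈ f) B

end Pool.Agent.P.MP_a5be26_lc
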