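import Pool.Agent.P.MP_a5be26_lc.Card

/-!
The diagonal name. A recursion of length the first uncountable ordinal is carried out by the
generic filter of a countably closed forcing.
-/

open Filter Set Function Cardinal Ordinal

namespace Pool.Agent.P.MP_a5be26_lc

open Pool.Agent.Lib.Helper87

variable {P : Type 1} [Preorder P]

theorem generic_rec (hP : ∀ g : ℕ → P, Antitone g → ∃ r, ∀ n, r ≤ g n) (b1 : P)
    {Y Dt : Type 1} [Preorder Y] (R : Set Y) (y0 : Y) (h0 : y0 ∈ R)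
    (hR : ∀ g : ℕ → Y, (∀ n, g n ∈ R) → (∀ i j, ∃ m, g m ≤ g i ∧ g m ≤ g j) →
      ∃ y ∈ R, ∀ n, y ≤ g n)
    (π : Dt → Y) (St : O → P → Dt → Prop) (hSt : ∀ β b b' d, b' ≤ b → St β b d → St β b' d)
    (step : ∀ β < ω₁, ∀ b ≤ b1, ∀ y ∈ R, ∃ b' ≤ b, ∃ d, π d ∈ R ∧ π d ≤ y ∧ St β b' d) :
    ∃ F : P → O → Dt → Prop, (∀ b b' β d, b' ≤ b → F b β d → F b' β d) ∧
      (∀ b β d, F b β d → St β b d ∧ π d ∈ R) ∧
      (∀ β < ω₁, ∀ b ≤ b1, ∃ b' ≤ b, ∃ d, F b' β d) ∧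
      ∀ b β β' d d', β' < ω₁ → β ≤ β' → F b β d → F b β' d' → π d' ≤ π d := by
  classical
  have : Nonempty Y := ⟨y0⟩
  let cur : O → (O → Dt) → Y := fun β h =>
    Classical.epsilon fun y => y ∈ R ∧ ∀ β' < β, y ≤ π (h β')
  let T : O → (O → Dt) → P → Dt → Prop := fun β h b d => π d ∈ R ∧ π d ≤ cur β h ∧ St β b d
  let L : O → (O → Dt) → P → Dt → Prop := fun β h b d =>
    T β h b d ∧ ∀ d', WellOrderingRel d' d → ∀ b' ≤ b, ¬ T β h b' d'
  let G : P → O → (O → Dt) → Prop := fun b β h => ∀ β' ≤ β, L β' h b (h β')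
  have hT : ∀ β h b b' d, b' ≤ b → T β h b d → T β h b' d := fun β h b b' d a ⟨a1, a2, a3⟩ =>
    ⟨a1, a2, hSt _ _ _ _ a a3⟩
  have hL : ∀ β h b b' d, b' ≤ b → L β h b d → L β h b' d := fun β h b b' d a ⟨a1, a2⟩ =>
    ⟨hT _ _ _ _ _ a a1, fun d' a3 b'' a4 => a2 d' a3 b'' (a4.trans a)⟩
  have hcongr : ∀ β h h', (∀ β' < β, h β' = h' β') → L β h = L β h' := fun β h h' e => by
    have : cur β h = cur β h' := by
      refine congrArg Classical.epsilon (funext fun y => propext (and_congr_right fun _ => ?_))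
      exact forall₂_congr fun β' a => by rw [e β' a]
    simp only [L, T, this]
  have huniq : ∀ b β β' h h', G b β h → G b β' h' → ∀ γ, γ ≤ β → γ ≤ β' → h γ = h' γ := by
    intro b β β' h h' a1 a2 γ
    induction γ using WellFoundedLT.induction with
    | ind γ ih =>
    intro a3 a4
    have b1 := a1 γ a3
    have b2 := a2 γ a4
    rw [← hcongr γ h h' fun β' a => ih β' a (a.le.trans a3) (a.le.trans a4)] at b2
    rcases trichotomous_of WellOrderingRel (h γ) (h' γ) with c | c | c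
    · exact absurd b1.1 (b2.2 _ c b le_rfl)
    · exact c
    · exact absurd b2.1 (b1.2 _ c b le_rfl)
  have hcur : ∀ b h β, β < ω₁ → (∀ β' < β, L β' h b (h β')) →
      cur β h ∈ R ∧ ∀ β' < β, cur β h ≤ π (h β') := by
    intro b h β
    induction β using WellFoundedLT.induction with
    | ind β ih =>
    intro a1 a2
    refine Classical.epsilon_spec (p := fun y => y ∈ R ∧ ∀ β' < β, y ≤ π (h β')) ?_
    rcases eq_zero_or_pos β with rfl | hpos
    · exact ⟨y0, h0, by simp⟩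
    obtain ⟨u, hu⟩ := (countable_Iio a1).exists_eq_range ⟨0, hpos⟩
    have hu' : ∀ n, u n < β := fun n => hu.symm.subset (mem_range_self n)
    have hm : ∀ x < β, ∀ y < β, x ≤ y → π (h y) ≤ π (h x) := fun x hx y hy hxy => by
      rcases hxy.eq_or_lt with rfl | hxy
      · exact le_rfl
      · exact (a2 y hy).1.2.1.trans
          ((ih y hy (hy.trans a1) fun z hz => a2 z (hz.trans hy)).2 x hxy)
    obtain ⟨y, c1, c2⟩ := hR (fun n => π (h (u n))) (fun n => (a2 _ (hu' n)).1.1) fun i j => by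
      rcases le_total (u i) (u j) with c | c
      exacts [⟨j, hm _ (hu' i) _ (hu' j) c, le_rfl⟩, ⟨i, le_rfl, hm _ (hu' j) _ (hu' i) c⟩]
    refine ⟨y, c1, fun β' a3 => ?_⟩
    obtain ⟨n, rfl⟩ := hu.subset a3
    exact c2 n
  obtain ⟨-, -, d0, -⟩ := step 0 (omega0_pos.trans omega0_lt_omega_one) b1 le_rfl y0 h0
  have hex : ∀ β < ω₁, ∀ b ≤ b1, ∃ b' ≤ b, ∃ h, G b' β h := by
    intro β
    induction β using WellFoundedLT.induction with
    | ind β ih =>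
    intro a1 b a2
    obtain ⟨b', c1, c2⟩ := meet_countable hP b (countable_Iio a1) (fun β' x => ∃ h, G x β' h)
      (fun β' c x hx => ih β' c (lt_trans c a1) x (hx.trans a2))
      fun β' x y c ⟨h, hh⟩ => ⟨h, fun z hz => hL _ _ _ _ _ c (hh z hz)⟩
    have : Nonempty (O → Dt) := ⟨fun _ => d0⟩
    choose! H hH using c2
    have c3 : ∀ β' < β, L β' (fun z => H z z) b' (H β' β') := fun β' c => by
      rw [hcongr β' (fun z => H z z) (H β') fun z hz =>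
        huniq b' z β' _ _ (hH z (hz.trans c)) (hH β' c) z le_rfl hz.le]
      exact hH β' c β' le_rfl
    obtain ⟨b'', c4, d, c5⟩ := step β a1 b' (c1.trans a2) _ (hcur b' _ β a1 c3).1
    obtain ⟨d, ⟨b'', c4, c5⟩, c6⟩ := (IsWellFounded.wf (r := WellOrderingRel)).has_min
      {d | ∃ b'' ≤ b', T β (fun z => H z z) b'' d} ⟨d, b'', c4, c5⟩
    refine ⟨b'', c4.trans c1, update (fun z => H z z) β d, fun z hz => ?_⟩
    rw [hcongr z _ (fun z => H z z) fun u hu => update_of_ne (hu.trans_le hz).ne _ _]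
    rcases hz.eq_or_lt with rfl | hz
    · rw [update_self]
      exact ⟨c5, fun d' e1 x e2 e3 => c6 d' ⟨x, e2.trans c4, e3⟩ e1⟩
    · rw [update_of_ne hz.ne]
      exact hL _ _ _ _ _ c4 (c3 z hz)
  refine ⟨fun b β d => ∃ h, G b β h ∧ h β = d,
    fun b b' β d a ⟨h, a1, a2⟩ => ⟨h, fun z hz => hL _ _ _ _ _ a (a1 z hz), a2⟩, ?_,
    fun β a1 b a2 => ?_, ?_⟩
  · rintro b β _ ⟨h, a1, rfl⟩
    exact ⟨(a1 β le_rfl).1.2.2, (a1 β le_rfl).1.1⟩
  · obtain ⟨b', c1, h, c2⟩ := hex β a1 b a2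
    exact ⟨b', c1, _, h, c2, rfl⟩
  · rintro b β β' _ _ a1 a2 ⟨h, a3, rfl⟩ ⟨h', a4, rfl⟩
    rw [huniq b β β' h h' a3 a4 β le_rfl a2]
    rcases a2.eq_or_lt with rfl | a2
    · exact le_rfl
    · exact (a4 β' le_rfl).1.2.1.trans ((hcur b h' β' a1 fun z hz => a4 z hz.le).2 β a2)

/-- the relation coded by `E` is contained in `x` -/
def World.Sub (w : World P) (E : Set (P × O × O)) (x : ZFSet.{0}) : Prop :=
  ∀ η, w.In η → ∀ γ, w.In γ → w.Mem E η γ → w.pr η γ ∈ x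

/-- `f` sends the extensions of the relation coded by `E` to extensions of the pair `(η, γ)` -/
def World.Phi (w : World P) (f : ZFSet.{0}) (E : Set (P × O × O)) (η γ : O) : Prop :=
  ∀ x y, ZFSet.pair x y ∈ f → w.Sub E x → w.pr η γ ∈ y

/-- the coded relations are compatible -/
def World.Compat (w : World P) (E E' : Set (P × O × O)) : Prop :=
  ∀ η : O, w.In η → ∀ γ : O, w.In γ → ∀ γ' : O, w.In γ' → w.Mem E η γ → w.Mem E' η γ' → γ = γ'

theorem measurable_Sub (E : Set (P × O × O)) {x : World P → ZFSet.{0}} (hx : Named x) :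
    Measurable fun w : World P => w.Sub E (x w) :=
  measurable_all_in fun η => measurable_all_in fun γ =>
    (measurable_Mem E η γ).imp ((named_pr η γ).measurable_mem hx)

theorem measurable_Phi {f : World P → ZFSet.{0}} (hf : Named f) (E : Set (P × O × O)) (η γ : O) :
    Measurable fun w : World P => w.Phi (f w) E η γ :=
  measurable_allPair hf (Φ := fun x y w => w.Sub E x → w.pr η γ ∈ y) fun _ hx _ hy =>
    (measurable_Sub E hx).imp ((named_pr η γ).measurable_mem hy)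

theorem measurable_Compat (E E' : Set (P × O × O)) : Measurable fun w : World P => w.Compat E E' :=
  measurable_all_in fun η => measurable_all_in fun γ => measurable_all_in fun γ' =>
    (measurable_Mem E η γ).imp ((measurable_Mem E' η γ').imp measurable_const)

/-- `e` numbers the restrictions to `δ` of the values of the total function `f` by countable
ordinals -/
def World.Num (w : World P) (f e : ZFSet.{0}) (δ : O) : Prop :=
  (∀ v c, ZFSet.pair v c ∈ e → ∀ v' c', ZFSet.pair v' c' ∈ e → c = c' →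
    ∀ η : O, w.In η → ∀ γ : O, w.In γ → ∀ γ' : O, w.In γ' → w.pr η γ ∈ v → w.pr η γ' ∈ v' → γ = γ') ∧
  ∀ x ∈ w.M, ZFSet.IsFunc (w.ord kk) (w.ord kk) x → ∃ y, ZFSet.pair x y ∈ f ∧
    ∃ v ∈ w.M, ∃ β : O, w.In β ∧ β < ω₁ ∧ ZFSet.pair v (w.ord β) ∈ e ∧
      ∀ η : O, w.In η → ∀ γ : O, w.In γ → η < δ → w.pr η γ ∈ y → w.pr η γ ∈ v

theorem measurable_Num {f e : World P → ZFSet.{0}} (hf : Named f) (he : Named e) (δ : O) :
    Measurable fun w : World P => w.Num (f w) (e w) δ := by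
  refine Measurable.and (measurable_allPair he (Φ := fun v c w => ∀ v' c',
    ZFSet.pair v' c' ∈ e w → c = c' → ∀ η : O, w.In η → ∀ γ : O, w.In γ → ∀ γ' : O, w.In γ' →
      w.pr η γ ∈ v → w.pr η γ' ∈ v' → γ = γ') fun v hv c hc => measurable_allPair he
    (Φ := fun v' c' w => c w = c' → ∀ η : O, w.In η → ∀ γ : O, w.In γ → ∀ γ' : O, w.In γ' →
      w.pr η γ ∈ v w → w.pr η γ' ∈ v' → γ = γ') fun v' hv' c' hc' =>
      (hc.measurable_eq hc').imp (measurable_all_in fun η => measurable_all_in fun γ =>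
        measurable_all_in fun γ' => ((named_pr η γ).measurable_mem hv).imp
          (((named_pr η γ').measurable_mem hv').imp measurable_const))) ?_
  exact measurable_allM (Φ := fun x w => ZFSet.IsFunc (w.ord kk) (w.ord kk) x → ∃ y,
    ZFSet.pair x y ∈ f w ∧ ∃ v ∈ w.M, ∃ β : O, w.In β ∧ β < ω₁ ∧ ZFSet.pair v (w.ord β) ∈ e w ∧
      ∀ η : O, w.In η → ∀ γ : O, w.In γ → η < δ → w.pr η γ ∈ y → w.pr η γ ∈ v) fun x hx =>
    (measurable_isFunc (named_ord _) (named_ord _) hx).imp (measurable_exSnd hf hx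
      (Φ := fun y w => ∃ v ∈ w.M, ∃ β : O, w.In β ∧ β < ω₁ ∧ ZFSet.pair v (w.ord β) ∈ e w ∧
        ∀ η : O, w.In η → ∀ γ : O, w.In γ → η < δ → w.pr η γ ∈ y → w.pr η γ ∈ v) fun y hy =>
      measurable_exM (Φ := fun v w => ∃ β : O, w.In β ∧ β < ω₁ ∧ ZFSet.pair v (w.ord β) ∈ e w ∧
        ∀ η : O, w.In η → ∀ γ : O, w.In γ → η < δ → w.pr η γ ∈ y w → w.pr η γ ∈ v) fun v hv =>
        measurable_ex_in fun β => measurable_const.and
          (((hv.pair (named_ord β)).measurable_mem he).and (measurable_all_in fun η =>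
            measurable_all_in fun γ => measurable_const.imp
              (((named_pr η γ).measurable_mem hy).imp ((named_pr η γ).measurable_mem hv)))))

theorem diag (hP : ∀ g : ℕ → P, Antitone g → ∃ r, ∀ n, r ≤ g n) {f e : World P → ZFSet.{0}}
    (he : Named e) (b1 : P) (δ : O) (H : Sem b1 fun w => w.Num (f w) (e w) δ)
    {Y : Type 1} [Preorder Y] (R : Set Y) (y0 : Y) (h0 : y0 ∈ R)
    (hR : ∀ g : ℕ → Y, (∀ n, g n ∈ R) → (∀ i j, ∃ m, g m ≤ g i ∧ g m ≤ g j) →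
      ∃ y ∈ R, ∀ n, y ≤ g n)
    (Side : P → Y → Set (P × O × O) → Prop)
    (hS : ∀ b b' y E, b' ≤ b → Side b y E → Side b' y E)
    (hB : ∀ b y E, Side b y E → ∀ z ∈ E, z.2.1 < kk ∧ z.2.2 < kk)
    (hC : ∀ b ≤ b1, ∀ y y' E E', y' ∈ R → y' ≤ y → Side b y E → Side b y' E' →
      Sem b fun w => w.Compat E E')
    (step : ∀ b ≤ b1, ∀ y ∈ R, ∃ b' ≤ b, ∃ η < δ, ∃ γ : Bool → O, γ false ≠ γ true ∧
      ∀ i, ∃ y' ∈ R, y' ≤ y ∧ ∃ E, Side b' y' E ∧ Sem b' fun w => w.Phi (f w) E η (γ i)) :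
    False := by
  let Av : O → O → O → World P → Prop := fun β η γ w =>
    ∀ v c, ZFSet.pair v c ∈ e w → c = w.ord β → w.pr η γ ∉ v
  have hAv : ∀ β η γ, Measurable (Av β η γ) := fun β η γ =>
    measurable_allPair he (Φ := fun v c w => c = w.ord β → w.pr η γ ∉ v) fun v hv c hc =>
      (hc.measurable_eq (named_ord β)).imp ((named_pr η γ).measurable_mem hv).not
  obtain ⟨F, F1, F2, F3, F4⟩ := generic_rec hP b1 R y0 h0 hR
    (Dt := Y × Set (P × O × O) × O × O) Prod.fst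
    (fun β b d => b ≤ b1 ∧ Side b d.1 d.2.1 ∧ d.2.2.1 < δ ∧
      (Sem b fun w => w.Phi (f w) d.2.1 d.2.2.1 d.2.2.2) ∧ Sem b (Av β d.2.2.1 d.2.2.2))
    (fun β b b' d a ⟨a0, a1, a2, a3, a4⟩ => ⟨a.trans a0, hS _ _ _ _ a a1, a2, a3.mono a, a4.mono a⟩)
    fun β _ b hb y hy => by
      obtain ⟨b', a1, η, a2, γ, a3, a4⟩ := step b hb y hy
      have : ∃ b'' ≤ b', ∃ i, Sem b'' (Av β η (γ i)) := by
        obtain ⟨b'', c1, c2 | c2⟩ := (hAv β η (γ false)).decidesK b'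
        · exact ⟨b'', c1, false, c2⟩
        · refine ⟨b'', c1, true, (c2.and (H.mono (c1.trans (a1.trans hb)))).imp ?_⟩
          filter_upwards [ev_const η, ev_const (γ false), ev_const (γ true)]
            with w d1 d2 d3 ⟨d4, d5⟩ v c d6 d7 d8
          refine d4 fun v' c' d9 d10 d11 => a3 ?_
          exact d5.1 v' c' d9 v c d6 (d10.trans d7.symm) η d1 _ d2 _ d3 d11 d8
      obtain ⟨b'', c1, i, c2⟩ := this
      obtain ⟨y', c3, c4, E, c5, c6⟩ := a4 i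
      exact ⟨b'', c1.trans a1, (y', E, η, γ i), c3, c4, c1.trans (a1.trans hb), hS _ _ _ _ c1 c5,
        a2, c6.mono c1, c2⟩
  let U : O → O → World P → Prop := fun η γ w =>
    ∃ z : O × Y × Set (P × O × O) × O × O, w.In z ∧ z.1 < ω₁ ∧ (w.Frc fun b => F b z.1 z.2) ∧
      w.Mem z.2.2.1 η γ
  have hU : ∀ η γ, Measurable (U η γ) := fun η γ => measurable_ex_in fun z =>
    measurable_const.and ((measurable_frc fun p q h h' => F1 _ _ _ _ h h').and
      (measurable_Mem _ _ _))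
  let x : World P → ZFSet.{0} := fun w => w.coll (fun z : O × O => z.1 < kk ∧ z.2 < kk ∧
    (U z.1 z.2 w ∨ (z.2 = 0 ∧ ∀ γ, w.In γ → ¬ U z.1 γ w))) fun z => w.pr z.1 z.2
  have hx : Named x := named_coll (fun z : O × O => named_pr z.1 z.2) fun z =>
    measurable_const.and (measurable_const.and ((hU _ _).or (measurable_const.and
      (measurable_all_in fun γ => (hU _ _).not))))
  obtain ⟨w, a0, a1, a2, a3, a4, a5, a6, a7, a8, a9, a10, a11⟩ := H.exists (ev_generic.and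
    (hx.ev_mem.and ((ev_in_prod O O).and ((ev_const (0 : O)).and
    ((ev_all fun z : O × Y × Set (P × O × O) × O × O => ev_all
      fun z' : O × Y × Set (P × O × O) × O × O => ev_sem fun w => w.Compat z.2.2.1 z'.2.2.1).and
    ((ev_all fun β : O => ev_dense_ex fun b d => F b β d).and
    ((ev_fun₂ fun (β : O) (d : Y × Set (P × O × O) × O × O) => (β, d)).and
    ((ev_all fun d : Y × Set (P × O × O) × O × O =>
      ev_sem fun w => w.Phi (f w) d.2.1 d.2.2.1 d.2.2.2).and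
    ((ev_all fun β : O => ev_all fun d : Y × Set (P × O × O) × O × O =>
      ev_sem (Av β d.2.2.1 d.2.2.2)).and
    (ev_all fun d : Y × Set (P × O × O) × O × O =>
      (ev_const d.2.2.1).and (ev_const d.2.2.2)))))))))))
  have hmem : ∀ η γ, w.In η → w.In γ → (w.pr η γ ∈ x w ↔ η < kk ∧ γ < kk ∧
      (U η γ w ∨ (γ = 0 ∧ ∀ γ, w.In γ → ¬ U η γ w))) := fun η γ b1 b2 => by
    refine w.mem_coll.trans ⟨?_, fun h => ⟨(η, γ), (a4 _).2 ⟨b1, b2⟩, h, rfl⟩⟩
    rintro ⟨z, c1, c2, c3⟩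
    obtain ⟨rfl, rfl⟩ := (w.pr_inj ((a4 z).1 c1).1 ((a4 z).1 c1).2 b1 b2).1 c3
    exact c2
  have hlt : ∀ η γ, U η γ w → η < kk ∧ γ < kk := fun η γ ⟨z, _, _, ⟨b, _, c1⟩, _, _, _, c2, _⟩ =>
    hB _ _ _ (F2 _ _ _ c1).1.2.1 _ c2
  have hfun : ∀ η γ γ', w.In η → w.In γ → w.In γ' → U η γ w → U η γ' w → γ = γ' := by
    rintro η γ γ' b1 b2 b3 ⟨z, c1, c2, ⟨p, c3, c4⟩, c5⟩ ⟨z', d1, d2, ⟨q, d3, d4⟩, d5⟩
    obtain ⟨r, e1, e2, e3⟩ := a2.dir p c3 q d3
    have e4 := F1 _ _ _ _ e2 c4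
    have e5 := F1 _ _ _ _ e3 d4
    rcases le_total z.1 z'.1 with h | h
    · exact a6 z c1 z' d1 r (w.has_of_mem e1) (hC r (F2 _ _ _ e4).1.1 _ _ _ _ (F2 _ _ _ e5).2
        (F4 _ _ _ _ _ d2 h e4 e5) (F2 _ _ _ e4).1.2.1 (F2 _ _ _ e5).1.2.1) η b1 γ b2 γ' b3 c5 d5
    · exact (a6 z' d1 z c1 r (w.has_of_mem e1) (hC r (F2 _ _ _ e4).1.1 _ _ _ _ (F2 _ _ _ e4).2
        (F4 _ _ _ _ _ c2 h e5 e4) (F2 _ _ _ e5).1.2.1 (F2 _ _ _ e4).1.2.1)
        η b1 γ' b3 γ b2 d5 c5).symm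
  have hF : ZFSet.IsFunc (w.ord kk) (w.ord kk) (x w) := by
    refine isFunc_mk (fun z hz => ?_) (fun η b1 b2 => ?_) fun η γ γ' b1 b2 b3 b4 b5 => ?_
    · obtain ⟨u, c1, c2, rfl⟩ := w.mem_coll.1 hz
      exact ⟨u.1, u.2, ((a4 u).1 c1).1, ((a4 u).1 c1).2, c2.1, c2.2.1, rfl⟩
    · by_cases h : ∃ γ, w.In γ ∧ U η γ w
      · obtain ⟨γ, c1, c2⟩ := h
        exact ⟨γ, (hmem η γ b1 c1).2 ⟨b2, (hlt _ _ c2).2, Or.inl c2⟩⟩
      · exact ⟨0, (hmem η 0 b1 a5).2 ⟨b2, kk_pos, Or.inr ⟨rfl, fun γ c1 c2 => h ⟨γ, c1, c2⟩⟩⟩⟩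
    · rcases ((hmem η γ b1 b2).1 b4).2.2 with c | c <;>
        rcases ((hmem η γ' b1 b3).1 b5).2.2 with d | d
      exacts [hfun η γ γ' b1 b2 b3 c d, absurd c (d.2 γ b2), absurd d (c.2 γ' b3),
        c.1.trans d.1.symm]
  obtain ⟨y, b1', v, -, β, b2, b3, b4, b5⟩ := a1.2 _ a3 hF
  obtain ⟨b, c1, -, d, c2, c3⟩ := a7 β b2 b1 a0 (F3 β b3)
  obtain ⟨⟨-, -, c4, c5, c6⟩, -⟩ := F2 _ _ _ c3
  refine a10 β b2 d c2 b (w.has_of_mem c1) c6 v _ b4 rfl (b5 _ (a11 d c2).1 _ (a11 d c2).2 c4 ?_)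
  refine a9 d c2 b (w.has_of_mem c1) c5 _ _ b1' fun η e1 γ e2 e3 => ?_
  have e4 : U η γ w := ⟨(β, d), a8 β b2 d c2, b3, ⟨b, c1, c3⟩, e3⟩
  exact (hmem η γ e1 e2).2 ⟨(hlt _ _ e4).1, (hlt _ _ e4).2, Or.inl e4⟩

end Pool.Agent.P.MP_a5be26_lc
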