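import Pool.Agent.P.MP_a5be26_lc.Kur

/-!
The power sets of the first two uncountable cardinals of the extension.
-/

open Filter Set Function Cardinal Ordinal

namespace Pool.Agent.P.MP_a5be26_lc

open Pool.Agent.Lib.Helper87

variable {Q : Type 1} [Preorder Q] [Frame Q]

/-- the subset of `b` coded by `E` -/
noncomputable def World.sv {P : Type 1} [Preorder P] (w : World P) (b : O) (E : Set (P × O × O)) :
    ZFSet.{0} := w.coll (fun η : O => η < b ∧ w.Mem E η 1) w.ord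

theorem named_sv {P : Type 1} [Preorder P] (b : O) (E : Set (P × O × O)) :
    Named fun w : World P => w.sv b E :=
  named_coll named_ord fun η => measurable_const.and (measurable_Mem E η 1)

theorem mem_power_iff {P : Type 1} [Preorder P] {w : World P} {b : O} {S : Set (Set (P × O × O))}
    (h1 : ∀ E, w.In E → w.sv b E ∈ w.M)
    (h2 : ∀ y ∈ w.M, ∃ E, w.In E ∧ E ∈ S ∧ ∀ η, w.In η → η < b → (w.Mem E η 1 ↔ w.ord η ∈ y))
    (z : ZFSet.{0}) :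
    z ∈ power w.M (w.ord b) ↔ ∃ E, w.In E ∧ (E ∈ S ∧ True) ∧ w.sv b E = z := by
  rw [power, ZFSet.mem_sep, ZFSet.mem_powerset]
  constructor
  · rintro ⟨b1, b2⟩
    obtain ⟨E, c1, c2, c3⟩ := h2 z b2
    refine ⟨E, c1, ⟨c2, trivial⟩, ZFSet.ext fun u => w.mem_coll.trans ⟨?_, fun hu => ?_⟩⟩
    · rintro ⟨η, d1, d2, rfl⟩
      exact (c3 η d1 d2.1).1 d2.2
    · obtain ⟨η, d1, d2, rfl⟩ := w.mem_ord.1 (b1 hu)
      exact ⟨η, d1, ⟨d2, (c3 η d1 d2).2 hu⟩, rfl⟩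
  · rintro ⟨E, c1, -, rfl⟩
    refine ⟨fun u hu => ?_, h1 E c1⟩
    obtain ⟨η, d1, d2, rfl⟩ := w.mem_coll.1 hu
    exact w.ord_mem d1 d2.1

theorem ev_power1 : ∀ᶠ w in gen (Cc × Q), CardLE w.M (power w.M (w.ord ω₁)) (w.ord kk) := by
  have key : ∀ᶠ w in gen (Cc × Q), ∀ y ∈ w.M, ∃ E, w.In E ∧ E ∈ Codes Q 0 ∧
      ∀ η, w.In η → η < ω₁ → (w.Mem E η 1 ↔ w.ord η ∈ y) := by
    refine ev_all_named fun y hy => ?_
    filter_upwards [ev_base', ev_short (named_chi ω₁ (Φ := fun η w => w.ord η ∈ y w)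
      fun η => (named_ord η).measurable_mem hy) omega1_lt_kk] with w a1 a2
    obtain ⟨E, b1, b2, b3, b4⟩ := a2 fun η h h' => func_val (isFunc_chi a1) (w.ord_mem h h')
    refine ⟨E, b1, b2, fun η c1 c2 => ⟨fun h => ?_, fun h => ?_⟩⟩
    · simpa [c2] using (pr_mem_chi a1 c1 a1.2.1).1 (b3 η 1 c1 a1.2.1 h)
    · obtain ⟨γ, d1, d2⟩ := b4 η c1 c2
      rcases ((pr_mem_chi a1 c1 d1).1 (b3 η γ c1 d1 d2)).2 with e | e
      exacts [e.1 ▸ d2, absurd h e.2]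
  filter_upwards [key, ev_all fun E => (named_sv (P := Cc × Q) ω₁ E).ev_mem,
    ev_le2 (Q := Q) (named_sv ω₁) (Ψ := fun _ _ => True) (fun _ => measurable_const) (Codes Q 0)]
    with w a1 a2 a3
  exact a3 _ (mem_power_iff a2 a1)

theorem codes_inj : ∃ h : Set ((Cc × Q) × O × O) → O, InjOn h (⋃ ξ, Codes Q ξ) := by
  obtain ⟨π⟩ : Nonempty (O × O ↪ O) := by
    rw [← Cardinal.le_def, Cardinal.mk_prod, Cardinal.lift_id,
      Cardinal.mul_eq_self (Cardinal.aleph0_le_mk O)]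
  choose h b h1 _ using fun ξ => small_inj (Codes Q ξ)
  choose! ξ hξ using fun (E : Set ((Cc × Q) × O × O)) (hE : E ∈ ⋃ ξ, Codes Q ξ) => mem_iUnion.1 hE
  refine ⟨fun E => π (ξ E, h (ξ E) E), fun E hE E' hE' e => ?_⟩
  obtain ⟨e1, e2⟩ := Prod.mk.inj (π.injective e)
  exact h1 (ξ E) (hξ E hE) (e1 ▸ hξ E' hE') (e2.trans (by rw [e1]))

theorem ev_power2 : ∀ᶠ w in gen (Cc × Q), CardLE w.M (power w.M (w.ord kk)) w.ordTop := by
  have key : ∀ᶠ w in gen (Cc × Q), ∀ y ∈ w.M, ∃ E, w.In E ∧ E ∈ ⋃ ξ, Codes Q ξ ∧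
      ∀ η, w.In η → η < kk → (w.Mem E η 1 ↔ w.ord η ∈ y) := by
    refine ev_all_named fun y hy => ?_
    have hm : ∀ η, Measurable fun w => w.ord η ∈ y w := fun η => (named_ord η).measurable_mem hy
    obtain ⟨ξ, -, h⟩ := sem_reflect (Iio kk) hm 0
    let E : Set ((Cc × Q) × O × O) :=
      {z | PIn z.1 ξ ∧ z.2.1 < kk ∧ z.2.2 < kk ∧ Sem z.1 fun w => w.ord z.2.1 ∈ y w}
    filter_upwards [ev_const E, ev_all fun η : O => ev_sem fun w => w.ord η ∈ y w,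
      ev_all fun η => ev_forced (hm η)] with w a1 a2 a3
    refine ⟨E, a1, mem_iUnion.2 ⟨ξ, fun z hz => ⟨hz.1, hz.2.1, hz.2.2.1⟩⟩, fun η c1 c2 =>
      ⟨fun ⟨r, b1, p, b2, b3⟩ => a2 η c1 p ⟨r, b1, b3⟩ b2.2.2.2, fun h' => ?_⟩⟩
    obtain ⟨p, b1, b2⟩ := a3 η c1 h'
    exact ⟨p, b1, pres p ξ, ⟨pin_pres _ _, c2, one_lt_kk, h η c2 p b2⟩, le_pres _ _⟩
  obtain ⟨h, hh⟩ := codes_inj (Q := Q)
  filter_upwards [key, ev_all fun E => (named_sv (P := Cc × Q) kk E).ev_mem, ev_fun h,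
    ev_cardLE (named_sv (P := Cc × Q) kk) (b := fun E w => w.ord (h E)) (fun E => named_ord _)
      (Φ := fun E w => E ∈ ⋃ ξ, Codes Q ξ ∧ ∀ E', w.In E' → E' ∈ ⋃ ξ, Codes Q ξ → h E' < h E →
        w.sv kk E' ≠ w.sv kk E) fun E => measurable_const.and (measurable_all_in fun E' =>
          measurable_const.imp (measurable_const.imp
            ((named_sv kk E').measurable_eq (named_sv kk E)).not))] with w a1 a2 a3 a4
  have hA := mem_power_iff a2 a1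
  refine a4 _ _ (fun z hz => ?_) (fun E b1 b2 => ⟨(hA _).2 ⟨E, b1, ⟨b2.1, trivial⟩, rfl⟩,
    w.mem_ordTop.2 ⟨_, a3 E b1, rfl⟩⟩) fun E E' b1 b2 b3 b4 => ?_
  · obtain ⟨E, b1, b2, b3⟩ := (hA z).1 hz
    obtain ⟨_, ⟨E', c1, rfl⟩, c2⟩ := (wellFounded_lt (α := O)).has_min
      (h '' {E | w.In E ∧ E ∈ ⋃ ξ, Codes Q ξ ∧ w.sv kk E = z}) ⟨_, E, ⟨b1, b2.1, b3⟩, rfl⟩
    exact ⟨E', c1.1, ⟨c1.2.1, fun E'' d1 d2 d3 d4 =>
      c2 _ ⟨E'', ⟨d1, d2, d4.trans c1.2.2⟩, rfl⟩ d3⟩, c1.2.2⟩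
  · rw [w.ord_inj (a3 E b1) (a3 E' b2)]
    refine ⟨fun e => ?_, fun e => by rw [hh b3.1 b4.1 e]⟩
    rcases lt_trichotomy (h E) (h E') with c | c | c
    exacts [absurd e (b4.2 E b1 b3.1 c), c, absurd e.symm (b3.2 E' b2 b4.1 c)]

end Pool.Agent.P.MP_a5be26_lc
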