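import Pool.Agent.P.MP_a5be26_lc.Gch

/-!
Versions of the Kurepa tree and of the final arguments for an arbitrary second factor.
-/

open Filter Set Function Cardinal Ordinal

namespace Pool.Agent.P.MP_a5be26_lc

open Pool.Agent.Lib.Helper87

variable {Q : Type 1} [Preorder Q] {c : Q → Qc}

/-- the generic tree -/
noncomputable def World.treeG (w : World (Cc × Q)) (c : Q → Qc) : ZFSet.{0} :=
  w.coll (fun z : O × Set O => z.1 < kk ∧ w.Frc fun p => z.2 ∈ (c p.2).t) fun z => w.chi z.1 (· ∈ z.2)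

/-- the generic branches -/
noncomputable def World.brG (w : World (Cc × Q)) (c : Q → Qc) (ξ : O) : ZFSet.{0} :=
  w.chi kk fun η => w.Frc fun p => η ∈ (c p.2).f ξ

theorem named_treeG (hc : Monotone c) : Named fun w : World (Cc × Q) => (w.treeG c) :=
  named_coll (fun z : O × Set O => named_chi z.1 (Φ := fun η _ => η ∈ z.2) fun _ => measurable_const)
    fun _ => measurable_const.and (measurable_frc fun _ _ h h' => (hc h.2).t_sub h')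

theorem named_brG (hc : Monotone c) (ξ : O) : Named fun w : World (Cc × Q) => w.brG c ξ :=
  named_chi kk fun _ => measurable_frc fun _ _ h h' => (hc h.2).f_sub ξ h'

theorem frc_iffG (hc : Monotone c) {w : World (Cc × Q)} (hw : w.Generic) {p : Cc × Q} (hp : p ∈ w.G) {ξ η : O}
    (h1 : ξ ∈ (c p.2).D) (h2 : η < (c p.2).α) : (w.Frc fun q => η ∈ (c q.2).f ξ) ↔ η ∈ (c p.2).f ξ := by
  refine ⟨fun ⟨q, a1, a2⟩ => ?_, fun h => ⟨p, hp, h⟩⟩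
  obtain ⟨r, -, b1, b2⟩ := hw.dir p hp q a1
  rw [(hc b1.2).f ξ h1]
  exact ⟨(hc b2.2).f_sub ξ a2, h2⟩

theorem ev_kurepaG [Frame Q] (hc : Monotone c)
    (hD : ∀ (q : Q) (η β : O), β < kk → ∃ r ≤ q, η ∈ (c r).D ∧ β ≤ (c r).α)
    (hne : ∀ (q : Q) (η η' : O), η ≠ η' →
      ∃ r ≤ q, η ∈ (c r).D ∧ η' ∈ (c r).D ∧ (c r).f η ≠ (c r).f η') :
    ∀ᶠ w in gen (Cc × Q), Kurepa w.M (w.ord ω₁) (w.ord kk) w.ordTop (w.treeG c) := by
  filter_upwards [ev_base', ev_generic, (named_treeG hc).ev_mem, ev_in_prod O (Set O),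
    ev_all fun ξ : O => ev_all fun α : O => ev_dimp fun h : α < kk =>
      ev_dense0 (P := Cc × Q) (fun p => ξ ∈ (c p.2).D ∧ α ≤ (c p.2).α) fun q =>
        let ⟨r, a1, a2⟩ := hD q.2 ξ α h; ⟨(q.1, r), ⟨le_rfl, a1⟩, a2⟩,
    ev_all fun α : O => ev_all fun p : Cc × Q => ev_le1 (Q := Q)
      (fun s : Set O => named_chi α (Φ := fun η _ => η ∈ s) fun _ => measurable_const)
      (Ψ := fun _ _ => True) (fun _ => measurable_const) (c p.2).t_sm,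
    ev_fun₂ fun (s : Set O) (p : Cc × Q) => s ∩ Iio (c p.2).α, ev_fun₂ fun (p : Cc × Q) (ξ : O) => (c p.2).f ξ,
    ev_all fun ξ => (named_brG hc ξ).ev_mem,
    ev_all fun ξ : O => ev_all fun ξ' : O => ev_dimp fun h : ξ ≠ ξ' =>
      ev_dense0 (P := Cc × Q) (fun p => ξ ∈ (c p.2).D ∧ ξ' ∈ (c p.2).D ∧ (c p.2).f ξ ≠ (c p.2).f ξ') fun q =>
        let ⟨r, a1, a2⟩ := hne q.2 ξ ξ' h; ⟨(q.1, r), ⟨le_rfl, a1⟩, a2⟩,
    ev_all fun s : Set O => ev_all fun s' : Set O => ev_skolem fun η => ¬ (η ∈ s ↔ η ∈ s'),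
    ev_cardLE (I := O) (a := fun i w => w.ord i) named_ord (named_brG hc) (Φ := fun _ _ => True)
      fun _ => measurable_const] with w a1 a2 a3 a4 a5 a6 a7 a8 a9 a10 a11 a12
  have hT : ∀ α s p, w.In α → w.In s → α < kk → p ∈ w.G → s ∈ (c p.2).t → w.chi α (· ∈ s) ∈ (w.treeG c) :=
    fun α s p b1 b2 b3 b4 b5 => w.mem_coll.2 ⟨(α, s), (a4 _).2 ⟨b1, b2⟩, ⟨b3, p, b4, b5⟩, rfl⟩
  refine ⟨⟨a3, ⟨fun t ht => ?_, fun t ht α hα s h1 h2 => ?_⟩, fun α hα => ?_⟩,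
    a12 _ _ (fun z hz => w.mem_coll.1 hz) (fun ξ b1 _ => ⟨w.mem_ordTop.2 ⟨ξ, b1, rfl⟩, ?_⟩)
      fun ξ ξ' b1 b2 _ _ => ?_⟩
  · obtain ⟨z, b1, b2, rfl⟩ := w.mem_coll.1 ht
    exact ⟨_, w.ord_mem ((a4 z).1 b1).1 b2.1, isFunc_chi a1⟩
  · obtain ⟨z, b1, ⟨-, p, b2, b3⟩, rfl⟩ := w.mem_coll.1 ht
    obtain ⟨α, c1, c2, rfl⟩ := w.mem_ord.1 hα
    rw [← eq_chi a1 h1 h2 fun _ _ _ => Iff.rfl]
    exact hT α _ p c1 ((a4 z).1 b1).2 c2 b2 b3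
  · obtain ⟨α, c1, c2, rfl⟩ := w.mem_ord.1 hα
    obtain ⟨p, c3, -, c4⟩ := a5 0 a1.1 α c1 c2
    refine a6 α c1 p (a2.mem p c3) _ fun t => ZFSet.mem_sep.trans ⟨fun ⟨h1, h2⟩ => ?_, ?_⟩
    · obtain ⟨z, b1, ⟨-, q, b2, b3⟩, rfl⟩ := w.mem_coll.1 h1
      obtain ⟨r, -, d1, d2⟩ := a2.dir p c3 q b2
      exact ⟨_, a7 _ ((a4 z).1 b1).2 p (a2.mem p c3), ⟨(hc d1.2).cut ((hc d2.2).t_sub b3), trivial⟩,
        eq_chi a1 h2 (subset_refl _) fun η _ h => ⟨fun h' => ⟨h', h.trans_le c4⟩, fun h' => h'.1⟩⟩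
    · rintro ⟨s, b1, ⟨b2, -⟩, rfl⟩
      exact ⟨hT α s p c1 b1 c2 c3 b2, isFunc_chi a1⟩
  · refine ZFSet.mem_sep.2 ⟨ZFSet.mem_sep.2 ⟨ZFSet.mem_funs.2 (isFunc_chi a1), a9 ξ b1⟩,
      fun α hα s h1 h2 => ?_⟩
    obtain ⟨α, c1, c2, rfl⟩ := w.mem_ord.1 hα
    obtain ⟨p, c3, c4, c5⟩ := a5 ξ b1 α c1 c2
    rw [← eq_chi a1 h1 h2 fun η _ h => frc_iffG hc a2 c3 c4 (h.trans_le c5)]
    exact hT α _ p c1 (a8 p (a2.mem p c3) ξ b1) c2 c3 ((c p.2).f_t ξ)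
  · rw [w.ord_inj b1 b2]
    refine ⟨fun e => e ▸ rfl, fun e => ?_⟩
    by_contra hne'
    obtain ⟨p, c1, c2, c3, c4⟩ := a10 ξ b1 ξ' b2 hne'
    obtain ⟨η, d1, d2⟩ := a11 _ (a8 p (a2.mem p c1) ξ b1) _ (a8 p (a2.mem p c1) ξ' b2)
      (not_forall.1 fun h => c4 (Set.ext h))
    have d3 : η < (c p.2).α := by
      by_contra h
      exact d2 ⟨fun h' => absurd ((c p.2).t_sub _ ((c p.2).f_t _) h') h,
        fun h' => absurd ((c p.2).t_sub _ ((c p.2).f_t _) h') h⟩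
    refine d2 ?_
    rw [← frc_iffG hc a2 c1 c2 d3, ← frc_iffG hc a2 c1 c3 d3]
    exact chi_inj a1 e d1 (d3.trans (c p.2).α_lt)


omit [Preorder Q] in
theorem mem_treeG {w : World (Cc × Q)} {z : ZFSet.{0}} : z ∈ w.treeG c ↔
    ∃ u : O × Set O, w.In u ∧ (u.1 < kk ∧ w.Frc fun p => u.2 ∈ (c p.2).t) ∧
      w.chi u.1 (· ∈ u.2) = z := w.mem_coll

theorem exists_num {P : Type 1} [Preorder P] {f : World P → ZFSet.{0}} (hf : Named f) {p : P}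
    (h : Sem p fun w => w.Good (f w)) {δ : O} (hδ : δ < kk) :
    ∃ b ≤ p, ∃ e, Named e ∧ Sem b fun w => w.Num (f w) (e w) δ :=
  Sem.exM (Φ := fun e w => w.Num (f w) e δ) (fun _ he => measurable_Num hf he δ)
    (h.imp ((ev_const δ).mono fun _ h h' => h'.2 δ h hδ))

variable [Frame Q]

/-- a wrapper carrying another preorder -/
def Syn (Q : Type 1) : Type 1 := Q

/-- a closed package of side conditions is impossible -/
theorem package_false {f x y : World (Cc × Q) → ZFSet.{0}} (hf : Named f) {p0 p : Cc × Q} {ξ : O}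
    (h0 : Sem p0 fun w => w.Good (f w)) (hp0 : PIn p0 ξ) (hp : p ≤ p0)
    (hξ' : ∀ E ∈ Codes Q 0, ∀ E' ∈ Codes Q 0, ∀ q, (Sem q fun w => w.Compat E E') →
      Sem (pres q ξ) fun w => w.Compat E E')
    (h1 : Sem p fun w => ZFSet.pair (x w) (y w) ∈ f w)
    (le : Q → Q → Prop) (le_refl : ∀ u, le u u) (le_trans : ∀ u v z, le u v → le v z → le u z)
    (m : Q) (R : Set Q) {δ : O} (a1 : δ < kk) (y0 : Q) (a2 : y0 ∈ R)
    (a3 : ∀ q ∈ R, m ≤ Frame.res q ξ ∧ q ≤ p.2)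
    (tr : ∀ u ∈ R, ∀ u' ∈ R, le u' u → ∀ a ≤ p.1, ∀ E,
      (Sem ((a, u) : Cc × Q) fun w => w.Sub E (x w)) → Sem ((a, u') : Cc × Q) fun w => w.Sub E (x w))
    (a4 : ∀ q ∈ R, ∀ a ≤ p.1, ∃ η < δ, ∃ a' ≤ a, ∃ γ : Bool → O, γ false ≠ γ true ∧
      ∀ i, ∃ u ∈ R, le u q ∧ ∃ E ∈ Codes Q 0, (Sem ((a', u) : Cc × Q) fun w => w.Sub E (x w)) ∧
        Sem ((a', m) : Cc × Q) fun w => w.Phi (f w) E η (γ i))
    (a5 : ∀ g : ℕ → Q, (∀ n, g n ∈ R) → (∀ i j, ∃ k, le (g k) (g i) ∧ le (g k) (g j)) →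
      ∃ y ∈ R, ∀ n, le y (g n)) : False := by
  have h2 := (h0.mono hp).and h1
  have a6 : ((p.1, m) : Cc × Q) ≤ p0 := _root_.le_trans (b := pres (p.1, y0) ξ)
    ⟨le_rfl, (a3 _ a2).1⟩ (pres_le (_root_.le_trans (b := p) ⟨le_rfl, (a3 _ a2).2⟩ hp) hp0)
  obtain ⟨b1, b2, e, b3, b4⟩ := exists_num hf (h0.mono a6) a1
  let _ : Preorder (Syn Q) := { le := le, le_refl := le_refl, le_trans := le_trans }
  refine diag p_lb b3 b1 δ b4 (Y := Syn Q) R y0 a2 a5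
    (fun b u E => u ∈ R ∧ E ∈ Codes Q 0 ∧ Sem ((b.1, u) : Cc × Q) fun w => w.Sub E (x w))
    (fun b b' u E h h' => ⟨h'.1, h'.2.1, h'.2.2.mono ⟨h.1, le_rfl⟩⟩)
    (fun b u E h z hz => (h.2.1 hz).2)
    (fun b hb u u' E E' c1 c2 c3 c4 => ?_) fun b hb u hu => ?_
  · have c5 : ((b.1, u') : Cc × Q) ≤ p := ⟨(hb.trans b2).1, (a3 _ c1).2⟩
    refine (hξ' E c3.2.1 E' c4.2.1 (b.1, u') ?_).mono ⟨le_rfl, (hb.trans b2).2.trans (a3 _ c1).1⟩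
    refine (((h2.mono c5).and (tr u c3.1 u' c1 c2 _ c5.1 E c3.2.2)).and c4.2.2).imp'
      fun w h η d1 γ d2 γ' d3 d4 d5 => ?_
    exact (w.ord_inj d2 d3).1 (func_uniq (h.1.1.1.1 _ _ h.1.1.2).1.1 (h.1.2 η d1 γ d2 d4)
      (h.2 η d1 γ' d3 d5))
  · obtain ⟨η, c1, a', c2, γ, c3, c4⟩ := a4 u hu b.1 (hb.trans b2).1
    refine ⟨(a', b.2), ⟨c2, le_rfl⟩, η, c1, γ, c3, fun i => ?_⟩
    obtain ⟨u', d1, d2, E, d3, d4, d5⟩ := c4 i
    exact ⟨u', d1, d2, E, ⟨d1, d3, d4⟩, d5.mono ⟨le_rfl, (hb.trans b2).2⟩⟩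

variable (Q) in
/-- fixed points of good maps have codes below a reflection point -/
def OldFixed : Prop := ∀ (f y : World (Cc × Q) → ZFSet.{0}), Named f → Named y →
  ∀ (p0 p : Cc × Q) (ξ : O), (Sem p0 fun w => w.Good (f w)) → PIn p0 ξ → p ≤ p0 →
  (∀ E ∈ Codes Q 0, ∀ η < kk, ∀ γ < kk, ∀ q, (Sem q fun w => w.Phi (f w) E η γ) →
    Sem (pres q ξ) fun w => w.Phi (f w) E η γ) →
  (∀ E ∈ Codes Q 0, ∀ E' ∈ Codes Q 0, ∀ q, (Sem q fun w => w.Compat E E') →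
    Sem (pres q ξ) fun w => w.Compat E E') →
  (Sem p fun w => ZFSet.pair (y w) (y w) ∈ f w) →
  (∀ q ≤ p, ∀ E ∈ Codes Q ξ, ¬ Sem q fun w => w.rv E = y w) → False

theorem ev_few_fixed (H : OldFixed Q) : ∀ᶠ w in gen (Cc × Q), ∀ f ∈ w.M, w.Good f →
    ∀ A : ZFSet.{0}, (∀ y, y ∈ A ↔ ZFSet.pair y y ∈ f) → CardLE w.M A (w.ord kk) := by
  refine ev_all_named fun f hf => ?_
  have key : ∀ p0 : Cc × Q, (Sem p0 fun w => w.Good (f w)) → Sem p0 fun w => ∀ A : ZFSet.{0},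
      (∀ y, y ∈ A ↔ ZFSet.pair y y ∈ f w) → CardLE w.M A (w.ord kk) := by
    intro p0 h0
    obtain ⟨ξ0, h1⟩ := exists_pin p0
    obtain ⟨ξ, h2, h3⟩ := sem_reflect
      ((univ : Set Bool) ×ˢ Codes Q 0 ×ˢ Codes Q 0 ×ˢ Iio kk ×ˢ Iio kk)
      (Φ := fun j w => cond j.1 (w.Compat j.2.1 j.2.2.1) (w.Phi (f w) j.2.1 j.2.2.2.1 j.2.2.2.2))
      (fun j => by
        rcases j with ⟨_ | _, j⟩
        exacts [measurable_Phi hf _ _ _, measurable_Compat _ _]) ξ0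
    have h4 : ∀ᶠ w in gen (Cc × Q), ∀ y ∈ w.M, w.Has p0 → ZFSet.pair y y ∈ f w →
        ∃ E, w.In E ∧ E ∈ Codes Q ξ ∧ w.rv E = y := by
      refine ev_all_named fun y hy => ?_
      refine sem_of_dense (p := p0) fun p hp => ?_
      obtain ⟨q, a1, a2 | a2⟩ := ((hy.pair hy).measurable_mem hf).decidesK p
      · have := H f y hf hy p0 q ξ h0 (h1.mono h2) (a1.trans hp)
          (fun E hE η hη γ hγ => h3 (false, E, E, η, γ) ⟨trivial, hE, hE, hη, hγ⟩)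
          (fun E hE E' hE' => h3 (true, E, E', 0, 0) ⟨trivial, hE, hE', kk_pos, kk_pos⟩) a2
        by_contra hc
        refine this fun r a3 E a4 a5 => hc ⟨r, a3.trans a1, ?_⟩
        exact a5.imp ((ev_const E).mono fun w b1 b2 _ => ⟨E, b1, a4, b2⟩)
      · exact ⟨q, a1, a2.imp' fun w h h' => absurd h' h⟩
    filter_upwards [h4, ev_pair_M, hf.ev_mem, ev_le2 (Q := Q) named_rv
      (Ψ := fun E w => ZFSet.pair (w.rv E) (w.rv E) ∈ f w)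
      (fun E => ((named_rv E).pair (named_rv E)).measurable_mem hf) (Codes Q ξ)]
      with w a1 a2 a3 a4 a5 A hA
    refine a4 A fun y => (hA y).trans ⟨fun h => ?_, ?_⟩
    · obtain ⟨E, c1, c2, rfl⟩ := a1 y (a2 _ a3 y y h).1 a5 h
      exact ⟨E, c1, ⟨c2, h⟩, rfl⟩
    · rintro ⟨E, -, ⟨-, h⟩, rfl⟩
      exact h
  filter_upwards [ev_forced (measurable_Good hf), ev_sem fun w : World (Cc × Q) => ∀ A : ZFSet.{0},
    (∀ y, y ∈ A ↔ ZFSet.pair y y ∈ f w) → CardLE w.M A (w.ord kk)] with w h1 h2 h3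
  obtain ⟨p, a1, a2⟩ := h1 h3
  exact h2 p (w.has_of_mem a1) (key p a2)

theorem ev_no_retract (H : OldFixed Q) : ∀ᶠ w in gen (Cc × Q),
    ∀ T, Kurepa w.M (w.ord ω₁) (w.ord kk) w.ordTop T → ¬ ∃ f ∈ w.M,
      ZFSet.IsFunc (baire w.M (w.ord kk)) (branches w.M (w.ord kk) T) f ∧ Cont (w.ord kk) f ∧
        ∀ y ∈ branches w.M (w.ord kk) T, ZFSet.pair y y ∈ f := by
  filter_upwards [ev_few_fixed H, ev_good, ev_succ3, ev_cardLE_trans kk]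
    with w h1 h2 h3 h4 T hT ⟨f, a1, a2, a3, a4⟩
  exact h3.2.2.2.1 (h4 _ hT.2 (h1 f a1 (h2 T f hT.1 a2 a3) _ fun y =>
    ⟨a4 y, fun h => (ZFSet.pair_mem_prod.1 (a2.1 h)).2⟩))

end Pool.Agent.P.MP_a5be26_lc
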