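import Pool.Agent.P.MP_a5be26_lc.Main

/-!
The generic Kurepa tree.
-/

open Filter Set Function Cardinal Ordinal

namespace Pool.Agent.P.MP_a5be26_lc

open Pool.Agent.Lib.Helper87

section chi
variable {P : Type 1}

/-- the characteristic function of `Φ` on `α` -/
noncomputable def World.chi (w : World P) (α : O) (Φ : O → Prop) : ZFSet.{0} :=
  w.coll (fun z : O × O => z.1 < α ∧ ((z.2 = 1 ∧ Φ z.1) ∨ (z.2 = 0 ∧ ¬ Φ z.1))) fun z => w.pr z.1 z.2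

/-- basic closure properties of `N` -/
def World.Base (w : World P) : Prop :=
  w.In (0 : O) ∧ w.In (1 : O) ∧ ∀ z : O × O, w.In z ↔ w.In z.1 ∧ w.In z.2

theorem ev_base' [Preorder P] : ∀ᶠ w in gen P, w.Base :=
  (ev_const _).and ((ev_const _).and (ev_in_prod O O))

theorem named_chi [Preorder P] (α : O) {Φ : O → World P → Prop} (h : ∀ η, Measurable (Φ η)) :
    Named fun w : World P => w.chi α fun η => Φ η w :=
  named_coll (fun z : O × O => named_pr z.1 z.2) fun z => measurable_const.and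
    ((measurable_const.and (h z.1)).or (measurable_const.and (h z.1).not))

variable {w : World P} {α β : O} {Φ Ψ : O → Prop}

theorem pr_mem_chi (h : w.Base) {η γ : O} (h1 : w.In η) (h2 : w.In γ) :
    w.pr η γ ∈ w.chi α Φ ↔ η < α ∧ ((γ = 1 ∧ Φ η) ∨ (γ = 0 ∧ ¬ Φ η)) := by
  refine w.mem_coll.trans ⟨?_, fun h' => ⟨(η, γ), (h.2.2 _).2 ⟨h1, h2⟩, h', rfl⟩⟩
  rintro ⟨z, c1, c2, c3⟩
  obtain ⟨rfl, rfl⟩ := (w.pr_inj ((h.2.2 z).1 c1).1 ((h.2.2 z).1 c1).2 h1 h2).1 c3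
  exact c2

theorem one_lt_kk : (1 : O) < kk := by simpa using kk_succ kk_pos

theorem isFunc_chi (h : w.Base) : ZFSet.IsFunc (w.ord α) (w.ord kk) (w.chi α Φ) := by
  refine isFunc_mk (fun z hz => ?_) (fun η a1 a2 => ?_) fun η γ γ' a1 a2 a3 a4 a5 => ?_
  · obtain ⟨u, c1, c2, rfl⟩ := w.mem_coll.1 hz
    refine ⟨u.1, u.2, ((h.2.2 u).1 c1).1, ((h.2.2 u).1 c1).2, c2.1, ?_, rfl⟩
    rcases c2.2 with c | c <;> rw [c.1]
    exacts [one_lt_kk, kk_pos]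
  · by_cases e : Φ η
    exacts [⟨1, (pr_mem_chi h a1 h.2.1).2 ⟨a2, Or.inl ⟨rfl, e⟩⟩⟩,
      ⟨0, (pr_mem_chi h a1 h.1).2 ⟨a2, Or.inr ⟨rfl, e⟩⟩⟩]
  · rcases ((pr_mem_chi h a1 a2).1 a4).2 with c | c <;>
      rcases ((pr_mem_chi h a1 a3).1 a5).2 with d | d
    exacts [c.1.trans d.1.symm, absurd c.2 d.2, absurd d.2 c.2, c.1.trans d.1.symm]

theorem eq_chi (h : w.Base) {s : ZFSet.{0}} (h1 : ZFSet.IsFunc (w.ord β) (w.ord kk) s)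
    (h2 : s ⊆ w.chi α Φ) (h3 : ∀ η, w.In η → η < β → (Φ η ↔ Ψ η)) : w.chi β Ψ = s := by
  have key : s ⊆ w.chi β Ψ := fun z hz => by
    obtain ⟨η, γ, a1, a2, a3, -, rfl⟩ := func_mem h1 hz
    have := ((pr_mem_chi h a1 a2).1 (h2 hz)).2
    rw [h3 η a1 a3] at this
    exact (pr_mem_chi h a1 a2).2 ⟨a3, this⟩
  refine ZFSet.ext fun z => ⟨fun hz => ?_, fun hz => key hz⟩
  obtain ⟨η, γ, a1, a2, a3, -, rfl⟩ := func_mem (isFunc_chi h) hz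
  obtain ⟨γ', -, -, b1⟩ := func_val h1 (w.ord_mem a1 a3)
  rw [World.pr, func_uniq (isFunc_chi h) hz (key b1)]
  exact b1

theorem chi_inj (h : w.Base) (e : w.chi α Φ = w.chi α Ψ) {η : O} (h1 : w.In η) (h2 : η < α) :
    Φ η ↔ Ψ η := by
  have := pr_mem_chi (α := α) (Φ := Φ) h h1 h.2.1
  rw [e, pr_mem_chi h h1 h.2.1] at this
  simpa [h2] using this.symm

end chi

/-- the generic tree -/
noncomputable def World.tree (w : World PP) : ZFSet.{0} :=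
  w.coll (fun z : O × Set O => z.1 < kk ∧ w.Frc fun p => z.2 ∈ p.2.t) fun z => w.chi z.1 (· ∈ z.2)

/-- the generic branches -/
noncomputable def World.br (w : World PP) (ξ : O) : ZFSet.{0} :=
  w.chi kk fun η => w.Frc fun p => η ∈ p.2.f ξ

theorem named_tree : Named fun w : World PP => w.tree :=
  named_coll (fun z : O × Set O => named_chi z.1 (Φ := fun η _ => η ∈ z.2) fun _ => measurable_const)
    fun _ => measurable_const.and (measurable_frc fun _ _ h h' => h.2.t_sub h')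

theorem Qc.Le.f_sub {p q : Qc} (h : p.Le q) (ξ : O) : q.f ξ ⊆ p.f ξ := by
  by_cases hD : ξ ∈ q.D
  · rw [h.f ξ hD]
    exact inter_subset_left
  · rw [q.f_D ξ hD]
    exact empty_subset _

theorem named_br (ξ : O) : Named fun w : World PP => w.br ξ :=
  named_chi kk fun _ => measurable_frc fun _ _ h h' => h.2.f_sub ξ h'

theorem frc_iff {w : World PP} (hw : w.Generic) {p : PP} (hp : p ∈ w.G) {ξ η : O}
    (h1 : ξ ∈ p.2.D) (h2 : η < p.2.α) : (w.Frc fun q => η ∈ q.2.f ξ) ↔ η ∈ p.2.f ξ := by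
  refine ⟨fun ⟨q, a1, a2⟩ => ?_, fun h => ⟨p, hp, h⟩⟩
  obtain ⟨r, -, b1, b2⟩ := hw.dir p hp q a1
  rw [b1.2.f ξ h1]
  exact ⟨b2.2.f_sub ξ a2, h2⟩

theorem ev_kurepa : ∀ᶠ w in gen PP, Kurepa w.M (w.ord ω₁) (w.ord kk) w.ordTop w.tree := by
  filter_upwards [ev_base', ev_generic, named_tree.ev_mem, ev_in_prod O (Set O),
    ev_all fun ξ : O => ev_all fun α : O => ev_dimp fun h : α < kk =>
      ev_dense0 (P := PP) (fun p => ξ ∈ p.2.D ∧ α ≤ p.2.α) fun q =>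
        let ⟨r, a1, a2⟩ := q.2.dense_D ξ h; ⟨(q.1, r), ⟨le_rfl, a1⟩, a2⟩,
    ev_all fun α : O => ev_all fun p : PP => ev_le1 (Q := Qc)
      (fun s : Set O => named_chi α (Φ := fun η _ => η ∈ s) fun _ => measurable_const)
      (Ψ := fun _ _ => True) (fun _ => measurable_const) p.2.t_sm,
    ev_fun₂ fun (s : Set O) (p : PP) => s ∩ Iio p.2.α, ev_fun₂ fun (p : PP) (ξ : O) => p.2.f ξ,
    ev_all fun ξ => (named_br ξ).ev_mem,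
    ev_all fun ξ : O => ev_all fun ξ' : O => ev_dimp fun h : ξ ≠ ξ' =>
      ev_dense0 (P := PP) (fun p => ξ ∈ p.2.D ∧ ξ' ∈ p.2.D ∧ p.2.f ξ ≠ p.2.f ξ') fun q =>
        let ⟨r, a1, a2⟩ := q.2.dense_ne h; ⟨(q.1, r), ⟨le_rfl, a1⟩, a2⟩,
    ev_all fun s : Set O => ev_all fun s' : Set O => ev_skolem fun η => ¬ (η ∈ s ↔ η ∈ s'),
    ev_cardLE (I := O) (a := fun i w => w.ord i) named_ord named_br (Φ := fun _ _ => True)
      fun _ => measurable_const] with w a1 a2 a3 a4 a5 a6 a7 a8 a9 a10 a11 a12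
  have hT : ∀ α s p, w.In α → w.In s → α < kk → p ∈ w.G → s ∈ p.2.t → w.chi α (· ∈ s) ∈ w.tree :=
    fun α s p b1 b2 b3 b4 b5 => w.mem_coll.2 ⟨(α, s), (a4 _).2 ⟨b1, b2⟩, ⟨b3, p, b4, b5⟩, rfl⟩
  refine ⟨⟨a3, ⟨fun t ht => ?_, fun t ht α hα s h1 h2 => ?_⟩, fun α hα => ?_⟩,
    a12 _ _ (fun z hz => w.mem_coll.1 hz) (fun ξ b1 _ => ⟨w.mem_ordTop.2 ⟨ξ, b1, rfl⟩, ?_⟩)
      fun ξ ξ' b1 b2 _ _ => ?_⟩
  · obtain ⟨z, b1, b2, rfl⟩ := w.mem_coll.1 ht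
    exact ⟨_, w.ord_mem ((a4 z).1 b1).1 b2.1, isFunc_chi a1⟩
  · obtain ⟨z, b1, ⟨-, p, b2, b3⟩, rfl⟩ := w.mem_coll.1 ht
    obtain ⟨α, c1, c2, rfl⟩ := w.mem_ord.1 hα
    rw [← eq_chi a1 h1 h2 fun _ _ _ => Iff.rfl]
    exact hT α _ p c1 ((a4 z).1 b1).2 c2 b2 b3
  · obtain ⟨α, c1, c2, rfl⟩ := w.mem_ord.1 hα
    obtain ⟨p, c3, -, c4⟩ := a5 0 a1.1 α c1 c2
    refine a6 α c1 p (a2.mem p c3) _ fun t => ZFSet.mem_sep.trans ⟨fun ⟨h1, h2⟩ => ?_, ?_⟩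
    · obtain ⟨z, b1, ⟨-, q, b2, b3⟩, rfl⟩ := w.mem_coll.1 h1
      obtain ⟨r, -, d1, d2⟩ := a2.dir p c3 q b2
      exact ⟨_, a7 _ ((a4 z).1 b1).2 p (a2.mem p c3), ⟨d1.2.cut (d2.2.t_sub b3), trivial⟩,
        eq_chi a1 h2 (subset_refl _) fun η _ h => ⟨fun h' => ⟨h', h.trans_le c4⟩, fun h' => h'.1⟩⟩
    · rintro ⟨s, b1, ⟨b2, -⟩, rfl⟩
      exact ⟨hT α s p c1 b1 c2 c3 b2, isFunc_chi a1⟩
  · refine ZFSet.mem_sep.2 ⟨ZFSet.mem_sep.2 ⟨ZFSet.mem_funs.2 (isFunc_chi a1), a9 ξ b1⟩,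
      fun α hα s h1 h2 => ?_⟩
    obtain ⟨α, c1, c2, rfl⟩ := w.mem_ord.1 hα
    obtain ⟨p, c3, c4, c5⟩ := a5 ξ b1 α c1 c2
    rw [← eq_chi a1 h1 h2 fun η _ h => frc_iff a2 c3 c4 (h.trans_le c5)]
    exact hT α _ p c1 (a8 p (a2.mem p c3) ξ b1) c2 c3 (p.2.f_t ξ)
  · rw [w.ord_inj b1 b2]
    refine ⟨fun e => e ▸ rfl, fun e => ?_⟩
    by_contra hne
    obtain ⟨p, c1, c2, c3, c4⟩ := a10 ξ b1 ξ' b2 hne
    obtain ⟨η, d1, d2⟩ := a11 _ (a8 p (a2.mem p c1) ξ b1) _ (a8 p (a2.mem p c1) ξ' b2)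
      (not_forall.1 fun h => c4 (Set.ext h))
    have d3 : η < p.2.α := by
      by_contra h
      exact d2 ⟨fun h' => absurd (p.2.t_sub _ (p.2.f_t _) h') h,
        fun h' => absurd (p.2.t_sub _ (p.2.f_t _) h') h⟩
    refine d2 ?_
    rw [← frc_iff a2 c1 c2 d3, ← frc_iff a2 c1 c3 d3]
    exact chi_inj a1 e d1 (d3.trans p.2.α_lt)

end Pool.Agent.P.MP_a5be26_lc
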