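import Pool.Agent.P.MP_a5be26_lc.Split

/-!
Continuous maps into the branches of thin trees have small range.
-/

open Filter Set Function Cardinal Ordinal

namespace Pool.Agent.P.MP_a5be26_lc

open Pool.Agent.Lib.Helper87

/-- the forcing -/
abbrev PP : Type 1 := Cc × Qc

theorem old_value {f x y : World PP → ZFSet.{0}} (hf : Named f) (hx : Named x) (hy : Named y)
    {p0 p : PP} {ξ : O} (h0 : Sem p0 fun w => w.Good (f w)) (hp0 : PIn p0 ξ) (hp : p ≤ p0)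
    (hξ : ∀ E ∈ Codes Qc 0, ∀ η < kk, ∀ γ < kk, ∀ q, (Sem q fun w => w.Phi (f w) E η γ) →
      Sem (pres q ξ) fun w => w.Phi (f w) E η γ)
    (hξ' : ∀ E ∈ Codes Qc 0, ∀ E' ∈ Codes Qc 0, ∀ q, (Sem q fun w => w.Compat E E') →
      Sem (pres q ξ) fun w => w.Compat E E')
    (h1 : Sem p fun w => ZFSet.pair (x w) (y w) ∈ f w) :
    ∃ q ≤ p, ∃ E ∈ Codes Qc ξ, Sem q fun w => w.rv E = y w := by
  by_contra hc
  push Not at hc
  have h2 := (h0.mono hp).and h1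
  obtain ⟨c, R, δ, a1, a2, a3, a4, a5⟩ := package ξ p.1 p.2
    (fun c R a q η => ∃ a' ≤ a, ∃ γ : Bool → O, γ false ≠ γ true ∧ ∀ i, ∃ u ∈ R, u ≤ q ∧
      ∃ E ∈ Codes Qc 0, (Sem ((a', u) : PP) fun w => w.Sub E (x w)) ∧
        Sem ((a', c) : PP) fun w => w.Phi (f w) E η (γ i))
    (fun c c' R R' a q η b1 b2 ⟨a', b3, γ, b4, b5⟩ => ⟨a', b3, γ, b4, fun i =>
      let ⟨u, c1, c2, E, c3, c4, c5⟩ := b5 i
      ⟨u, b2 c1, c2, E, c3, c4, c5.mono ⟨le_rfl, b1⟩⟩⟩)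
    fun c b1 q b2 b3 a b4 => by
      obtain ⟨s, c1, c2, -⟩ := Qc.amalg1 b1 b3
      have c3 : ((a, s) : PP) ≤ p := ⟨b4, c2.trans b2⟩
      obtain ⟨r, d1, η, d2, γ, d3, d4⟩ := split_code hf hx hy hξ (h2.mono c3) (hc _ c3)
      choose u d5 d6 E d7 d8 d9 using d4
      exact ⟨r.2, (d6 false).2.trans (Qc.res_le ((d5 false).2.trans c1) b1), Qc.inX_iff.2 d1,
        fun i => (u i).2, fun i => ⟨(d6 i).2, (d5 i).2.trans c3.2⟩, η, d2, r.1,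
        (d6 false).1.trans (d5 false).1, γ, d3, fun i => ⟨_, mem_range_self i,
          (d5 i).2.trans c2, E i, d7 i, (d8 i).mono ⟨(d6 i).1, le_rfl⟩, d9 i⟩⟩
  have a6 : ((p.1, c) : PP) ≤ p0 := le_trans (b := pres p ξ) ⟨le_rfl, (a3 _ a2).1⟩ (pres_le hp hp0)
  obtain ⟨b1, b2, e, b3, b4⟩ := Sem.exM (p := (p.1, c)) (Φ := fun e w => w.Num (f w) e δ)
    (fun e he => measurable_Num hf he δ)
    ((h0.mono a6).imp ((ev_const δ).mono fun w h h' => h'.2 δ h a1))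
  refine diag p_lb b3 b1 δ b4 R p.2 a2 a5
    (fun b u E => E ∈ Codes Qc 0 ∧ Sem ((b.1, u) : PP) fun w => w.Sub E (x w))
    (fun b b' u E h h' => ⟨h'.1, h'.2.mono ⟨h.1, le_rfl⟩⟩) (fun b u E h z hz => (h.1 hz).2)
    (fun b hb u u' E E' c1 c2 c3 c4 => ?_) fun b hb u hu => ?_
  · have c5 : ((b.1, u') : PP) ≤ p := ⟨(hb.trans b2).1, (a3 _ c1).2⟩
    refine (hξ' E c3.1 E' c4.1 (b.1, u') ?_).mono ⟨le_rfl, (hb.trans b2).2.trans (a3 _ c1).1⟩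
    refine (((h2.mono c5).and (c3.2.mono ⟨le_rfl, c2⟩)).and c4.2).imp'
      fun w h η d1 γ d2 γ' d3 d4 d5 => ?_
    exact (w.ord_inj d2 d3).1 (func_uniq (h.1.1.1.1 _ _ h.1.1.2).1.1 (h.1.2 η d1 γ d2 d4)
      (h.2 η d1 γ' d3 d5))
  · obtain ⟨η, c1, a', c2, γ, c3, c4⟩ := a4 u hu b.1 (hb.trans b2).1
    refine ⟨(a', b.2), ⟨c2, le_rfl⟩, η, c1, γ, c3, fun i => ?_⟩
    obtain ⟨u', d1, d2, E, d3, d4, d5⟩ := c4 i
    exact ⟨u', d1, d2, E, ⟨d3, d4⟩, d5.mono ⟨le_rfl, (hb.trans b2).2⟩⟩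

theorem ev_small_range : ∀ᶠ w in gen PP, ∀ f ∈ w.M, w.Good f → ∀ A : ZFSet.{0},
    (∀ y, y ∈ A ↔ ∃ x, ZFSet.pair x y ∈ f) → CardLE w.M A (w.ord kk) := by
  refine ev_all_named fun f hf => ?_
  have key : ∀ p0 : PP, (Sem p0 fun w => w.Good (f w)) → Sem p0 fun w => ∀ A : ZFSet.{0},
      (∀ y, y ∈ A ↔ ∃ x, ZFSet.pair x y ∈ f w) → CardLE w.M A (w.ord kk) := by
    intro p0 h0
    obtain ⟨ξ0, h1⟩ := exists_pin p0
    obtain ⟨ξ, h2, h3⟩ := sem_reflect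
      ((univ : Set Bool) ×ˢ Codes Qc 0 ×ˢ Codes Qc 0 ×ˢ Iio kk ×ˢ Iio kk)
      (Φ := fun j w => cond j.1 (w.Compat j.2.1 j.2.2.1) (w.Phi (f w) j.2.1 j.2.2.2.1 j.2.2.2.2))
      (fun j => by
        rcases j with ⟨_ | _, j⟩
        exacts [measurable_Phi hf _ _ _, measurable_Compat _ _]) ξ0
    have h4 : ∀ᶠ w in gen PP, ∀ x ∈ w.M, ∀ y ∈ w.M, w.Has p0 → ZFSet.pair x y ∈ f w →
        ∃ E, w.In E ∧ E ∈ Codes Qc ξ ∧ w.rv E = y := by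
      refine ev_all_named fun x hx => ev_all_named fun y hy => ?_
      refine sem_of_dense (p := p0) fun p hp => ?_
      obtain ⟨q, a1, a2 | a2⟩ := ((hx.pair hy).measurable_mem hf).decidesK p
      · obtain ⟨r, a3, E, a4, a5⟩ := old_value hf hx hy h0 (h1.mono h2) (a1.trans hp)
          (fun E hE η hη γ hγ => h3 (false, E, E, η, γ) ⟨trivial, hE, hE, hη, hγ⟩)
          (fun E hE E' hE' => h3 (true, E, E', 0, 0) ⟨trivial, hE, hE', kk_pos, kk_pos⟩) a2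
        exact ⟨r, a3.trans a1, a5.imp ((ev_const E).mono fun w b1 b2 _ => ⟨E, b1, a4, b2⟩)⟩
      · exact ⟨q, a1, a2.imp' fun w h h' => absurd h' h⟩
    filter_upwards [h4, ev_pair_M, hf.ev_mem, ev_le2 (Q := Qc) named_rv
      (Ψ := fun E w => ∃ x ∈ w.M, ZFSet.pair x (w.rv E) ∈ f w)
      (fun E => measurable_exM (Φ := fun x w => ZFSet.pair x (w.rv E) ∈ f w) fun x hx =>
        (hx.pair (named_rv E)).measurable_mem hf) (Codes Qc ξ)] with w a1 a2 a3 a4 a5 A hA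
    refine a4 A fun y => (hA y).trans ⟨fun ⟨x, h⟩ => ?_, ?_⟩
    · obtain ⟨b1, b2⟩ := a2 _ a3 x y h
      obtain ⟨E, c1, c2, rfl⟩ := a1 x b1 y b2 a5 h
      exact ⟨E, c1, ⟨c2, x, b1, h⟩, rfl⟩
    · rintro ⟨E, -, ⟨-, x, -, h⟩, rfl⟩
      exact ⟨x, h⟩
  filter_upwards [ev_forced (measurable_Good hf), ev_sem fun w : World PP => ∀ A : ZFSet.{0},
    (∀ y, y ∈ A ↔ ∃ x, ZFSet.pair x y ∈ f w) → CardLE w.M A (w.ord kk)] with w h1 h2 h3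
  obtain ⟨p, a1, a2⟩ := h1 h3
  exact h2 p (w.has_of_mem a1) (key p a2)

theorem ev_main : ∀ᶠ w in gen PP, ∀ T, Thin w.M (w.ord ω₁) (w.ord kk) T → ∀ f ∈ w.M,
    ZFSet.IsFunc (baire w.M (w.ord kk)) (branches w.M (w.ord kk) T) f → Cont (w.ord kk) f →
    CardLE w.M (rng (branches w.M (w.ord kk) T) f) (w.ord kk) := by
  filter_upwards [ev_small_range, ev_good] with w h1 h2 T a1 f a2 a3 a4
  exact h1 f a2 (h2 T f a1 a3 a4) _ fun y => ZFSet.mem_sep.trans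
    ⟨fun h => h.2, fun ⟨x, h⟩ => ⟨(ZFSet.pair_mem_prod.1 (a3.1 h)).2, x, h⟩⟩

end Pool.Agent.P.MP_a5be26_lc
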