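import Pool.Agent.P.MP_a5be26_lc.Sem
import Pool.Agent.P.MP_a5be26_lc.Defs

/-!
Comprehension terms, ordinals and cardinal comparisons in the extension.
-/

open Filter Set Function

namespace Pool.Agent.P.MP_a5be26_lc

open Pool.Agent.Lib.Helper87

/-- the ordinals below the inaccessible cardinal -/
abbrev O : Type 1 := Ordinal.{0}

variable {P : Type 1}

/-- the set of all `a i` with `i` in `N` and `Φ i` -/
noncomputable def World.coll (w : World P) {I : Type 1} (Φ : I → Prop) (a : I → ZFSet.{0}) :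
    ZFSet.{0} := ZFSet.range fun i : {i : I // w.In i ∧ Φ i} => a i.1

theorem World.mem_coll (w : World P) {I : Type 1} {Φ : I → Prop} {a : I → ZFSet.{0}}
    {z : ZFSet.{0}} : z ∈ w.coll Φ a ↔ ∃ i, w.In i ∧ Φ i ∧ a i = z := by
  simp [World.coll, and_assoc]

/-- the collapse of the ordinals -/
noncomputable def World.ord (w : World P) : O → ZFSet.{0} :=
  (wellFounded_lt (α := O)).fix fun a f =>
    ZFSet.range fun b : {b : Iio a // w.In b.1 ∧ True} =>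
      f b.1 b.1.2

/-- the collapse of the inaccessible cardinal -/
noncomputable def World.ordTop (w : World P) : ZFSet.{0} := w.coll (fun _ => True) w.ord

theorem World.mem_ord (w : World P) {a : O} {z : ZFSet.{0}} :
    z ∈ w.ord a ↔ ∃ b, w.In b ∧ b < a ∧ w.ord b = z := by
  rw [World.ord, WellFounded.fix_eq]
  simp only [ZFSet.mem_range, Subtype.exists, mem_Iio, exists_prop]
  constructor
  · rintro ⟨b, h1, h2, rfl⟩
    exact ⟨b, h2.1, h1, rfl⟩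
  · rintro ⟨b, h1, h2, rfl⟩
    exact ⟨b, h2, ⟨h1, trivial⟩, rfl⟩

theorem World.mem_ordTop (w : World P) {z : ZFSet.{0}} :
    z ∈ w.ordTop ↔ ∃ b : O, w.In b ∧ w.ord b = z := by
  simp [World.ordTop, w.mem_coll]

theorem World.lt_of_ord_mem (w : World P) {a b : O} (h : w.ord b ∈ w.ord a) : b < a := by
  obtain ⟨c, h1, h2, h3⟩ := w.mem_ord.1 h
  by_contra hc
  exact ZFSet.mem_irrefl (w.ord b) (w.mem_ord.2 ⟨c, h1, h2.trans_le (not_lt.1 hc), h3⟩)

theorem World.ord_mem (w : World P) {a b : O} (hb : w.In b) (h : b < a) : w.ord b ∈ w.ord a :=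
  w.mem_ord.2 ⟨b, hb, h, rfl⟩

theorem World.ord_inj (w : World P) {a b : O} (ha : w.In a) (hb : w.In b) :
    w.ord a = w.ord b ↔ a = b := by
  refine ⟨fun h => ?_, fun h => h ▸ rfl⟩
  rcases lt_trichotomy a b with h' | h' | h'
  · exact absurd (w.mem_ord.2 ⟨a, ha, h', h⟩) (ZFSet.mem_irrefl (w.ord b))
  · exact h'
  · exact absurd (w.mem_ord.2 ⟨b, hb, h', h.symm⟩) (ZFSet.mem_irrefl (w.ord a))

theorem World.ord_trans (w : World P) (a : O) : (w.ord a).IsTransitive := by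
  intro y hy z hz
  obtain ⟨b, -, h1, rfl⟩ := w.mem_ord.1 hy
  obtain ⟨c, h2, h3, rfl⟩ := w.mem_ord.1 hz
  exact w.mem_ord.2 ⟨c, h2, h3.trans h1, rfl⟩

theorem World.isOrdinal_ord (w : World P) (a : O) : (w.ord a).IsOrdinal := by
  refine ZFSet.isOrdinal_iff_forall_mem_isTransitive.2 ⟨w.ord_trans a, fun y hy => ?_⟩
  obtain ⟨b, -, -, rfl⟩ := w.mem_ord.1 hy
  exact w.ord_trans b

theorem World.isOrdinal_ordTop (w : World P) : w.ordTop.IsOrdinal := by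
  refine ZFSet.isOrdinal_iff_forall_mem_isTransitive.2 ⟨fun y hy z hz => ?_, fun y hy => ?_⟩
  · obtain ⟨b, -, rfl⟩ := w.mem_ordTop.1 hy
    obtain ⟨c, h2, -, rfl⟩ := w.mem_ord.1 hz
    exact w.mem_ordTop.2 ⟨c, h2, rfl⟩
  · obtain ⟨b, -, rfl⟩ := w.mem_ordTop.1 hy
    exact w.ord_trans b

/-- the pair of two ordinals -/
noncomputable def World.pr (w : World P) (a b : O) : ZFSet.{0} := ZFSet.pair (w.ord a) (w.ord b)

theorem World.pr_inj (w : World P) {a b c d : O} (ha : w.In a) (hb : w.In b) (hc : w.In c)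
    (hd : w.In d) : w.pr a b = w.pr c d ↔ a = c ∧ b = d := by
  rw [World.pr, World.pr, ZFSet.pair_inj, w.ord_inj ha hc, w.ord_inj hb hd]

theorem func_mem {w : World P} {a b : O} {x z : ZFSet.{0}} (h : ZFSet.IsFunc (w.ord a) (w.ord b) x)
    (hz : z ∈ x) : ∃ η γ, w.In η ∧ w.In γ ∧ η < a ∧ γ < b ∧ w.pr η γ = z := by
  obtain ⟨u, hu, v, hv, rfl⟩ := ZFSet.mem_prod.1 (h.1 hz)
  obtain ⟨η, a1, a2, rfl⟩ := w.mem_ord.1 hu
  obtain ⟨γ, b1, b2, rfl⟩ := w.mem_ord.1 hv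
  exact ⟨η, γ, a1, b1, a2, b2, rfl⟩

theorem func_uniq {A B x a b b' : ZFSet.{0}} (h : ZFSet.IsFunc A B x) (h1 : ZFSet.pair a b ∈ x)
    (h2 : ZFSet.pair a b' ∈ x) : b = b' :=
  (h.2 a (ZFSet.pair_mem_prod.1 (h.1 h1)).1).unique h1 h2

theorem func_val {w : World P} {A x u : ZFSet.{0}} {b : O} (h : ZFSet.IsFunc A (w.ord b) x)
    (hu : u ∈ A) : ∃ γ, w.In γ ∧ γ < b ∧ ZFSet.pair u (w.ord γ) ∈ x := by
  obtain ⟨v, hv, -⟩ := h.2 u hu
  obtain ⟨γ, b1, b2, rfl⟩ := w.mem_ord.1 (ZFSet.pair_mem_prod.1 (h.1 hv)).2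
  exact ⟨γ, b1, b2, hv⟩

theorem isFunc_mk {w : World P} {a b : O} {x : ZFSet.{0}}
    (h1 : ∀ z ∈ x, ∃ η γ, w.In η ∧ w.In γ ∧ η < a ∧ γ < b ∧ w.pr η γ = z)
    (h2 : ∀ η, w.In η → η < a → ∃ γ, w.pr η γ ∈ x)
    (h3 : ∀ η γ γ', w.In η → w.In γ → w.In γ' → w.pr η γ ∈ x → w.pr η γ' ∈ x → γ = γ') :
    ZFSet.IsFunc (w.ord a) (w.ord b) x := by
  refine ⟨fun z hz => ?_, fun z hz => ?_⟩
  · obtain ⟨η, γ, a1, a2, a3, a4, rfl⟩ := h1 z hz
    exact ZFSet.pair_mem_prod.2 ⟨w.ord_mem a1 a3, w.ord_mem a2 a4⟩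
  · obtain ⟨η, a1, a2, rfl⟩ := w.mem_ord.1 hz
    obtain ⟨γ, b1⟩ := h2 η a1 a2
    have key : ∀ y, ZFSet.pair (w.ord η) y ∈ x → ∃ γ', w.In γ' ∧ w.ord γ' = y := fun y hy => by
      obtain ⟨η', γ', -, c2, -, -, c3⟩ := h1 _ hy
      exact ⟨γ', c2, (ZFSet.pair_inj.1 c3).2⟩
    refine ⟨w.ord γ, b1, fun y hy => ?_⟩
    obtain ⟨γ1, c1, rfl⟩ := key y hy
    obtain ⟨γ2, c2, c3⟩ := key _ b1
    rw [← c3, h3 η γ1 γ2 a1 c1 c2 hy (by rw [World.pr, c3]; exact b1)]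

variable [Preorder P]

theorem named_coll {I : Type 1} {a : I → World P → ZFSet.{0}} (ha : ∀ i, Named (a i))
    {Φ : I → World P → Prop} (hΦ : ∀ i, Measurable (Φ i)) :
    Named fun w => w.coll (fun i => Φ i w) fun i => a i w :=
  named_of_mem_iff ha hΦ (Eventually.of_forall fun w _ => w.mem_coll)

theorem named_ord (a : O) : Named fun w : World P => w.ord a := by
  induction a using WellFoundedLT.induction with
  | ind a ih =>
  refine named_of_mem_iff (I := Iio a) (x := fun b w => w.ord b.1) (fun b => ih b.1 b.2)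
    (Φ := fun _ _ => True) (fun _ => measurable_const) ?_
  filter_upwards [ev_in_subtype (· ∈ Iio a)] with w h z
  rw [w.mem_ord]
  constructor
  · rintro ⟨b, h1, h2, rfl⟩
    exact ⟨⟨b, h2⟩, (h ⟨b, h2⟩).2 h1, trivial, rfl⟩
  · rintro ⟨b, h1, -, rfl⟩
    exact ⟨b, (h b).1 h1, b.2, rfl⟩

theorem named_ordTop : Named fun w : World P => w.ordTop :=
  named_coll (Φ := fun _ _ => True) named_ord fun _ => measurable_const

theorem named_pr (a b : O) : Named fun w : World P => w.pr a b := (named_ord a).pair (named_ord b)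

theorem ev_ord_omega : ∀ᶠ w in gen P, w.ord Ordinal.omega0 = ZFSet.omega := by
  filter_upwards [ev_call fun n : ℕ => ev_const (P := P) (n : O)] with w h
  have key : ∀ n : ℕ, w.ord (n : O) = ZFSet.mk (PSet.ofNat n) := by
    intro n
    induction n with
    | zero =>
      refine (ZFSet.eq_empty _).2 fun z hz => ?_
      obtain ⟨b, -, h, -⟩ := w.mem_ord.1 hz
      simp at h
    | succ n ih =>
      change _ = insert (ZFSet.mk (PSet.ofNat n)) (ZFSet.mk (PSet.ofNat n))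
      rw [← ih]
      ext z
      rw [ZFSet.mem_insert_iff, w.mem_ord, w.mem_ord]
      have e : ∀ b : O, b < ((n + 1 : ℕ) : O) ↔ b ≤ n := fun b => by
        rw [Nat.cast_succ]; exact Order.lt_add_one_iff
      constructor
      · rintro ⟨b, b1, b2, rfl⟩
        rcases ((e b).1 b2).eq_or_lt with rfl | h
        exacts [Or.inl rfl, Or.inr ⟨b, b1, h, rfl⟩]
      · rintro (rfl | ⟨b, b1, b2, rfl⟩)
        exacts [⟨n, h n, (e _).2 le_rfl, rfl⟩, ⟨b, b1, (e _).2 b2.le, rfl⟩]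
  ext z
  rw [w.mem_ord, mem_omega_iff]
  constructor
  · rintro ⟨b, -, b2, rfl⟩
    obtain ⟨n, rfl⟩ := Ordinal.lt_omega0.1 b2
    exact ⟨n, (key n).symm⟩
  · rintro ⟨n, rfl⟩
    exact ⟨n, h n, Ordinal.natCast_lt_omega0 n, key n⟩

theorem measurable_allM {Φ : ZFSet.{0} → World P → Prop}
    (h : ∀ x, Named x → Measurable fun w => Φ (x w) w) :
    Measurable fun w : World P => ∀ x ∈ w.M, Φ x w := by
  refine (measurable_all_in fun σ : Name P => h _ (named_val σ)).congr_evK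
    (Eventually.of_forall fun w => ⟨fun H σ hσ => H _ ⟨σ, hσ, rfl⟩, ?_⟩)
  rintro H _ ⟨σ, hσ, rfl⟩
  exact H σ hσ

theorem measurable_exM {Φ : ZFSet.{0} → World P → Prop}
    (h : ∀ x, Named x → Measurable fun w => Φ (x w) w) :
    Measurable fun w : World P => ∃ x ∈ w.M, Φ x w := by
  have := (measurable_allM (Φ := fun x w => ¬ Φ x w) fun x hx => (h x hx).not).not
  simpa using this

theorem Sem.exM {p : P} {Φ : ZFSet.{0} → World P → Prop}
    (hΦ : ∀ x, Named x → Measurable fun w => Φ (x w) w) (h : Sem p fun w => ∃ x ∈ w.M, Φ x w) :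
    ∃ q ≤ p, ∃ x, Named x ∧ Sem q fun w => Φ (x w) w := by
  obtain ⟨q, hq, σ, h⟩ := Sem.ex_in (Φ := fun (σ : Name P) w => Φ (w.val σ) w)
    (fun σ => hΦ _ (named_val σ)) (h.imp' fun w ⟨_, ⟨σ, h1, h2⟩, h3⟩ => ⟨σ, h1, h2 ▸ h3⟩)
  exact ⟨q, hq, _, named_val σ, h⟩

theorem ev_pair_M : ∀ᶠ w in gen P, ∀ f ∈ w.M, ∀ a b, ZFSet.pair a b ∈ f → a ∈ w.M ∧ b ∈ w.M := by
  filter_upwards [ev_trans] with w h f hf a b hab
  have h1 := h _ (h f hf _ hab) {a, b} (by simp [ZFSet.pair])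
  exact ⟨h _ h1 a (by simp), h _ h1 b (by simp)⟩

/-- quantification over the pairs in a named set -/
theorem measurable_allPair {f : World P → ZFSet.{0}} (hf : Named f)
    {Φ : ZFSet.{0} → ZFSet.{0} → World P → Prop}
    (h : ∀ x, Named x → ∀ y, Named y → Measurable fun w => Φ (x w) (y w) w) :
    Measurable fun w : World P => ∀ x y, ZFSet.pair x y ∈ f w → Φ x y w := by
  refine (measurable_allM (Φ := fun x w => ∀ y ∈ w.M, ZFSet.pair x y ∈ f w → Φ x y w)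
    fun x hx => measurable_allM (Φ := fun y w => ZFSet.pair (x w) y ∈ f w → Φ (x w) y w)
      fun y hy => ((hx.pair hy).measurable_mem hf).imp (h x hx y hy)).congr_evK ?_
  filter_upwards [ev_pair_M, hf.ev_mem] with w h1 h2
  exact ⟨fun H x _ y _ => H x y, fun H x y hxy =>
    H x (h1 _ h2 x y hxy).1 y (h1 _ h2 x y hxy).2 hxy⟩

theorem measurable_allMem {A : World P → ZFSet.{0}} (hA : Named A)
    {Φ : ZFSet.{0} → World P → Prop} (h : ∀ x, Named x → Measurable fun w => Φ (x w) w) :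
    Measurable fun w : World P => ∀ x ∈ A w, Φ x w := by
  refine (measurable_allM (Φ := fun x w => x ∈ A w → Φ x w)
    fun x hx => (hx.measurable_mem hA).imp (h x hx)).congr_evK ?_
  filter_upwards [ev_trans, hA.ev_mem] with w h1 h2
  exact ⟨fun H x _ => H x, fun H x hx => H x (h1 _ h2 x hx) hx⟩

theorem measurable_exSnd {f x : World P → ZFSet.{0}} (hf : Named f) (hx : Named x)
    {Φ : ZFSet.{0} → World P → Prop} (h : ∀ y, Named y → Measurable fun w => Φ (y w) w) :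
    Measurable fun w : World P => ∃ y, ZFSet.pair (x w) y ∈ f w ∧ Φ y w := by
  refine (measurable_exM (Φ := fun y w => ZFSet.pair (x w) y ∈ f w ∧ Φ y w)
    fun y hy => ((hx.pair hy).measurable_mem hf).and (h y hy)).congr_evK ?_
  filter_upwards [ev_pair_M, hf.ev_mem] with w h1 h2
  exact ⟨fun ⟨y, a, b⟩ => ⟨y, (h1 _ h2 _ _ a).2, a, b⟩, fun ⟨y, _, a, b⟩ => ⟨y, a, b⟩⟩

theorem measurable_isFunc {A B x : World P → ZFSet.{0}} (hA : Named A) (hB : Named B)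
    (hx : Named x) : Measurable fun w => ZFSet.IsFunc (A w) (B w) (x w) := by
  have h1 : Measurable fun w => ∀ z ∈ x w, ∃ a ∈ w.M, ∃ b ∈ w.M,
      a ∈ A w ∧ b ∈ B w ∧ z = ZFSet.pair a b :=
    measurable_allMem hx fun z hz => measurable_exM
      (Φ := fun a w => ∃ b ∈ w.M, a ∈ A w ∧ b ∈ B w ∧ z w = ZFSet.pair a b) fun a ha =>
        measurable_exM (Φ := fun b w => a w ∈ A w ∧ b ∈ B w ∧ z w = ZFSet.pair (a w) b)
          fun b hb => (ha.measurable_mem hA).and ((hb.measurable_mem hB).and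
            (hz.measurable_eq (ha.pair hb)))
  have h2 : Measurable fun w => ∀ a ∈ A w, ∃ b, ZFSet.pair a b ∈ x w ∧
      ∀ a' b', ZFSet.pair a' b' ∈ x w → a' = a → b' = b :=
    measurable_allMem hA fun a ha => measurable_exSnd hx ha
      (Φ := fun b w => ∀ a' b', ZFSet.pair a' b' ∈ x w → a' = a w → b' = b) fun b hb =>
        measurable_allPair hx (Φ := fun a' b' w => a' = a w → b' = b w) fun a' ha' b' hb' =>
          (ha'.measurable_eq ha).imp (hb'.measurable_eq hb)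
  refine (h1.and h2).congr_evK ?_
  filter_upwards [ev_trans, hA.ev_mem, hB.ev_mem] with w c1 c2 c3
  constructor
  · intro h
    refine ⟨fun z hz => ?_, fun a ha => ?_⟩
    · obtain ⟨a, a1, b, a2, rfl⟩ := ZFSet.mem_prod.1 (h.1 hz)
      exact ⟨a, c1 _ c2 _ a1, b, c1 _ c3 _ a2, a1, a2, rfl⟩
    · obtain ⟨b, b1, b2⟩ := h.2 a ha
      exact ⟨b, b1, fun a' b' d1 d2 => b2 b' (d2 ▸ d1)⟩
  · rintro ⟨h1, h2⟩
    refine ⟨fun z hz => ?_, fun a ha => ?_⟩
    · obtain ⟨a, -, b, -, a1, a2, rfl⟩ := h1 z hz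
      exact ZFSet.pair_mem_prod.2 ⟨a1, a2⟩
    · obtain ⟨b, b1, b2⟩ := h2 a ha
      exact ⟨b, b1, fun b' d => b2 a b' d rfl⟩

theorem ev_cardLE {I : Type 1} {a b : I → World P → ZFSet.{0}} (ha : ∀ i, Named (a i))
    (hb : ∀ i, Named (b i)) {Φ : I → World P → Prop} (hΦ : ∀ i, Measurable (Φ i)) :
    ∀ᶠ w in gen P, ∀ A B : ZFSet.{0}, (∀ z ∈ A, ∃ i, w.In i ∧ Φ i w ∧ a i w = z) →
      (∀ i, w.In i → Φ i w → a i w ∈ A ∧ b i w ∈ B) →
      (∀ i j, w.In i → w.In j → Φ i w → Φ j w → (a i w = a j w ↔ b i w = b j w)) →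
      CardLE w.M A B := by
  let f : World P → ZFSet.{0} := fun w =>
    w.coll (fun i => Φ i w) fun i => ZFSet.pair (a i w) (b i w)
  have hf : ∀ w z, z ∈ f w ↔ ∃ i, w.In i ∧ Φ i w ∧ ZFSet.pair (a i w) (b i w) = z :=
    fun w z => w.mem_coll
  have h1 : Named f := named_coll (fun i => (ha i).pair (hb i)) hΦ
  filter_upwards [h1.ev_mem] with w h2 A B c1 c2 c3
  refine ⟨f w, h2, ⟨fun z hz => ?_, fun z hz => ?_⟩, fun x x' y d1 d2 => ?_⟩
  · obtain ⟨i, d1, d2, rfl⟩ := (hf w z).1 hz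
    exact ZFSet.pair_mem_prod.2 (c2 i d1 d2)
  · obtain ⟨i, d1, d2, rfl⟩ := c1 z hz
    refine ⟨b i w, (hf w _).2 ⟨i, d1, d2, rfl⟩, fun y hy => ?_⟩
    obtain ⟨j, e1, e2, e3⟩ := (hf w _).1 hy
    rw [ZFSet.pair_inj] at e3
    exact e3.2.symm.trans ((c3 j i e1 d1 e2 d2).1 e3.1)
  · obtain ⟨i, e1, e2, e3⟩ := (hf w _).1 d1
    obtain ⟨j, e4, e5, e6⟩ := (hf w _).1 d2
    rw [ZFSet.pair_inj] at e3 e6
    exact e3.1.symm.trans (((c3 i j e1 e4 e2 e5).2 (e3.2.trans e6.2.symm)).trans e6.1)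

/-- a family whose index set is mapped injectively below `b` by a named relation -/
theorem ev_cover {I : Type 1} {a : I → World P → ZFSet.{0}} (ha : ∀ i, Named (a i))
    {Ψ : I → World P → Prop} (hΨ : ∀ i, Measurable (Ψ i)) {R : I → O → World P → Prop}
    (hR : ∀ i γ, Measurable (R i γ)) (b : O) :
    ∀ᶠ w in gen P, ∀ A : ZFSet.{0}, (∀ z, z ∈ A ↔ ∃ i, w.In i ∧ Ψ i w ∧ a i w = z) →
      (∀ i, w.In i → Ψ i w → ∃ γ, w.In γ ∧ γ < b ∧ R i γ w) →
      (∀ i j γ, w.In i → w.In j → Ψ i w → Ψ j w → R i γ w → R j γ w → i = j) →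
      CardLE w.M A (w.ord b) := by
  filter_upwards [ev_cardLE (I := I × O) (a := fun z => a z.1) (fun z => ha z.1)
    (b := fun z w => w.ord z.2) (fun z => named_ord z.2)
    (Φ := fun z w => Ψ z.1 w ∧ z.2 < b ∧ R z.1 z.2 w ∧ ∀ u : I × O, w.In u → u.2 < z.2 →
      Ψ u.1 w → R u.1 u.2 w → a u.1 w ≠ a z.1 w) fun z =>
      (hΨ _).and (measurable_const.and ((hR _ _).and (measurable_all_in fun u =>
        measurable_const.imp ((hΨ _).imp ((hR _ _).imp ((ha _).measurable_eq (ha _)).not))))),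
    ev_in_prod I O] with w h hp A hA h1 h2
  refine h A _ (fun z hz => ?_) (fun u b1 b2 => ⟨(hA _).2 ⟨u.1, ((hp u).1 b1).1, b2.1, rfl⟩,
    w.ord_mem ((hp u).1 b1).2 b2.2.1⟩) fun u v b1 c1 b2 c2 => ?_
  · obtain ⟨i, a1, a2, rfl⟩ := (hA z).1 hz
    obtain ⟨γ, a3, a4, a5⟩ := h1 i a1 a2
    obtain ⟨δ, ⟨j, b1, b2, b3, b4, b5⟩, b6⟩ := (wellFounded_lt (α := O)).has_min
      {γ | ∃ j, w.In (j, γ) ∧ Ψ j w ∧ γ < b ∧ R j γ w ∧ a j w = a i w}
      ⟨γ, i, (hp (i, γ)).2 ⟨a1, a3⟩, a2, a4, a5, rfl⟩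
    exact ⟨(j, δ), b1, ⟨b2, b3, b4, fun u c1 c2 c3 c4 c5 =>
      b6 u.2 ⟨u.1, c1, c3, c2.trans b3, c4, c5.trans b5⟩ c2⟩, b5⟩
  · rw [w.ord_inj ((hp u).1 b1).2 ((hp v).1 c1).2]
    constructor
    · intro e
      rcases lt_trichotomy u.2 v.2 with h' | h' | h'
      · exact absurd e (c2.2.2.2 u b1 h' b2.1 b2.2.2.1)
      · exact h'
      · exact absurd e.symm (b2.2.2.2 v c1 h' c2.1 c2.2.2.1)
    · intro e
      rw [h2 u.1 v.1 u.2 ((hp u).1 b1).1 ((hp v).1 c1).1 b2.1 c2.1 b2.2.2.1 (e ▸ c2.2.2.1)]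

/-- composition of injections between ordinals -/
theorem ev_cardLE_trans (b : O) : ∀ᶠ w in gen P, ∀ B, CardLE w.M w.ordTop B →
    CardLE w.M B (w.ord b) → CardLE w.M w.ordTop (w.ord b) := by
  have key : ∀ᶠ w in gen P, ∀ f ∈ w.M, ∀ g ∈ w.M, ∀ B, ZFSet.IsFunc w.ordTop B f →
      (∀ x x' y, ZFSet.pair x y ∈ f → ZFSet.pair x' y ∈ f → x = x') →
      ZFSet.IsFunc B (w.ord b) g →
      (∀ x x' y, ZFSet.pair x y ∈ g → ZFSet.pair x' y ∈ g → x = x') →
      CardLE w.M w.ordTop (w.ord b) := by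
    refine ev_all_named fun f hf => ev_all_named fun g hg => ?_
    filter_upwards [ev_cover (I := O) (a := fun i w => w.ord i) named_ord (Ψ := fun _ _ => True)
      (fun _ => measurable_const)
      (R := fun i γ w => ∃ y, ZFSet.pair (w.ord i) y ∈ f w ∧ ZFSet.pair y (w.ord γ) ∈ g w)
      (fun i γ => measurable_exSnd hf (named_ord i)
        (Φ := fun y w => ZFSet.pair y (w.ord γ) ∈ g w) fun y hy =>
          (hy.pair (named_ord γ)).measurable_mem hg) b] with w h B a1 a2 a3 a4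
    refine h _ (fun z => w.mem_coll) (fun i hi _ => ?_) fun i j γ hi hj _ _ ⟨y, b1, b2⟩
      ⟨y', b3, b4⟩ => ?_
    · obtain ⟨y, hy, -⟩ := a1.2 _ (w.mem_ordTop.2 ⟨i, hi, rfl⟩)
      obtain ⟨γ, c1, c2, c3⟩ := func_val a3 (ZFSet.pair_mem_prod.1 (a1.1 hy)).2
      exact ⟨γ, c1, c2, y, hy, c3⟩
    · rw [a4 _ _ _ b2 b4] at b1
      exact (w.ord_inj hi hj).1 (a2 _ _ _ b1 b3)
  filter_upwards [key] with w h B ⟨f, a1, a2, a3⟩ ⟨g, b1, b2, b3⟩
  exact h f a1 g b1 B a2 a3 b2 b3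

/-- a combinatorial criterion for the non-existence of an injection -/
theorem ev_not_le {A : World P → ZFSet.{0}} (hA : Named A) (dom : O → Prop)
    (hd : ∀ w η, w.In η → dom η → w.ord η ∈ A w) (b : O)
    (H : ∀ (p : P) (V : P → O → O → Prop), (∀ q r η γ, r ≤ q → V q η γ → V r η γ) →
      (∀ η, dom η → ∀ q ≤ p, ∃ r ≤ q, ∃ γ < b, V r η γ) →
      (∀ q ≤ p, ∀ η η' γ, V q η γ → V q η' γ → η = η') → False) :
    ∀ᶠ w in gen P, ¬ CardLE w.M (A w) (w.ord b) := by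
  have key : ∀ᶠ w in gen P, ∀ e ∈ w.M, ¬ (ZFSet.IsFunc (A w) (w.ord b) e ∧
      ∀ x y, ZFSet.pair x y ∈ e → ∀ x' y', ZFSet.pair x' y' ∈ e → y = y' → x = x') := by
    refine ev_all_named fun e he => ?_
    have hm : Measurable fun w => ZFSet.IsFunc (A w) (w.ord b) (e w) ∧
        ∀ x y, ZFSet.pair x y ∈ e w → ∀ x' y', ZFSet.pair x' y' ∈ e w → y = y' → x = x' :=
      (measurable_isFunc hA (named_ord b) he).and (measurable_allPair he
        (Φ := fun x y w => ∀ x' y', ZFSet.pair x' y' ∈ e w → y = y' → x = x') fun x hx y hy =>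
          measurable_allPair he (Φ := fun x' y' w => y w = y' → x w = x') fun x' hx' y' hy' =>
            (hy.measurable_eq hy').imp (hx.measurable_eq hx'))
    filter_upwards [ev_forced hm] with w hw hc
    obtain ⟨p, -, hp⟩ := hw hc
    refine H p (fun q η γ => Sem q fun w => w.pr η γ ∈ e w) (fun q r η γ h h' => h'.mono h)
      (fun η hη q hq => ?_) fun q hq η η' γ h1 h2 => ?_
    · obtain ⟨r, hr, γ, h⟩ := Sem.ex_in (p := q)
        (Φ := fun (γ : O) w => γ < b ∧ w.pr η γ ∈ e w)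
        (fun γ => measurable_const.and ((named_pr η γ).measurable_mem he))
        ((hp.mono hq).imp ((ev_const η).mono fun w a1 a2 => func_val a2.1 (hd w η a1 hη)))
      obtain ⟨w, -, a1, -⟩ := h.exists (ev_const η)
      exact ⟨r, hr, γ, a1.1, h.imp' fun _ h => h.2⟩
    · obtain ⟨w, -, a1, a2, a3⟩ := (((hp.mono hq).and h1).and h2).exists
        ((ev_const η).and (ev_const η'))
      exact (w.ord_inj a2 a3).1 (a1.1.1.2 _ _ a1.1.2 _ _ a1.2 rfl)
  filter_upwards [key] with w h ⟨e, a1, a2, a3⟩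
  exact h e a1 ⟨a2, fun x y b1 x' y' b2 b3 => a3 x x' y b1 (b3 ▸ b2)⟩

end Pool.Agent.P.MP_a5be26_lc
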