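import Pool.Agent.P.MP_a5be26_lc.ZFC

/-!
Semantic forcing. A property of worlds is measurable when the conditions deciding it are dense.
A family of sets is named when some name evaluates to it.
-/

open Filter Set

namespace Pool.Agent.P.MP_a5be26_lc

open Pool.Agent.Lib.Helper87

universe v

variable {P : Type 1} [Preorder P]

/-- `G` contains a condition below `p` -/
def World.Has (w : World P) (p : P) : Prop := ∃ q ∈ w.G, q ≤ p

theorem World.Has.mono {w : World P} {p q : P} (h : w.Has p) (hq : p ≤ q) : w.Has q :=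
  let ⟨r, h1, h2⟩ := h; ⟨r, h1, h2.trans hq⟩

theorem World.has_of_mem {w : World P} {p : P} (h : p ∈ w.G) : w.Has p := ⟨p, h, le_rfl⟩

theorem World.Generic.has_and {w : World P} (hw : w.Generic) {p q : P} (h1 : w.Has p)
    (h2 : w.Has q) : ∃ r ∈ w.G, r ≤ p ∧ r ≤ q := by
  obtain ⟨a, a1, a2⟩ := h1
  obtain ⟨b, b1, b2⟩ := h2
  obtain ⟨r, c1, c2, c3⟩ := hw.dir a a1 b b1
  exact ⟨r, c1, c2.trans a2, c3.trans b2⟩

/-- `p` forces `Φ` -/
def Sem (p : P) (Φ : World P → Prop) : Prop := ∀ᶠ w in gen P, w.Has p → Φ w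

variable {p q : P} {Φ Ψ : World P → Prop}

theorem Sem.mono (h : Sem p Φ) (hq : q ≤ p) : Sem q Φ :=
  Eventually.mono h fun _ h1 h2 => h1 (h2.mono hq)

theorem Sem.imp (h : Sem p Φ) (h' : ∀ᶠ w in gen P, Φ w → Ψ w) : Sem p Ψ := by
  filter_upwards [h, h'] with w h1 h2 h3 using h2 (h1 h3)

theorem Sem.imp' (h : Sem p Φ) (h' : ∀ w, Φ w → Ψ w) : Sem p Ψ := h.imp (Eventually.of_forall h')

theorem Sem.and (h : Sem p Φ) (h' : Sem p Ψ) : Sem p fun w => Φ w ∧ Ψ w := by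
  filter_upwards [h, h'] with w h1 h2 h3 using ⟨h1 h3, h2 h3⟩

theorem sem_of_ev (h : ∀ᶠ w in gen P, Φ w) (p : P) : Sem p Φ := h.mono fun _ h _ => h

theorem sem_has (p : P) : Sem p fun w => w.Has p := Eventually.of_forall fun _ h => h

theorem sem_frc {D : P → Prop} (hD : ∀ p q, q ≤ p → D p → D q) (h : D p) :
    Sem p fun w => w.Frc D :=
  Eventually.of_forall fun _ ⟨q, h1, h2⟩ => ⟨q, h1, hD _ _ h2 h⟩

theorem exists_generic_has (p0 : P) :
    ∀ᶠ N in club, ∃ w : World P, w.N = N ∧ w.Generic ∧ p0 ∈ w.G := by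
  have h1 : ∀ᶠ N in club, ∀ D : Set P, emb D ∈ N → ∀ p : P, emb p ∈ N →
      (∃ q ∈ D, q ≤ p) → ∃ q, emb q ∈ N ∧ q ∈ D ∧ q ≤ p := by
    refine club_all fun D => club_all fun p => ?_
    by_cases h : ∃ q ∈ D, q ≤ p
    · obtain ⟨q, h1, h2⟩ := h
      exact (club_const q).mono fun N hN _ => ⟨q, hN, h1, h2⟩
    · exact Eventually.of_forall fun _ h' => absurd h' h
  filter_upwards [h1, club_const p0, club_const (univ : Set P), club_countable] with N h1 h2 h3 h4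
  have hc : {D : Set P | emb D ∈ N ∧ ∀ p, ∃ q ∈ D, q ≤ p}.Countable :=
    (countable_emb_mem h4).mono fun D hD => hD.1
  obtain ⟨f, hf⟩ := hc.exists_eq_range ⟨univ, h3, fun p => ⟨p, mem_univ _, le_rfl⟩⟩
  have hfn : ∀ n, emb (f n) ∈ N ∧ ∀ p, ∃ q ∈ f n, q ≤ p := fun n => by
    have : f n ∈ range f := mem_range_self n
    rwa [← hf] at this
  have step : ∀ n (p : {p : P // emb p ∈ N}), ∃ q : {p : P // emb p ∈ N}, q.1 ∈ f n ∧ q.1 ≤ p.1 :=
    fun n p => by
      obtain ⟨q, a, b, c⟩ := h1 (f n) (hfn n).1 p.1 p.2 ((hfn n).2 p.1)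
      exact ⟨⟨q, a⟩, b, c⟩
  choose g hg using step
  let s : ℕ → {p : P // emb p ∈ N} := fun n => Nat.rec ⟨p0, h2⟩ (fun n p => g n p) n
  have hs : Antitone fun n => (s n).1 := antitone_nat_of_succ_le fun n => (hg n (s n)).2
  refine ⟨⟨N, range fun n => (s n).1, h4⟩, rfl, ⟨?_, ?_, ?_⟩, ⟨0, rfl⟩⟩
  · rintro _ ⟨n, rfl⟩
    exact (s n).2
  · rintro _ ⟨n, rfl⟩ _ ⟨m, rfl⟩
    exact ⟨_, ⟨max n m, rfl⟩, hs (le_max_left _ _), hs (le_max_right _ _)⟩
  · intro D hD hD'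
    have : D ∈ range f := by rw [← hf]; exact ⟨hD, hD'⟩
    obtain ⟨n, rfl⟩ := this
    exact ⟨_, ⟨n + 1, rfl⟩, (hg n (s n)).1⟩

/-- there is a good world containing a given condition -/
theorem exists_world (p : P) (h : ∀ᶠ w in gen P, Φ w) : ∃ w : World P, p ∈ w.G ∧ Φ w := by
  obtain ⟨N, h1, w, e, h2, h3⟩ := ((ev_gen_iff.1 h).and (exists_generic_has p)).exists
  exact ⟨w, h3, h1 w e h2⟩

theorem Sem.exists (h : Sem p Φ) (h' : ∀ᶠ w in gen P, Ψ w) :
    ∃ w : World P, p ∈ w.G ∧ Φ w ∧ Ψ w := by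
  obtain ⟨w, h1, h2, h3⟩ := exists_world p (Eventually.and h h')
  exact ⟨w, h1, h2 (w.has_of_mem h1), h3⟩

theorem Sem.not_not (h : Sem p Φ) (h' : Sem p fun w => ¬ Φ w) : False :=
  let ⟨_, _, h, _⟩ := (h.and h').exists (Eventually.of_forall fun _ => trivial); h.2 h.1

/-- soundness of forcing -/
theorem ev_sem (Φ : World P → Prop) : ∀ᶠ w in gen P, ∀ p, w.Has p → Sem p Φ → Φ w := by
  filter_upwards [ev_generic, ev_all (Φ := fun p w => Sem p Φ → w.Has p → Φ w)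
    fun p => ev_imp fun h => h] with w hw h p ⟨q, h1, h2⟩ h3
  exact h q (hw.mem q h1) (h3.mono h2) (w.has_of_mem h1)

theorem ev_dense_has (D : P → Prop) :
    ∀ᶠ w in gen P, ∀ p, w.Has p → (∀ q ≤ p, ∃ r ≤ q, D r) → ∃ r ∈ w.G, r ≤ p ∧ D r := by
  filter_upwards [ev_dense D] with w h p ⟨q, h1, h2⟩ h3
  obtain ⟨r, a1, a2, a3⟩ := h q h1 fun q' hq' => h3 q' (hq'.trans h2)
  exact ⟨r, a1, a2.trans h2, a3⟩

theorem sem_of_dense (h : ∀ q ≤ p, ∃ r ≤ q, Sem r Φ) : Sem p Φ := by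
  filter_upwards [ev_dense_has fun r => Sem r Φ, ev_sem Φ] with w h1 h2 h3
  obtain ⟨r, a1, -, a2⟩ := h1 p h3 h
  exact h2 r (w.has_of_mem a1) a2

theorem ev_of_dense (h : ∀ q, ∃ r ≤ q, Sem r Φ) : ∀ᶠ w in gen P, Φ w := by
  filter_upwards [ev_dense0 _ h, ev_sem Φ] with w ⟨r, h1, h2⟩ h3
  exact h3 r (w.has_of_mem h1) h2

theorem sem_all {T : Type v} [Small.{2} T] {Φ : T → World P → Prop} (h : ∀ a, Sem p (Φ a)) :
    Sem p fun w => ∀ a, w.In a → Φ a w := by
  filter_upwards [ev_all h] with w h1 h2 a ha using h1 a ha h2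

/-- the properties of worlds for which the truth lemma holds -/
instance worldMS : MeasurableSpace (World P) where
  MeasurableSet' S := ∀ p : P, ∃ q ≤ p, Sem q (· ∈ S) ∨ Sem q (· ∉ S)
  measurableSet_empty p := ⟨p, le_rfl, Or.inr (sem_of_ev (Eventually.of_forall fun _ h => h) p)⟩
  measurableSet_compl S h p := by
    obtain ⟨q, h1, h2⟩ := h p
    exact ⟨q, h1, h2.symm.imp id fun h => h.imp' fun _ h h' => h' h⟩
  measurableSet_iUnion S h p := by
    by_cases h1 : ∃ n, ∃ q ≤ p, Sem q (· ∈ S n)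
    · obtain ⟨n, q, h1, h2⟩ := h1
      exact ⟨q, h1, Or.inl (h2.imp' fun _ h => mem_iUnion.2 ⟨n, h⟩)⟩
    · push Not at h1
      refine ⟨p, le_rfl, Or.inr ((sem_all (Φ := fun n w => w ∉ S n) fun n =>
        sem_of_dense fun q hq => ?_).imp ?_)⟩
      · obtain ⟨r, a1, a2⟩ := h n q
        exact ⟨r, a1, a2.resolve_left (h1 n r (a1.trans hq))⟩
      · filter_upwards [ev_ctype ℕ] with w h2 h3 h4
        obtain ⟨n, hn⟩ := mem_iUnion.1 h4
        exact h3 n (h2 n) hn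

theorem measurable_world_iff :
    Measurable Φ ↔ ∀ p : P, ∃ q ≤ p, Sem q Φ ∨ Sem q fun w => ¬ Φ w :=
  measurableSet_setOfPred.symm

theorem _root_.Measurable.decidesK (h : Measurable Φ) (p : P) :
    ∃ q ≤ p, Sem q Φ ∨ Sem q fun w => ¬ Φ w := measurable_world_iff.1 h p

/-- the truth lemma -/
theorem ev_forced (h : Measurable Φ) : ∀ᶠ w in gen P, Φ w → ∃ p ∈ w.G, Sem p Φ := by
  filter_upwards [ev_dense0 _ h.decidesK, ev_sem fun w => ¬ Φ w] with w ⟨p, h1, h2⟩ h3 h4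
  exact ⟨p, h1, h2.resolve_right fun h => h3 p (w.has_of_mem h1) h h4⟩

theorem ev_hit_sem (h : Measurable Φ) : ∀ᶠ w in gen P, w.Hit {p | Sem p Φ} ↔ Φ w := by
  filter_upwards [ev_forced h, ev_sem Φ] with w h1 h2
  rw [w.hit_iff fun p q h h' => h'.mono h]
  exact ⟨fun ⟨p, a1, a2⟩ => h2 p (w.has_of_mem a1) a2, h1⟩

/-- a measurable property which holds in some good world containing `p` is forced below `p` -/
theorem exists_sem (h : Measurable Φ) (h' : ¬ Sem p fun w => ¬ Φ w) : ∃ q ≤ p, Sem q Φ := by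
  by_contra hc
  push Not at hc
  exact h' (sem_of_dense fun q hq => let ⟨r, a1, a2⟩ := h.decidesK q
    ⟨r, a1, a2.resolve_left (hc r (a1.trans hq))⟩)

theorem ev_of_not_sem (h : Measurable Φ) (h' : ∀ p, ¬ Sem p fun w => ¬ Φ w) :
    ∀ᶠ w in gen P, Φ w := ev_of_dense fun q => exists_sem h (h' q)

theorem _root_.Measurable.congr_evK (h : Measurable Ψ) (h' : ∀ᶠ w in gen P, Φ w ↔ Ψ w) :
    Measurable Φ :=
  measurable_world_iff.2 fun p => let ⟨q, h1, h2⟩ := h.decidesK p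
    ⟨q, h1, h2.imp (fun h => h.imp (h'.mono fun _ h => h.2))
      fun h => h.imp (h'.mono fun _ h h1 h2 => h1 (h.1 h2))⟩

theorem measurable_frc {D : P → Prop} (hD : ∀ p q, q ≤ p → D p → D q) :
    Measurable fun w : World P => w.Frc D := by
  refine measurable_world_iff.2 fun p => ?_
  by_cases h : ∃ q ≤ p, D q
  · obtain ⟨q, h1, h2⟩ := h
    exact ⟨q, h1, Or.inl (sem_frc hD h2)⟩
  · push Not at h
    refine ⟨p, le_rfl, Or.inr ?_⟩
    filter_upwards [ev_generic] with w hw h1 ⟨q, h2, h3⟩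
    obtain ⟨r, -, a1, a2⟩ := hw.has_and h1 (w.has_of_mem h2)
    exact h r a1 (hD _ _ a2 h3)

theorem measurable_hit (b : Set P) : Measurable fun w : World P => w.Hit b :=
  measurable_frc fun _ _ h h' => h'.mono h

theorem measurable_has (p : P) : Measurable fun w : World P => w.Has p :=
  measurable_frc (D := fun q => q ≤ p) fun _ _ h h' => h.trans h'

theorem measurable_all_in {T : Type v} [Small.{2} T] {Φ : T → World P → Prop}
    (h : ∀ a, Measurable (Φ a)) : Measurable fun w => ∀ a, w.In a → Φ a w := by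
  refine measurable_world_iff.2 fun p => ?_
  by_cases h1 : ∃ a, ∃ q ≤ p, Sem q fun w => ¬ Φ a w
  · obtain ⟨a, q, h1, h2⟩ := h1
    exact ⟨q, h1, Or.inr (h2.imp ((ev_const a).mono fun _ h3 h4 h5 => h4 (h5 a h3)))⟩
  · push Not at h1
    exact ⟨p, le_rfl, Or.inl (sem_all fun a => sem_of_dense fun q hq =>
      exists_sem (h a) (h1 a q hq))⟩

theorem measurable_ex_in {T : Type v} [Small.{2} T] {Φ : T → World P → Prop}
    (h : ∀ a, Measurable (Φ a)) : Measurable fun w => ∃ a, w.In a ∧ Φ a w := by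
  have := (measurable_all_in fun a => (h a).not).not
  simpa using this

theorem measurable_dimp {A : Prop} {Φ : A → World P → Prop} (h : ∀ a, Measurable (Φ a)) :
    Measurable fun w => ∀ a, Φ a w := Measurable.forall h

/-- a forced existential statement has a witness forced by a stronger condition -/
theorem Sem.ex_in {T : Type v} [Small.{2} T] {Φ : T → World P → Prop} (hΦ : ∀ a, Measurable (Φ a))
    (h : Sem p fun w => ∃ a, w.In a ∧ Φ a w) : ∃ q ≤ p, ∃ a, Sem q (Φ a) := by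
  obtain ⟨w, h1, ⟨a, h2, h3⟩, h4, h5⟩ :=
    h.exists (ev_generic.and (ev_all fun a => ev_forced (hΦ a)))
  obtain ⟨q, a1, a2⟩ := h5 a h2 h3
  obtain ⟨r, -, b1, b2⟩ := h4.dir p h1 q a1
  exact ⟨r, b1, a, a2.mono b2⟩

theorem Sem.ex {T : Type v} [Small.{2} T] [Countable T] {Φ : T → World P → Prop}
    (hΦ : ∀ a, Measurable (Φ a)) (h : Sem p fun w => ∃ a, Φ a w) : ∃ q ≤ p, ∃ a, Sem q (Φ a) :=
  Sem.ex_in hΦ (h.imp ((ev_ctype T).mono fun _ h1 ⟨a, h2⟩ => ⟨a, h1 a, h2⟩))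

/-- `x` is given by a name -/
def Named (x : World P → ZFSet.{0}) : Prop := ∃ σ : Name P, ∀ᶠ w in gen P, w.val σ = x w

variable {x y : World P → ZFSet.{0}}

theorem Named.ev_mem (h : Named x) : ∀ᶠ w in gen P, x w ∈ w.M := by
  obtain ⟨σ, h⟩ := h
  filter_upwards [h, ev_val_mem_M σ] with w h1 h2 using h1 ▸ h2

theorem Named.congr (h : Named x) (h' : ∀ᶠ w in gen P, x w = y w) : Named y := by
  obtain ⟨σ, h⟩ := h
  exact ⟨σ, by filter_upwards [h, h'] with w h1 h2 using h1.trans h2⟩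

theorem named_val (σ : Name P) : Named fun w => w.val σ := ⟨σ, Eventually.of_forall fun _ => rfl⟩

theorem Named.measurable_eq (h : Named x) (h' : Named y) : Measurable fun w => x w = y w := by
  obtain ⟨σ, h⟩ := h
  obtain ⟨τ, h'⟩ := h'
  refine (measurable_frc (D := FEq σ τ) fun _ _ h h' => h'.mono h).congr_evK ?_
  filter_upwards [h, h', ev_val_eq σ τ] with w h1 h2 h3
  rw [← h1, ← h2, h3]

theorem Named.measurable_mem (h : Named x) (h' : Named y) : Measurable fun w => x w ∈ y w := by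
  obtain ⟨σ, h⟩ := h
  obtain ⟨τ, h'⟩ := h'
  refine (measurable_frc (D := FMem σ τ) fun _ _ h h' => h'.mono h).congr_evK ?_
  filter_upwards [h, h', ev_val_mem σ τ] with w h1 h2 h3
  rw [← h1, ← h2, h3]

theorem Named.pair (h : Named x) (h' : Named y) : Named fun w => ZFSet.pair (x w) (y w) := by
  obtain ⟨σ, h⟩ := h
  obtain ⟨τ, h'⟩ := h'
  refine ⟨opair σ τ, ?_⟩
  filter_upwards [h, h', ev_val_opair] with w h1 h2 h3
  rw [h3, h1, h2]

theorem named_nat (n : ℕ) : Named fun _ : World P => ZFSet.mk (PSet.ofNat n) :=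
  ⟨natName n, ev_val_natName.mono fun _ h => h n⟩

/-- comprehension: the set of all `x i` with `i` in `N` such that `Φ i` holds -/
theorem named_of_mem_iff {I : Type 1} {x : I → World P → ZFSet.{0}} (hx : ∀ i, Named (x i))
    {Φ : I → World P → Prop} (hΦ : ∀ i, Measurable (Φ i))
    (hy : ∀ᶠ w in gen P, ∀ z, z ∈ y w ↔ ∃ i, w.In i ∧ Φ i w ∧ x i w = z) : Named y := by
  choose σ hσ using hx
  refine ⟨⟨I, σ, fun i => {p | Sem p (Φ i)}⟩, ?_⟩
  filter_upwards [hy, ev_all hσ, ev_all fun i => ev_hit_sem (hΦ i)] with w h1 h2 h3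
  ext z
  rw [h1, w.mem_val_mk]
  refine exists_congr fun i => and_congr_right fun hi => ?_
  rw [h2 i hi, h3 i hi]

/-- the elements of a named set are indexed by a type -/
theorem Named.exists_index (h : Named y) : ∃ (I : Type 1) (x : I → World P → ZFSet.{0})
    (Φ : I → World P → Prop), (∀ i, Named (x i)) ∧ (∀ i, Measurable (Φ i)) ∧
      ∀ᶠ w in gen P, ∀ z, z ∈ y w ↔ ∃ i, w.In i ∧ Φ i w ∧ x i w = z := by
  obtain ⟨σ, h⟩ := h
  refine ⟨σ.I, fun i w => w.val (σ.A i), fun i w => w.Hit (σ.c i), fun i => named_val _,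
    fun i => measurable_hit _, ?_⟩
  filter_upwards [h] with w h z
  rw [← h, w.mem_val]

/-- mixing of names -/
theorem named_mix {I : Type 1} {x : I → World P → ZFSet.{0}} (hx : ∀ i, Named (x i))
    {Φ : I → World P → Prop} (hΦ : ∀ i, Measurable (Φ i))
    (h1 : ∀ᶠ w in gen P, ∃ i, w.In i ∧ Φ i w)
    (h2 : ∀ᶠ w in gen P, ∀ i, w.In i → Φ i w → x i w = y w) : Named y := by
  choose J u Ψ a1 a2 a3 using fun i => (hx i).exists_index
  refine named_of_mem_iff (I := Σ i, J i) (x := fun k => u k.1 k.2) (fun k => a1 _ _)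
    (Φ := fun k w => Φ k.1 w ∧ Ψ k.1 k.2 w) (fun k => (hΦ _).and (a2 _ _)) ?_
  filter_upwards [h1, h2, ev_all a3, ev_in_sigma J] with w ⟨i, b1, b2⟩ b3 b4 b5 z
  constructor
  · intro hz
    rw [← b3 i b1 b2, b4 i b1] at hz
    obtain ⟨j, c1, c2, c3⟩ := hz
    exact ⟨⟨i, j⟩, (b5 _).2 ⟨b1, c1⟩, ⟨b2, c2⟩, c3⟩
  · rintro ⟨⟨i, j⟩, c1, ⟨c2, c3⟩, c4⟩
    have := (b5 _).1 c1
    rw [← b3 i this.1 c2, b4 i this.1]
    exact ⟨j, this.2, c3, c4⟩

/-- quantification over the elements of the extension -/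
theorem ev_all_named {Φ : ZFSet.{0} → World P → Prop}
    (h : ∀ x, Named x → ∀ᶠ w in gen P, Φ (x w) w) : ∀ᶠ w in gen P, ∀ x ∈ w.M, Φ x w :=
  ev_all_M fun σ => h _ (named_val σ)

end Pool.Agent.P.MP_a5be26_lc
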