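import Mathlib

/-!
Sets of size at most continuum, the ordinal `kk` (successor of the continuum), and recursion
along closed preorders.
-/

open Set Function Cardinal Ordinal

namespace Pool.Agent.P.MP_a5be26_lc

universe u v

/-- size at most continuum -/
def Sm {α : Type u} (s : Set α) : Prop := ∃ h : α → Set ℕ, InjOn h s

/-- the successor of the continuum -/
noncomputable def kk : Ordinal.{0} := (Order.succ 𝔠).ord

variable {α : Type u} {β : Type v}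

theorem Sm.mono {s t : Set α} (h : Sm t) (hs : s ⊆ t) : Sm s :=
  let ⟨f, hf⟩ := h; ⟨f, hf.mono hs⟩

theorem Sm.of_injOn {s : Set α} {t : Set β} (h : Sm t) (f : α → β) (h1 : MapsTo f s t)
    (h2 : InjOn f s) : Sm s :=
  let ⟨g, hg⟩ := h; ⟨g ∘ f, hg.comp h2 h1⟩

theorem Sm.image {s : Set α} (h : Sm s) (f : α → β) : Sm (f '' s) := by
  classical
  obtain ⟨g, hg⟩ := h
  refine ⟨fun y => if h : ∃ x ∈ s, f x = y then g h.choose else ∅, fun y hy z hz e => ?_⟩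
  have hy' : ∃ x ∈ s, f x = y := hy
  have hz' : ∃ x ∈ s, f x = z := hz
  simp only [dif_pos hy', dif_pos hz'] at e
  rw [← hy'.choose_spec.2, ← hz'.choose_spec.2, hg hy'.choose_spec.1 hz'.choose_spec.1 e]

theorem mk_X : #(Set ℕ) = 𝔠 := by simp

theorem sm_univ_seq : Sm (univ : Set (ℕ → Set ℕ)) := by
  obtain ⟨f⟩ : Nonempty ((ℕ → Set ℕ) ↪ Set ℕ) := by
    rw [← Cardinal.le_def]
    simp
  exact ⟨f, f.injective.injOn⟩

theorem sm_X : Sm (univ : Set (Set ℕ)) := ⟨id, injOn_id _⟩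

theorem Sm.seqs {s : Set α} (h : Sm s) : Sm {u : ℕ → α | ∀ n, u n ∈ s} := by
  obtain ⟨g, hg⟩ := h
  exact sm_univ_seq.of_injOn (fun u n => g (u n)) (mapsTo_univ _ _) fun u hu v hv e =>
    funext fun n => hg (hu n) (hv n) (congrFun e n)

theorem Sm.biUnion {I : Set β} (hI : Sm I) {s : β → Set α} (hs : ∀ i ∈ I, Sm (s i)) :
    Sm (⋃ i ∈ I, s i) := by
  classical
  obtain ⟨g, hg⟩ := hI
  choose! h hh using hs
  have : ∀ x : α, ∃ u : ℕ → Set ℕ, x ∈ ⋃ i ∈ I, s i → ∃ i ∈ I, x ∈ s i ∧ u 0 = g i ∧ u 1 = h i x := by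
    intro x
    by_cases hx : x ∈ ⋃ i ∈ I, s i
    · obtain ⟨i, h1, h2⟩ := mem_iUnion₂.1 hx
      exact ⟨fun n => if n = 0 then g i else h i x, fun _ => ⟨i, h1, h2, by simp, by simp⟩⟩
    · exact ⟨fun _ => ∅, fun h => absurd h hx⟩
  choose u hu using this
  refine sm_univ_seq.of_injOn u (mapsTo_univ _ _) fun x hx y hy e => ?_
  obtain ⟨i, a1, a2, a3, a4⟩ := hu x hx
  obtain ⟨j, b1, b2, b3, b4⟩ := hu y hy
  have : i = j := hg a1 b1 (by rw [← a3, ← b3, e])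
  subst this
  exact hh i a1 a2 b2 (by rw [← a4, ← b4, e])

theorem Sm.of_countable {s : Set α} (h : s.Countable) : Sm s := by
  obtain ⟨f, hf⟩ := countable_iff_exists_injOn.1 h
  exact ⟨fun x => {f x}, fun x hx y hy e => hf hx hy (singleton_injective e)⟩

theorem Sm.iUnion {s : ℕ → Set α} (hs : ∀ i, Sm (s i)) : Sm (⋃ i, s i) := by
  simpa using (Sm.of_countable (countable_univ (α := ℕ))).biUnion fun i _ => hs i

theorem Sm.union {s t : Set α} (hs : Sm s) (ht : Sm t) : Sm (s ∪ t) :=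
  (Sm.iUnion (s := fun n => if n = 0 then s else t) fun n => by split_ifs <;> assumption).mono
    (union_subset (subset_iUnion_of_subset 0 (by simp)) (subset_iUnion_of_subset 1 (by simp)))

theorem Sm.insert {s : Set α} (hs : Sm s) (a : α) : Sm (insert a s) :=
  (Sm.of_countable (countable_singleton a)).union hs

theorem Sm.prod {s : Set α} {t : Set β} (hs : Sm s) (ht : Sm t) : Sm (s ×ˢ t) :=
  (hs.biUnion fun a _ => ht.image fun b => (a, b)).mono fun z hz =>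
    mem_iUnion₂.2 ⟨z.1, hz.1, z.2, hz.2, rfl⟩

theorem Sm.small {s : Set α} (h : Sm s) : Small.{0} s := by
  obtain ⟨g, hg⟩ := h
  exact small_of_injective (f := fun x : s => g x.1) fun x y e => Subtype.ext (hg x.2 y.2 e)

theorem sm_Iio {b : Ordinal.{0}} (hb : b < kk) : Sm (Iio b) := by
  have h1 : b.card ≤ 𝔠 := Order.lt_succ_iff.1 (Cardinal.lt_ord.1 hb)
  obtain ⟨f⟩ : Nonempty (Iio b ↪ Set ℕ) := by
    rw [← Cardinal.lift_mk_le', Cardinal.mk_Iio_ordinal, mk_X, Cardinal.lift_uzero]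
    exact Cardinal.lift_le.2 h1
  classical
  refine ⟨fun x => if h : x < b then f ⟨x, h⟩ else ∅, fun x hx y hy e => ?_⟩
  simp only [dif_pos (mem_Iio.1 hx), dif_pos (mem_Iio.1 hy)] at e
  exact congrArg Subtype.val (f.injective e)

theorem kk_limit : Order.IsSuccLimit kk :=
  Cardinal.isSuccLimit_ord (aleph0_le_continuum.trans (Order.le_succ _))

theorem kk_succ {b : Ordinal.{0}} (hb : b < kk) : b + 1 < kk := kk_limit.succ_lt hb

theorem kk_pos : 0 < kk := kk_limit.bot_lt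

theorem cord_lt_kk : (𝔠 : Cardinal.{0}).ord < kk := Cardinal.ord_lt_ord.2 (Order.lt_succ _)

theorem omega1_lt_kk : ω₁ < kk := by
  refine lt_of_le_of_lt ?_ cord_lt_kk
  rw [← Cardinal.ord_aleph]
  exact Cardinal.ord_le_ord.2 aleph_one_le_continuum

theorem Sm.bound {s : Set Ordinal.{0}} (h : Sm s) (hs : ∀ x ∈ s, x < kk) :
    ∃ b < kk, ∀ x ∈ s, x < b := by
  have := h.small
  obtain ⟨g, hg⟩ := h
  have h1 : Cardinal.lift.{0} #s ≤ Cardinal.lift.{1} #(Set ℕ) :=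
    Cardinal.lift_mk_le'.2 ⟨⟨fun x => g x.1, fun x y e => Subtype.ext (hg x.2 y.2 e)⟩⟩
  refine ⟨sSup s + 1, kk_succ (sSup_lt_of_lt_cof ?_ hs), fun x hx =>
    Order.lt_add_one_iff.2 (le_csSup Ordinal.bddAbove_of_small hx)⟩
  rw [← Ordinal.lift_cof, kk, (Cardinal.isRegular_succ aleph0_le_continuum).cof_ord]
  rw [mk_X, Cardinal.lift_uzero] at h1
  exact h1.trans_lt (Cardinal.lift_lt.2 (Order.lt_succ _))

theorem small_bound (s : Set Ordinal.{0}) [Small.{0} s] : ∃ b, ∀ x ∈ s, x < b :=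
  ⟨sSup s + 1, fun _ hx => Order.lt_add_one_iff.2 (le_csSup Ordinal.bddAbove_of_small hx)⟩

/-- a small set is mapped injectively below some ordinal -/
theorem small_inj {α : Type 1} (s : Set α) [Small.{0} s] :
    ∃ (h : α → Ordinal.{0}) (b : Ordinal.{0}), InjOn h s ∧ ∀ x ∈ s, h x < b := by
  classical
  let g : s → Ordinal.{0} := fun x =>
    Ordinal.typein (WellOrderingRel (α := Shrink.{0} s)) (equivShrink s x)
  have hg : Injective g := fun x y e =>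
    (equivShrink s).injective ((Ordinal.typein_injective _) e)
  refine ⟨fun x => if h : x ∈ s then g ⟨x, h⟩ else 0,
    Ordinal.type (WellOrderingRel (α := Shrink.{0} s)), fun x hx y hy e => ?_, fun x hx => ?_⟩
  · simp only [dif_pos hx, dif_pos hy] at e
    exact congrArg Subtype.val (hg e)
  · simp only [dif_pos hx]
    exact Ordinal.typein_lt_type _ _

theorem Sm.enum {s : Set α} (h : Sm s) (hne : s.Nonempty) :
    ∃ e : Ordinal.{0} → α, ∀ x ∈ s, ∃ i < (𝔠 : Cardinal.{0}).ord, e i = x := by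
  obtain ⟨g, hg⟩ := h
  obtain ⟨f⟩ : Nonempty (Set ℕ ↪ Iio (𝔠 : Cardinal.{0}).ord) := by
    rw [← Cardinal.lift_mk_le', Cardinal.mk_Iio_ordinal, mk_X]
    simp
  have : Nonempty α := ⟨hne.some⟩
  refine ⟨invFunOn (fun x => (f (g x)).1) s, fun x hx => ⟨_, (f (g x)).2, ?_⟩⟩
  exact InjOn.leftInvOn_invFunOn (f := fun x => (f (g x)).1)
    (fun x hx y hy e => hg hx hy (f.injective (Subtype.ext e))) hx

theorem countable_Iio {b : Ordinal.{0}} (hb : b < ω₁) : (Iio b).Countable := by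
  rw [← Cardinal.le_aleph0_iff_set_countable, Cardinal.mk_Iio_ordinal]
  rw [← Cardinal.ord_aleph, Cardinal.lt_ord, ← Cardinal.succ_aleph0, Order.lt_succ_iff] at hb
  exact Cardinal.lift_le_aleph0.2 hb

theorem omega1_succ {b : Ordinal.{0}} (hb : b < ω₁) : b + 1 < ω₁ :=
  (Cardinal.isSuccLimit_omega 1).succ_lt hb

theorem countable_bound {s : Set Ordinal.{0}} (h : s.Countable) (hs : ∀ x ∈ s, x < ω₁) :
    ∃ b < ω₁, ∀ x ∈ s, x < b := by
  have := h.to_subtype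
  exact ⟨(⨆ x : s, x.1) + 1, omega1_succ (iSup_lt_omega_one fun x => hs x.1 x.2), fun x hx =>
    Order.lt_add_one_iff.2 (Ordinal.le_iSup (fun x : s => x.1) ⟨x, hx⟩)⟩

section chain
variable {R : Type u} [Preorder R]

variable (R) in
/-- directed families of size at most continuum have lower bounds -/
def Cl : Prop := ∀ (I : Set Ordinal.{0}) (g : Ordinal.{0} → R), Sm I → I.Nonempty →
  (∀ i ∈ I, ∀ j ∈ I, i ≤ j → g j ≤ g i) → ∃ r, ∀ i ∈ I, r ≤ g i

theorem Cl.chain (h : Cl R) (x0 : R) (step : Ordinal.{0} → R → R) (hs : ∀ i x, step i x ≤ x) :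
    ∃ g : Ordinal.{0} → R, ∀ i < kk, g i ≤ x0 ∧ ∀ j < i, g i ≤ step j (g j) := by
  classical
  let g : Ordinal.{0} → R := (wellFounded_lt (α := Ordinal.{0})).fix fun i f =>
    if h : ∃ y, y ≤ x0 ∧ ∀ j (hj : j < i), y ≤ step j (f j hj) then h.choose else x0
  have hg : ∀ i, (∃ y, y ≤ x0 ∧ ∀ j < i, y ≤ step j (g j)) →
      g i ≤ x0 ∧ ∀ j < i, g i ≤ step j (g j) := fun i hi => by
    have e : g i = if h : ∃ y, y ≤ x0 ∧ ∀ j < i, y ≤ step j (g j) then h.choose else x0 :=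
      WellFounded.fix_eq _ _ _
    rw [e, dif_pos hi]
    exact hi.choose_spec
  refine ⟨g, fun i => ?_⟩
  induction i using WellFoundedLT.induction with
  | ind i ih =>
  intro hi
  refine hg i ?_
  rcases eq_zero_or_pos i with rfl | h0
  · exact ⟨x0, le_rfl, by simp⟩
  · obtain ⟨r, hr⟩ := h (Iio i) (fun j => step j (g j)) (sm_Iio hi) ⟨0, h0⟩ fun a ha b hb hab => by
      rcases hab.eq_or_lt with rfl | hab
      · exact le_rfl
      · exact (hs _ _).trans ((ih b hb (hb.trans hi)).2 a hab)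
    exact ⟨r, (hr 0 h0).trans ((hs _ _).trans (ih 0 h0 kk_pos).1), hr⟩

theorem Cl.meet (h : Cl R) (x0 : R) {S : Set α} (hS : Sm S) (D : α → R → Prop)
    (h1 : ∀ j ∈ S, ∀ x ≤ x0, ∃ y ≤ x, D j y) (h2 : ∀ j x y, y ≤ x → D j x → D j y) :
    ∃ y ≤ x0, ∀ j ∈ S, D j y := by
  classical
  rcases S.eq_empty_or_nonempty with rfl | hne
  · exact ⟨x0, le_rfl, by simp⟩
  obtain ⟨e, he⟩ := hS.enum hne
  obtain ⟨g, hg⟩ := h.chain x0 (fun i x => if h : ∃ y ≤ x, D (e i) y then h.choose else x)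
    fun i x => by
      split_ifs with h
      exacts [h.choose_spec.1, le_rfl]
  refine ⟨g _, (hg _ cord_lt_kk).1, fun j hj => ?_⟩
  obtain ⟨i, hi, rfl⟩ := he j hj
  have a1 := h1 _ hj (g i) (hg i (hi.trans cord_lt_kk)).1
  have a2 := (hg _ cord_lt_kk).2 i hi
  rw [dif_pos a1] at a2
  exact h2 _ _ _ a2 a1.choose_spec.2

/-- countably closed preorders meet countably many dense open sets -/
theorem meet_countable (h : ∀ g : ℕ → R, Antitone g → ∃ r, ∀ n, r ≤ g n) (x0 : R) {S : Set α}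
    (hS : S.Countable) (D : α → R → Prop) (h1 : ∀ j ∈ S, ∀ x ≤ x0, ∃ y ≤ x, D j y)
    (h2 : ∀ j x y, y ≤ x → D j x → D j y) : ∃ y ≤ x0, ∀ j ∈ S, D j y := by
  rcases S.eq_empty_or_nonempty with rfl | hne
  · exact ⟨x0, le_rfl, by simp⟩
  obtain ⟨e, rfl⟩ := hS.exists_eq_range hne
  have : ∀ n (x : Iic x0), ∃ y : Iic x0, y.1 ≤ x.1 ∧ D (e n) y.1 := fun n x => by
    obtain ⟨y, a1, a2⟩ := h1 _ ⟨n, rfl⟩ x.1 x.2
    exact ⟨⟨y, a1.trans x.2⟩, a1, a2⟩
  choose s hs using this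
  let g : ℕ → Iic x0 := fun n => Nat.rec ⟨x0, le_rfl⟩ (fun n x => s n x) n
  obtain ⟨r, hr⟩ := h (fun n => (g n).1) (antitone_nat_of_succ_le fun n => (hs n (g n)).1)
  refine ⟨r, hr 0, ?_⟩
  rintro _ ⟨n, rfl⟩
  exact h2 _ _ _ (hr (n + 1)) (hs n (g n)).2

end chain

theorem cl_dual : Cl (Ordinal.{0})ᵒᵈ := fun I g h _ _ => by
  have := h.small
  obtain ⟨b, hb⟩ := small_bound ((fun i => OrderDual.ofDual (g i)) '' I)
  exact ⟨OrderDual.toDual b, fun i hi => (hb _ ⟨i, hi, rfl⟩).le⟩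

/-- closure points of large cofinality -/
theorem exists_closure (g : Ordinal.{0} → Ordinal.{0}) (x0 : Ordinal.{0}) :
    ∃ ξ, x0 ≤ ξ ∧ ∀ s : Set Ordinal.{0}, Sm s → (∀ x ∈ s, x < ξ) →
      ∃ ζ, (∀ x ∈ s, x < ζ) ∧ g ζ ≤ ξ := by
  obtain ⟨G, hG⟩ := cl_dual.chain (OrderDual.toDual x0)
    (fun _ x => OrderDual.toDual (max (OrderDual.ofDual x) (g (OrderDual.ofDual x))))
    fun _ x => le_max_left (OrderDual.ofDual x) _
  let F : Ordinal.{0} → Ordinal.{0} := fun i => OrderDual.ofDual (G i)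
  have h1 : ∀ i < kk, ∀ j < i, F j ≤ F i ∧ g (F j) ≤ F i := fun i hi j hj =>
    max_le_iff.1 (show max (F j) (g (F j)) ≤ F i from (hG i hi).2 j hj)
  have h2 : ∀ i < kk, F i ≤ ⨆ i : Iio kk, F i.1 := fun i hi =>
    Ordinal.le_iSup (fun i : Iio kk => F i.1) ⟨i, hi⟩
  refine ⟨⨆ i : Iio kk, F i.1, le_trans (hG 0 kk_pos).1 (h2 0 kk_pos), fun s hs hlt => ?_⟩
  have : ∀ x ∈ s, ∃ i < kk, x < F i := fun x hx => by
    obtain ⟨i, hi⟩ := Ordinal.lt_iSup_iff.1 (hlt x hx)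
    exact ⟨i.1, i.2, hi⟩
  choose! i hi using this
  obtain ⟨b, hb, hb'⟩ := (hs.image i).bound (by rintro _ ⟨x, hx, rfl⟩; exact (hi x hx).1)
  exact ⟨F b, fun x hx => (hi x hx).2.trans_le (h1 b hb _ (hb' _ ⟨x, hx, rfl⟩)).1,
    (h1 _ (kk_succ hb) b (Order.lt_add_one_iff.2 le_rfl)).2.trans (h2 _ (kk_succ hb))⟩

end Pool.Agent.P.MP_a5be26_lc
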