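import Pool.Agent.P.MP_a5be26_lc.Diag

/-!
Splitting of new values of a continuous function, and the countably closed set of tails.
-/

open Filter Set Function Cardinal Ordinal

namespace Pool.Agent.P.MP_a5be26_lc

open Pool.Agent.Lib.Helper87

section general
variable {P : Type 1} [Preorder P]

/-- the set of pairs coded by `E` -/
noncomputable def World.rv (w : World P) (E : Set (P × O × O)) : ZFSet.{0} :=
  w.coll (fun z : O × O => w.Mem E z.1 z.2) fun z => w.pr z.1 z.2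

theorem named_rv (E : Set (P × O × O)) : Named fun w : World P => w.rv E :=
  named_coll (fun z : O × O => named_pr z.1 z.2) fun z => measurable_Mem E z.1 z.2

/-- the properties of a continuous map into the branches of a thin tree that are used -/
def World.Good (w : World P) (f : ZFSet.{0}) : Prop :=
  (∀ x y, ZFSet.pair x y ∈ f →
    (ZFSet.IsFunc (w.ord kk) (w.ord kk) x ∧ ZFSet.IsFunc (w.ord kk) (w.ord kk) y) ∧
    ∀ η : O, w.In η → ∀ γ : O, w.In γ → η < kk → w.pr η γ ∈ y → ∃ β : O, w.In β ∧ β < kk ∧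
      ∀ x' y', ZFSet.pair x' y' ∈ f →
        (∀ η' : O, w.In η' → ∀ γ' : O, w.In γ' → η' < β → w.pr η' γ' ∈ x → w.pr η' γ' ∈ x') →
          w.pr η γ ∈ y') ∧
  ∀ δ : O, w.In δ → δ < kk → ∃ e ∈ w.M, w.Num f e δ

theorem measurable_Good {f : World P → ZFSet.{0}} (hf : Named f) :
    Measurable fun w : World P => w.Good (f w) := by
  refine Measurable.and (measurable_allPair hf (Φ := fun x y w =>
    (ZFSet.IsFunc (w.ord kk) (w.ord kk) x ∧ ZFSet.IsFunc (w.ord kk) (w.ord kk) y) ∧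
    ∀ η : O, w.In η → ∀ γ : O, w.In γ → η < kk → w.pr η γ ∈ y → ∃ β : O, w.In β ∧ β < kk ∧
      ∀ x' y', ZFSet.pair x' y' ∈ f w →
        (∀ η' : O, w.In η' → ∀ γ' : O, w.In γ' → η' < β → w.pr η' γ' ∈ x → w.pr η' γ' ∈ x') →
          w.pr η γ ∈ y') fun x hx y hy =>
    ((measurable_isFunc (named_ord _) (named_ord _) hx).and
      (measurable_isFunc (named_ord _) (named_ord _) hy)).and
    (measurable_all_in fun η => measurable_all_in fun γ => measurable_const.imp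
      (((named_pr η γ).measurable_mem hy).imp (measurable_ex_in fun β => measurable_const.and
        (measurable_allPair hf (Φ := fun x' y' w =>
          (∀ η' : O, w.In η' → ∀ γ' : O, w.In γ' → η' < β → w.pr η' γ' ∈ x w → w.pr η' γ' ∈ x') →
            w.pr η γ ∈ y') fun x' hx' y' hy' =>
          (measurable_all_in fun η' => measurable_all_in fun γ' => measurable_const.imp
            (((named_pr η' γ').measurable_mem hx).imp ((named_pr η' γ').measurable_mem hx'))).imp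
          ((named_pr η γ).measurable_mem hy')))))) ?_
  exact measurable_all_in fun δ => measurable_const.imp
    (measurable_exM (Φ := fun e w => w.Num (f w) e δ) fun e he => measurable_Num hf he δ)

theorem ev_good : ∀ᶠ w in gen P, ∀ T f, Thin w.M (w.ord ω₁) (w.ord kk) T →
    ZFSet.IsFunc (baire w.M (w.ord kk)) (branches w.M (w.ord kk) T) f → Cont (w.ord kk) f →
    w.Good f := by
  filter_upwards [ev_trans, ev_fun fun η : O => η + 1] with w a1 a2 T f hT hf hc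
  have hp : ∀ x y, ZFSet.pair x y ∈ f → ZFSet.IsFunc (w.ord kk) (w.ord kk) x ∧
      ZFSet.IsFunc (w.ord kk) (w.ord kk) y ∧
      ∀ α ∈ w.ord kk, ∀ s, ZFSet.IsFunc α (w.ord kk) s → s ⊆ y → s ∈ T := fun x y h => by
    obtain ⟨b1, b2⟩ := ZFSet.pair_mem_prod.1 (hf.1 h)
    simp only [branches, baire, ZFSet.mem_sep, ZFSet.mem_funs] at b1 b2
    exact ⟨b1.1, b2.1.1, b2.2⟩
  refine ⟨fun x y h => ⟨⟨(hp x y h).1, (hp x y h).2.1⟩, fun η b1 γ b2 b3 b4 => ?_⟩,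
    fun δ b1 b2 => ?_⟩
  · obtain ⟨_, c1, c2⟩ := hc x y h _ (w.ord_mem (a2 η b1) (kk_succ b3))
    obtain ⟨β, c3, c4, rfl⟩ := w.mem_ord.1 c1
    refine ⟨β, c3, c4, fun x' y' h' H => (c2 x' y' h' (fun a ha b => ?_) _
      (w.ord_mem b1 (Order.lt_add_one_iff.2 le_rfl)) _).1 b4⟩
    obtain ⟨η', d1, d2, rfl⟩ := w.mem_ord.1 ha
    obtain ⟨γ', d3, -, d4⟩ := func_val (hp x y h).1 (w.ord_mem d1 (d2.trans c4))
    have d5 := H η' d1 γ' d3 d2 d4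
    exact ⟨fun e => func_uniq (hp x y h).1 d4 e ▸ d5, fun e => func_uniq (hp x' y' h').1 d5 e ▸ d4⟩
  · obtain ⟨e, c1, c2, c3⟩ := hT.2.2 _ (w.ord_mem b1 b2)
    refine ⟨e, c1, fun v c d1 v' c' d2 d3 η _ γ d4 γ' d5 d6 d7 => ?_, fun x d1 d2 => ?_⟩
    · have := c3 v v' c d1 (d3 ▸ d2)
      subst this
      exact (w.ord_inj d4 d5).1
        (func_uniq (ZFSet.mem_sep.1 (ZFSet.pair_mem_prod.1 (c2.1 d1)).1).2 d6 d7)
    · obtain ⟨y, hy, -⟩ := hf.2 x (ZFSet.mem_sep.2 ⟨ZFSet.mem_funs.2 d2, d1⟩)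
      let v := ZFSet.sep (fun z => ∃ a ∈ w.ord δ, ∃ b, z = ZFSet.pair a b) y
      have hv : ZFSet.IsFunc (w.ord δ) (w.ord kk) v := by
        refine ⟨fun z hz => ?_, fun a ha => ?_⟩
        · obtain ⟨e1, a, e2, b, rfl⟩ := ZFSet.mem_sep.1 hz
          exact ZFSet.pair_mem_prod.2 ⟨e2, (ZFSet.pair_mem_prod.1 ((hp x y hy).2.1.1 e1)).2⟩
        · obtain ⟨b, e1, e2⟩ := (hp x y hy).2.1.2 a (w.ord_trans _ _ (w.ord_mem b1 b2) ha)
          exact ⟨b, ZFSet.mem_sep.2 ⟨e1, a, ha, b, rfl⟩, fun b' e3 => e2 b' (ZFSet.mem_sep.1 e3).1⟩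
      have hvT : v ∈ T := (hp x y hy).2.2 _ (w.ord_mem b1 b2) v hv fun z hz => (ZFSet.mem_sep.1 hz).1
      obtain ⟨β, e1, e2, e3⟩ := func_val c2 (ZFSet.mem_sep.2 ⟨hvT, hv⟩)
      exact ⟨y, hy, v, a1 _ hT.1 _ hvT, β, e1, e2, e3, fun η e4 γ _ e5 e6 =>
        ZFSet.mem_sep.2 ⟨e6, _, w.ord_mem e4 e5, _, rfl⟩⟩

end general

section frame
variable {Q : Type 1} [Preorder Q] [Frame Q] {f x y : World (Cc × Q) → ZFSet.{0}} {p : Cc × Q}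

/-- a function which has no code with support below `ξ` splits over `ξ` -/
theorem split (hy : Named y) (ξ : O) (h1 : Sem p fun w => ZFSet.IsFunc (w.ord kk) (w.ord kk) (y w))
    (h2 : ∀ E ∈ Codes Q ξ, ¬ Sem p fun w => w.rv E = y w) :
    ∃ r, PIn r ξ ∧ ∃ η < kk, ∃ γ : Bool → O, γ false ≠ γ true ∧
      ∀ i, γ i < kk ∧ ∃ q ≤ p, r ≤ pres q ξ ∧ Sem q fun w => w.pr η (γ i) ∈ y w := by
  by_contra hc
  let E : Set ((Cc × Q) × O × O) := {z | PIn z.1 ξ ∧ z.2.1 < kk ∧ z.2.2 < kk ∧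
    ∃ q ≤ p, z.1 ≤ pres q ξ ∧ Sem q fun w => w.pr z.2.1 z.2.2 ∈ y w}
  refine h2 E (fun z hz => ⟨hz.1, hz.2.1, hz.2.2.1⟩) ?_
  filter_upwards [h1, ev_generic, ev_in_prod O O, ev_fun fun q : Cc × Q => pres q ξ,
    ev_all fun η : O => ev_all fun γ : O => ev_forced ((named_pr η γ).measurable_mem hy)]
    with w a1 a2 a3 a4 a5 a6
  have key : ∀ η γ, w.In η → w.In γ → w.pr η γ ∈ y w → ∀ r, w.Has r →
      ∃ q ∈ w.G, q ≤ p ∧ q ≤ r ∧ Sem q fun w => w.pr η γ ∈ y w := fun η γ b1 b2 b3 r b4 => by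
    obtain ⟨q, c1, c2⟩ := a5 η b1 γ b2 b3
    obtain ⟨u, c3, c4, c5⟩ := a2.has_and a6 b4
    obtain ⟨v, c6, c7, c8⟩ := a2.dir q c1 u c3
    exact ⟨v, c6, c8.trans c4, c8.trans c5, c2.mono c7⟩
  ext z
  rw [World.rv, w.mem_coll]
  constructor
  · rintro ⟨⟨η, γ⟩, b1, ⟨r, b2, s, ⟨b3, b4, b5, q, b6, b7, b8⟩, b9⟩, rfl⟩
    obtain ⟨γ', c1, c2, c3⟩ := func_val (a1 a6) (w.ord_mem ((a3 _).1 b1).1 b4)
    obtain ⟨q', -, c4, c5, c6⟩ := key η γ' ((a3 _).1 b1).1 c1 c3 r (w.has_of_mem b2)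
    by_cases e : γ = γ'
    · exact e ▸ c3
    · refine absurd ⟨pres q' ξ, pin_pres _ _, η, b4, fun i => cond i γ' γ, e, fun i => ?_⟩ hc
      cases i
      · exact ⟨b5, q, b6, (pres_le (c5.trans b9) b3).trans b7, b8⟩
      · exact ⟨c2, q', c4, le_rfl, c6⟩
  · intro hz
    obtain ⟨η, γ, b1, b2, b3, b4, rfl⟩ := func_mem (a1 a6) hz
    obtain ⟨q, c1, c2, -, c3⟩ := key η γ b1 b2 hz p a6
    exact ⟨(η, γ), (a3 _).2 ⟨b1, b2⟩,
      ⟨q, c1, pres q ξ, ⟨pin_pres _ _, b3, b4, q, c2, le_rfl, c3⟩, le_pres _ _⟩, rfl⟩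

/-- continuity: a value of `y = f x` is decided by an initial segment of `x` -/
theorem cont_code (hf : Named f) (hx : Named x) {η γ : O} (hη : η < kk)
    (h : Sem p fun w => w.Good (f w) ∧ ZFSet.pair (x w) (y w) ∈ f w ∧ w.pr η γ ∈ y w) :
    ∃ q ≤ p, ∃ E ∈ Codes Q 0, (Sem q fun w => w.Sub E (x w)) ∧ Sem q fun w => w.Phi (f w) E η γ := by
  obtain ⟨q, hq, E, hE⟩ := Sem.ex_in (p := p)
    (Φ := fun E w => E ∈ Codes Q 0 ∧ w.Sub E (x w) ∧ w.Phi (f w) E η γ)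
    (fun E => measurable_const.and ((measurable_Sub E hx).and (measurable_Phi hf E η γ)))
    (h.imp (by
      filter_upwards [ev_const η, ev_const γ,
        ev_all fun β : O => ev_dimp fun hβ : β < kk => ev_short hx hβ] with w a1 a2 a3 ⟨a4, a5, a6⟩
      obtain ⟨⟨b1, -⟩, b2⟩ := a4.1 _ _ a5
      obtain ⟨β, b3, b4, b5⟩ := b2 η a1 γ a2 hη a6
      obtain ⟨E, c1, c2, c3, c4⟩ := a3 β b3 b4 fun η' c1 c2 =>
        func_val b1 (w.ord_mem c1 (c2.trans b4))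
      refine ⟨E, c1, c2, fun η' d1 γ' d2 => c3 η' γ' d1 d2, fun x' y' d1 d2 =>
        b5 x' y' d1 fun η' d3 γ' d4 d5 d6 => ?_⟩
      obtain ⟨γ'', e1, e2⟩ := c4 η' d3 d5
      rw [(w.ord_inj d4 e1).1 (func_uniq b1 d6 (c3 η' γ'' d3 e1 e2))]
      exact d2 η' d3 γ'' e1 e2))
  obtain ⟨w, -, a1, -⟩ := hE.exists (ev_const η)
  exact ⟨q, hq, E, a1.1, hE.imp' fun _ h => h.2.1, hE.imp' fun _ h => h.2.2⟩

theorem split_code (hf : Named f) (hx : Named x) (hy : Named y) {ξ : O}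
    (hξ : ∀ E ∈ Codes Q 0, ∀ η < kk, ∀ γ < kk, ∀ q, (Sem q fun w => w.Phi (f w) E η γ) →
      Sem (pres q ξ) fun w => w.Phi (f w) E η γ)
    (h1 : Sem p fun w => w.Good (f w) ∧ ZFSet.pair (x w) (y w) ∈ f w)
    (h2 : ∀ E ∈ Codes Q ξ, ¬ Sem p fun w => w.rv E = y w) :
    ∃ r, PIn r ξ ∧ ∃ η < kk, ∃ γ : Bool → O, γ false ≠ γ true ∧
      ∀ i, ∃ q ≤ p, r ≤ pres q ξ ∧ ∃ E ∈ Codes Q 0, (Sem q fun w => w.Sub E (x w)) ∧
        Sem r fun w => w.Phi (f w) E η (γ i) := by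
  obtain ⟨r, a1, η, a2, γ, a3, a4⟩ := split hy ξ (h1.imp' fun w h => (h.1.1 _ _ h.2).1.2) h2
  have key : ∀ i, ∀ r' ≤ r, PIn r' ξ → ∃ q ≤ p, pres q ξ ≤ r' ∧ ∃ E ∈ Codes Q 0,
      (Sem q fun w => w.Sub E (x w)) ∧ Sem (pres q ξ) fun w => w.Phi (f w) E η (γ i) := by
    intro i r' b1 b2
    obtain ⟨b3, q, b4, b5, b6⟩ := a4 i
    obtain ⟨s, c1, c2⟩ := pamalg b2 (b1.trans b5)
    obtain ⟨u, c3, E, c4, c5, c6⟩ := cont_code (y := y) (p := s) hf hx a2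
      (((h1.mono (c2.trans b4)).and (b6.mono c2)).imp' fun w h => ⟨h.1.1, h.1.2, h.2⟩)
    exact ⟨u, c3.trans (c2.trans b4), pres_le (c3.trans c1) b2, E, c4, c5,
      hξ E c4 η a2 _ b3 u c6⟩
  obtain ⟨q0, b1, b2, E0, b3, b4, b5⟩ := key false r le_rfl a1
  obtain ⟨q1, c1, c2, E1, c3, c4, c5⟩ := key true _ b2 (pin_pres _ _)
  refine ⟨pres q1 ξ, pin_pres _ _, η, a2, γ, a3, fun i => ?_⟩
  cases i
  exacts [⟨q0, b1, c2, E0, b3, b4, b5.mono c2⟩, ⟨q1, c1, le_rfl, E1, c3, c4, c5⟩]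

end frame

/-- a condition with support below `ξ` together with a small set of compatible tails -/
structure Pr (ξ : O) (q0 : Qc) : Type 1 where
  q : Qc
  R : Set Qc
  inX : q.InX ξ
  sm : Sm R
  le : ∀ r ∈ R, q ≤ r.res ξ ∧ r ≤ q0

instance (ξ : O) (q0 : Qc) : Preorder (Pr ξ q0) where
  le a b := a.q ≤ b.q ∧ b.R ⊆ a.R
  le_refl _ := ⟨le_rfl, Subset.rfl⟩
  le_trans _ _ _ h h' := ⟨h.1.trans h'.1, h'.2.trans h.2⟩

theorem Pr.cl (ξ : O) (q0 : Qc) : Cl (Pr ξ q0) := fun I g h1 h2 h3 => by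
  obtain ⟨r, hr⟩ := Qc.cl I (fun i => (g i).q) h1 h2 fun i hi j hj h => (h3 i hi j hj h).1
  have : ∀ i ∈ I, r.res ξ ≤ (g i).q := fun i hi => Qc.res_le (hr i hi) (g i).inX
  refine ⟨⟨r.res ξ, ⋃ i ∈ I, (g i).R, r.inX_res ξ, h1.biUnion fun i _ => (g i).sm, fun s hs => ?_⟩,
    fun i hi => ⟨this i hi, subset_biUnion_of_mem (u := fun i => (g i).R) hi⟩⟩
  obtain ⟨i, hi, hs⟩ := mem_iUnion₂.1 hs
  exact ⟨(this i hi).trans ((g i).le s hs).1, ((g i).le s hs).2⟩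

theorem package (ξ : O) (a0 : Cc) (q0 : Qc) (W : Qc → Set Qc → Cc → Qc → O → Prop)
    (hW : ∀ c c' R R' a q η, c' ≤ c → R ⊆ R' → W c R a q η → W c' R' a q η)
    (hd : ∀ c : Qc, c.InX ξ → ∀ q ≤ q0, c ≤ q.res ξ → ∀ a ≤ a0, ∃ c' ≤ c, c'.InX ξ ∧
      ∃ u : Bool → Qc, (∀ i, c' ≤ (u i).res ξ ∧ u i ≤ q0) ∧ ∃ η < kk, W c' (range u) a q η) :
    ∃ (c : Qc) (R : Set Qc), ∃ δ < kk, q0 ∈ R ∧ (∀ q ∈ R, c ≤ q.res ξ ∧ q ≤ q0) ∧
      (∀ q ∈ R, ∀ a ≤ a0, ∃ η < δ, W c R a q η) ∧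
      ∀ g : ℕ → Qc, (∀ n, g n ∈ R) → (∀ i j, ∃ m, g m ≤ g i ∧ g m ≤ g j) →
        ∃ y ∈ R, ∀ n, y ≤ g n := by
  have h1 : ∀ z : Pr ξ q0, ∃ z' ≤ z, (∀ q ∈ z.R, ∀ a ≤ a0, ∃ η < kk, W z'.q z'.R a q η) ∧
      ∀ g : ℕ → Qc, (∀ n, g n ∈ z.R) → (∀ i j, ∃ m, g m ≤ g i ∧ g m ≤ g j) →
        ∃ y ∈ z'.R, ∀ n, y ≤ g n := fun z => by
    obtain ⟨z1, a1, a2⟩ := (Pr.cl ξ q0).meet z (z.sm.prod (sm_Cc.mono (subset_univ (Iic a0))))
      (fun j y => ∃ η < kk, W y.q y.R j.2 j.1 η)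
      (fun j hj y hy => by
        obtain ⟨c', b1, b2, u, b3, η, b4, b5⟩ :=
          hd y.q y.inX j.1 (z.le _ hj.1).2 (y.le _ (hy.2 hj.1)).1 j.2 hj.2
        refine ⟨⟨c', y.R ∪ range u, b2, y.sm.union (.of_countable (countable_range u)), ?_⟩,
          ⟨b1, subset_union_left⟩, η, b4, hW _ _ _ _ _ _ _ le_rfl subset_union_right b5⟩
        rintro r (hr | ⟨i, rfl⟩)
        exacts [⟨b1.trans (y.le r hr).1, (y.le r hr).2⟩, b3 i])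
      fun j y y' h ⟨η, b1, b2⟩ => ⟨η, b1, hW _ _ _ _ _ _ _ h.1 h.2 b2⟩
    obtain ⟨z2, a3, a4⟩ := (Pr.cl ξ q0).meet z1 z.sm.seqs
      (fun g y => (∀ i j, ∃ m, g m ≤ g i ∧ g m ≤ g j) → ∃ s ∈ y.R, ∀ n, s ≤ g n)
      (fun g hg y hy => by
        by_cases h : ∀ i j, ∃ m, g m ≤ g i ∧ g m ≤ g j
        · obtain ⟨s, -, b1, b2⟩ := Qc.amalg y.inX h fun n => (y.le _ (hy.2 (a1.2 (hg n)))).1
          refine ⟨⟨y.q, insert s y.R, y.inX, y.sm.insert s, ?_⟩, ⟨le_rfl, subset_insert _ _⟩,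
            fun _ => ⟨s, mem_insert _ _, b1⟩⟩
          rintro r (rfl | hr)
          exacts [⟨b2, (b1 0).trans (z.le _ (hg 0)).2⟩, y.le r hr]
        · exact ⟨y, le_rfl, fun h' => absurd h' h⟩)
      fun g y y' h H h' => let ⟨s, b1, b2⟩ := H h'; ⟨s, h.2 b1, b2⟩
    exact ⟨z2, a3.trans a1, fun q hq a ha =>
      let ⟨η, b1, b2⟩ := a2 (q, a) ⟨hq, ha⟩; ⟨η, b1, hW _ _ _ _ _ _ _ a3.1 a3.2 b2⟩, a4⟩
  choose s s1 s2 s3 using h1
  obtain ⟨G, hG⟩ := (Pr.cl ξ q0).chain ⟨q0.res ξ, {q0}, q0.inX_res ξ,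
    .of_countable (countable_singleton _), by rintro _ rfl; exact ⟨le_rfl, le_rfl⟩⟩
    (fun _ => s) fun _ => s1
  let R : Set Qc := ⋃ i ∈ Iio (ω₁ : O), (G i).R
  have hRs : Sm R := (sm_Iio omega1_lt_kk).biUnion fun i _ => (G i).sm
  have hsub : ∀ i < ω₁, (s (G i)).R ⊆ R := fun i hi => Subset.trans
    ((hG _ ((omega1_succ hi).trans omega1_lt_kk)).2 i (Order.lt_add_one_iff.2 le_rfl)).2
    (subset_biUnion_of_mem (u := fun i => (G i).R) (omega1_succ hi))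
  have htop : ∀ i < ω₁, G ω₁ ≤ s (G i) := (hG _ omega1_lt_kk).2
  have h2 : ∀ z ∈ R ×ˢ Iic a0, ∃ η < kk, W (G ω₁).q R z.2 z.1 η := fun z hz => by
    obtain ⟨i, hi, b1⟩ := mem_iUnion₂.1 hz.1
    obtain ⟨η, b2, b3⟩ := s2 (G i) z.1 b1 z.2 hz.2
    exact ⟨η, b2, hW _ _ _ _ _ _ _ (htop i hi).1 (hsub i hi) b3⟩
  choose! e e1 e2 using h2
  obtain ⟨δ, d1, d2⟩ := ((hRs.prod (sm_Cc.mono (subset_univ (Iic a0)))).image e).bound
    (by rintro _ ⟨z, hz, rfl⟩; exact e1 z hz)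
  have h0 : (0 : O) < ω₁ := omega0_pos.trans omega0_lt_omega_one
  refine ⟨(G ω₁).q, R, δ, d1, mem_iUnion₂.2 ⟨0, h0, (hG 0 kk_pos).1.2 rfl⟩, fun q hq => ?_,
    fun q hq a ha => ⟨e (q, a), d2 _ ⟨(q, a), ⟨hq, ha⟩, rfl⟩, e2 (q, a) ⟨hq, ha⟩⟩, fun g hg hd => ?_⟩
  · obtain ⟨i, hi, b1⟩ := mem_iUnion₂.1 hq
    exact (G ω₁).le q (((htop i hi).trans (s1 _)).2 b1)
  · choose i hi hi' using fun n => mem_iUnion₂.1 (hg n)
    obtain ⟨b, b1, b2⟩ := countable_bound (countable_range i) (by rintro _ ⟨n, rfl⟩; exact hi n)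
    obtain ⟨y, c1, c2⟩ := s3 (G b) g (fun n => (((hG b (b1.trans omega1_lt_kk)).2 _
      (b2 _ ⟨n, rfl⟩)).trans (s1 _)).2 (hi' n)) hd
    exact ⟨y, hsub b b1 c1, c2⟩

end Pool.Agent.P.MP_a5be26_lc
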